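import Pool.Agent.Work.MP_055a27_an.Op.Stmts
import Pool.Agent.Work.MP_055a27_an.Bd.B04

/-!
# Item Ar: lower bound for the area integral by the variation on a segment
-/

set_option autoImplicit false

open MeasureTheory Set Filter Topology Complex Metric
open scoped ENNReal NNReal

namespace Pool.Agent.Work.MP_055a27_an.Op

namespace Ar

/-- The cone as a subset of `ℂ`. -/
def Sc (lam x : ℝ) : Set ℂ := {ζ | |x - ζ.re| ≤ lam * ζ.im ∧ 0 < ζ.im}

theorem measurableSet_Sc (lam x : ℝ) : MeasurableSet (Sc lam x) := by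
  have h1 : MeasurableSet {ζ : ℂ | |x - ζ.re| ≤ lam * ζ.im} :=
    (isClosed_le (by fun_prop) (by fun_prop)).measurableSet
  have h2 : MeasurableSet {ζ : ℂ | 0 < ζ.im} :=
    measurableSet_lt measurable_const Complex.measurable_im
  exact h1.inter h2

theorem lint_Sc (lam x : ℝ) (H : ℂ → ℝ≥0∞) :
    ∫⁻ ζ in Sc lam x, H ζ = ∫⁻ q in cone lam x, H (q.1 + q.2 * I) := by
  rw [← (Complex.volume_preserving_equiv_real_prod.symm).setLIntegral_comp_preimage_emb
    Complex.measurableEquivRealProd.symm.measurableEmbedding]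
  have e : ∀ q : ℝ × ℝ, Complex.measurableEquivRealProd.symm q = (q.1 : ℂ) + q.2 * I := by
    intro q
    rw [Complex.measurableEquivRealProd_symm_apply]
    apply Complex.ext <;> simp
  have hs : Complex.measurableEquivRealProd.symm ⁻¹' Sc lam x = cone lam x := by
    ext q
    rw [mem_preimage, e]
    simp [Sc, cone]
  rw [hs]
  simp only [e]

/-- Cauchy-Schwarz on `[τ, 2 τ]`. -/
theorem cs {g : ℝ → ℝ} {τ W : ℝ} (hτ : 0 < τ) (hg : ContinuousOn g (Icc τ (2 * τ)))
    (hW0 : 0 ≤ W) (hW : W ≤ ∫ s in τ..(2 * τ), g s) :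
    W ^ 2 / τ ≤ ∫ s in τ..(2 * τ), g s ^ 2 := by
  have hle : τ ≤ 2 * τ := by linarith
  have hg' : ContinuousOn g (uIcc τ (2 * τ)) := by rwa [uIcc_of_le hle]
  have i1 : IntervalIntegrable g volume τ (2 * τ) := hg'.intervalIntegrable
  have i2 : IntervalIntegrable (fun s => g s ^ 2) volume τ (2 * τ) :=
    (hg'.pow 2).intervalIntegrable
  set J : ℝ := ∫ s in τ..(2 * τ), g s with hJ
  have h0 : 0 ≤ ∫ s in τ..(2 * τ), (g s - J / τ) ^ 2 :=
    intervalIntegral.integral_nonneg hle fun s _ => sq_nonneg _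
  have h1 : ∫ s in τ..(2 * τ), (g s - J / τ) ^ 2 =
      (∫ s in τ..(2 * τ), g s ^ 2) - 2 * (J / τ) * J + (J / τ) ^ 2 * τ := by
    have e : ∀ s, (g s - J / τ) ^ 2 = (g s ^ 2 - (2 * (J / τ)) * g s) + (J / τ) ^ 2 := by
      intro s; ring
    simp only [e]
    rw [intervalIntegral.integral_add (i2.sub (i1.const_mul _)) intervalIntegrable_const,
      intervalIntegral.integral_sub i2 (i1.const_mul _), intervalIntegral.integral_const_mul,
      intervalIntegral.integral_const, smul_eq_mul]
    ring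
  have h2 : (J / τ) ^ 2 * τ = J ^ 2 / τ := by field_simp
  have h3 : 2 * (J / τ) * J = 2 * (J ^ 2 / τ) := by ring
  have h4 : W ^ 2 / τ ≤ J ^ 2 / τ := by gcongr
  rw [h1, h2, h3] at h0
  linarith

end Ar

open Ar in
theorem stAr : StAr := by
  intro lam hlam
  refine ⟨1 / (4 * (1 + lam)), by positivity, ?_⟩
  intro F x a lam' τ W hF hτ hlam' hll ha hW0 hW
  set r : ℝ := (lam - lam') * τ / (2 * (1 + lam)) with hr
  have hd : 0 < lam - lam' := by linarith
  have hr0 : 0 < r := by rw [hr]; positivity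
  have hr1 : r * (1 + lam) = (lam - lam') * τ / 2 := by rw [hr]; field_simp
  have hr2 : r < τ := by
    have : (lam - lam') * τ < (1 + lam) * τ := by
      apply mul_lt_mul_of_pos_right _ hτ
      linarith
    by_contra hcon
    push Not at hcon
    have h1 : τ * (1 + lam) ≤ r * (1 + lam) := by
      apply mul_le_mul_of_nonneg_right hcon
      linarith
    nlinarith
  have hdF : DifferentiableOn ℂ (deriv F) {w : ℂ | 0 < w.im} :=
    hF.deriv (isOpen_lt continuous_const Complex.continuous_im)
  set ws : ℝ → ℂ := fun s => x + s * (a + I) with hws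
  have hre : ∀ s, (ws s).re = x + s * a := by intro s; simp [hws]
  have him : ∀ s, (ws s).im = s := by intro s; simp [hws]
  have hwc : Continuous ws := by
    rw [hws]
    fun_prop
  have hball : ∀ s, τ ≤ s → ball (ws s) r ⊆ Sc lam x := by
    intro s hs ζ hζ
    rw [mem_ball, dist_eq_norm] at hζ
    have h1 : |ζ.im - s| < r := by
      have := (Complex.abs_im_le_norm (ζ - ws s)).trans_lt hζ
      rwa [Complex.sub_im, him] at this
    have h2 : |ζ.re - (x + s * a)| < r := by
      have := (Complex.abs_re_le_norm (ζ - ws s)).trans_lt hζ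
      rwa [Complex.sub_re, hre] at this
    rw [abs_lt] at h1 h2
    have h3 : s * a ≤ s * lam' := by
      apply mul_le_mul_of_nonneg_left ((le_abs_self a).trans ha)
      linarith
    have h4 : s * -lam' ≤ s * a := by
      apply mul_le_mul_of_nonneg_left ((abs_le.1 ha).1)
      linarith
    have h5 : (lam - lam') * τ ≤ (lam - lam') * s := mul_le_mul_of_nonneg_left hs hd.le
    have h6 : lam * (s - r) ≤ lam * ζ.im := by
      apply mul_le_mul_of_nonneg_left _ hlam.le
      linarith
    refine ⟨?_, by linarith⟩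
    rw [abs_le]
    constructor <;> nlinarith
  -- the function
  set H : ℂ → ℝ≥0∞ := (Sc lam x).indicator (fun ζ => ENNReal.ofReal (‖deriv F ζ‖ ^ 2)) with hH
  have hHm : Measurable H := by
    classical
    rw [hH, ← Set.piecewise_eq_indicator]
    apply ContinuousOn.measurable_piecewise
    · refine ENNReal.continuous_ofReal.comp_continuousOn ((hdF.continuousOn.mono ?_).norm.pow 2)
      intro ζ hζ
      exact hζ.2
    · exact continuousOn_const
    · exact measurableSet_Sc lam x
  have hT : ∫⁻ ζ, H ζ = ∫⁻ q in cone lam x, ENNReal.ofReal (‖deriv F (q.1 + q.2 * I)‖ ^ 2) := by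
    rw [hH, lintegral_indicator (measurableSet_Sc lam x)]
    exact lint_Sc lam x _
  set T : ℝ≥0∞ := ∫⁻ q in cone lam x, ENNReal.ofReal (‖deriv F (q.1 + q.2 * I)‖ ^ 2) with hTdef
  -- the kernel
  set S : Set (ℝ × ℂ) := {p | dist p.2 (ws p.1) < r} with hS
  have hSm : MeasurableSet S :=
    (isOpen_lt (by fun_prop) continuous_const).measurableSet
  set K : ℝ × ℂ → ℝ≥0∞ := S.indicator (fun p => H p.2) with hK
  have hKm : Measurable K := (hHm.comp measurable_snd).indicator hSm
  have h1 : ∀ s ∈ Ioc τ (2 * τ), ENNReal.ofReal (r ^ 2) * ENNReal.ofReal (‖deriv F (ws s)‖ ^ 2) ≤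
      ∫⁻ ζ, K (s, ζ) := by
    intro s hs
    have hs' : τ ≤ s := hs.1.le
    have hG : DifferentiableOn ℂ (fun ζ => deriv F ζ ^ 2) (ball (ws s) r) := by
      refine (hdF.pow 2).mono ?_
      intro ζ hζ
      exact (hball s hs' hζ).2
    have h2 := Crit.NS.disc hr0 hG
    simp only [norm_pow] at h2
    rw [ENNReal.ofReal_mul (by positivity)] at h2
    refine h2.trans (le_of_eq ?_)
    rw [← lintegral_indicator measurableSet_ball]
    refine lintegral_congr fun ζ => ?_
    by_cases hζ : ζ ∈ ball (ws s) r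
    · have hζ' : (s, ζ) ∈ S := hζ
      rw [Set.indicator_of_mem hζ, hK, Set.indicator_of_mem hζ']
      show _ = H ζ
      rw [hH, Set.indicator_of_mem (hball s hs' hζ)]
    · have hζ' : (s, ζ) ∉ S := hζ
      rw [Set.indicator_of_notMem hζ, hK, Set.indicator_of_notMem hζ']
  have h3 : ENNReal.ofReal (r ^ 2) *
      ∫⁻ s in Ioc τ (2 * τ), ENNReal.ofReal (‖deriv F (ws s)‖ ^ 2) ≤
      ENNReal.ofReal (2 * r) * T := by
    calc ENNReal.ofReal (r ^ 2) * ∫⁻ s in Ioc τ (2 * τ), ENNReal.ofReal (‖deriv F (ws s)‖ ^ 2)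
        = ∫⁻ s in Ioc τ (2 * τ), ENNReal.ofReal (r ^ 2) *
            ENNReal.ofReal (‖deriv F (ws s)‖ ^ 2) :=
          (lintegral_const_mul' _ _ ENNReal.ofReal_ne_top).symm
      _ ≤ ∫⁻ s in Ioc τ (2 * τ), ∫⁻ ζ, K (s, ζ) := setLIntegral_mono' measurableSet_Ioc h1
      _ = ∫⁻ ζ, ∫⁻ s in Ioc τ (2 * τ), K (s, ζ) :=
          lintegral_lintegral_swap hKm.aemeasurable
      _ ≤ ∫⁻ ζ, ENNReal.ofReal (2 * r) * H ζ := by
          refine lintegral_mono fun ζ => ?_
          calc ∫⁻ s in Ioc τ (2 * τ), K (s, ζ)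
              ≤ ∫⁻ s, K (s, ζ) := setLIntegral_le_lintegral _ _
            _ ≤ ∫⁻ s, (Ioo (ζ.im - r) (ζ.im + r)).indicator (fun _ => H ζ) s := by
                refine lintegral_mono fun s => ?_
                by_cases hs : (s, ζ) ∈ S
                · have h4 : |ζ.im - s| < r := by
                    have h5 : ‖ζ - ws s‖ < r := by
                      rw [← dist_eq_norm]; exact hs
                    have := (Complex.abs_im_le_norm (ζ - ws s)).trans_lt h5
                    rwa [Complex.sub_im, him] at this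
                  rw [abs_lt] at h4
                  have h6 : s ∈ Ioo (ζ.im - r) (ζ.im + r) := ⟨by linarith, by linarith⟩
                  rw [Set.indicator_of_mem h6, hK, Set.indicator_of_mem hs]
                · rw [hK, Set.indicator_of_notMem hs]
                  exact bot_le
            _ = ENNReal.ofReal (2 * r) * H ζ := by
                rw [lintegral_indicator measurableSet_Ioo, setLIntegral_const, Real.volume_Ioo,
                  mul_comm]
                congr 2
                ring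
      _ = ENNReal.ofReal (2 * r) * T := by
          rw [lintegral_const_mul' _ _ ENNReal.ofReal_ne_top, hT]
  -- Cauchy-Schwarz
  have hcont : ContinuousOn (fun s : ℝ => ‖deriv F (ws s)‖) (Icc τ (2 * τ)) := by
    refine (hdF.continuousOn.comp hwc.continuousOn ?_).norm
    intro s hs
    show 0 < (ws s).im
    rw [him]
    linarith [hs.1]
  have h7 := cs hτ hcont hW0 hW
  have h8 : ENNReal.ofReal (∫ s in τ..(2 * τ), ‖deriv F (ws s)‖ ^ 2) =
      ∫⁻ s in Ioc τ (2 * τ), ENNReal.ofReal (‖deriv F (ws s)‖ ^ 2) := by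
    rw [intervalIntegral.integral_of_le (by linarith)]
    refine ofReal_integral_eq_lintegral_ofReal ?_ (Eventually.of_forall fun s => by positivity)
    exact ((hcont.pow 2).integrableOn_Icc).mono_set Ioc_subset_Icc_self
  have h9 : ENNReal.ofReal (r ^ 2) * ENNReal.ofReal (W ^ 2 / τ) ≤ ENNReal.ofReal (2 * r) * T := by
    refine le_trans ?_ h3
    rw [← h8]
    gcongr
  have h10 : ENNReal.ofReal (2 * r) ≠ 0 := by
    rw [Ne, ENNReal.ofReal_eq_zero]
    push Not
    positivity
  have h11 : ENNReal.ofReal (2 * r) *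
      ENNReal.ofReal (1 / (4 * (1 + lam)) * (lam - lam') * W ^ 2) ≤ ENNReal.ofReal (2 * r) * T := by
    refine le_trans (le_of_eq ?_) h9
    rw [← ENNReal.ofReal_mul (by positivity), ← ENNReal.ofReal_mul (by positivity)]
    congr 1
    have h12 : r / τ = (lam - lam') / (2 * (1 + lam)) := by
      rw [hr]; field_simp
    calc 2 * r * (1 / (4 * (1 + lam)) * (lam - lam') * W ^ 2)
        = r * W ^ 2 * ((lam - lam') / (2 * (1 + lam))) := by field_simp; ring
      _ = r * W ^ 2 * (r / τ) := by rw [h12]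
      _ = r ^ 2 * (W ^ 2 / τ) := by ring
  exact (ENNReal.mul_le_mul_iff_right h10 ENNReal.ofReal_ne_top).1 h11

end Pool.Agent.Work.MP_055a27_an.Op
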