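import Pool.Agent.Work.MP_055a27_an.Op.Stmts
import Pool.Agent.Work.MP_055a27_an.Bd.B04

/-!
# The Carleson condition with a logarithmic power
-/

set_option autoImplicit false

open MeasureTheory Set Filter Topology Complex Metric
open scoped ENNReal NNReal

namespace Pool.Agent.Work.MP_055a27_an.Op

open Crit (lg cc CC NTc Nice NI tF2 lgT)
open Cr3 (Wt Sh)

namespace CCq

lemma core (hTF : Crit.StTF) {U : ℝ → ℝ} (hU : IsWeight U) (hA : Admissible (lg U))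
    {lam μ b p L : ℝ} {C1 C2 C3 : ℝ≥0} {k : ℕ} (hp : 0 < p) (hμ : 0 < μ)
    (hL : L = 3 / 2 + 1 / (2 * μ))
    (hUp : ∀ M ε x0 β : ℝ, 0 < ε → ε ≤ β →
      ∫⁻ x, (ntMax b (fun t : ℝ => (tF2 U M p ε x0 β k t).re) x) ^ p * ENNReal.ofReal (U x) ≤
        C1 * ENNReal.ofReal β ∧
      ∫⁻ x, (ntMax b (fun t : ℝ => (tF2 U M p ε x0 β k t).im) x) ^ p * ENNReal.ofReal (U x) ≤
        C1 * ENNReal.ofReal β)
    (hN : ∀ f : ℝ → ℝ, Admissible f → ∀ x : ℝ, ntMax μ f x ≤ ntMax b f x + C2 * areaFn lam f x)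
    (hS : ∀ f : ℝ → ℝ, Admissible f →
      ∫⁻ x : ℝ, (areaFn lam f x) ^ p * ENNReal.ofReal (U x)
        ≤ (C3 : ℝ≥0∞) * ∫⁻ x : ℝ, (ntMax b f x) ^ p * ENNReal.ofReal (U x))
    {a c : ℝ} (hac : a < c) :
    ∫⁻ x in Icc a c, cc μ a c U x * ENNReal.ofReal (U x) ≤
      (ENNReal.ofReal (L ^ k)) ^ p * 2 ^ p *
        (2 ^ p * (1 + (C2 : ℝ≥0∞) ^ p * C3) * (C1 + C1)) * ENNReal.ofReal (c - a) := by
  set K : ℝ≥0∞ := (ENNReal.ofReal (L ^ k)) ^ p * 2 ^ p with hK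
  set C4 : ℝ≥0∞ := 2 ^ p * (1 + (C2 : ℝ≥0∞) ^ p * C3) with hC4
  have h2 : (2 : ℝ≥0∞) ^ p ≠ ⊤ := ENNReal.rpow_ne_top_of_nonneg hp.le (by simp)
  have hKt : K ≠ ⊤ := ENNReal.mul_ne_top (ENNReal.rpow_ne_top_of_nonneg hp.le ENNReal.ofReal_ne_top) h2
  obtain ⟨x0, hx0⟩ : ∃ x0 : ℝ, x0 = (a + c) / 2 := ⟨_, rfl⟩
  obtain ⟨β, hβ⟩ : ∃ β : ℝ, β = c - a := ⟨_, rfl⟩
  have hβ0 : 0 < β := by rw [hβ]; linarith
  have ha : a = x0 - β / 2 := by rw [hx0, hβ]; ring
  have hc : c = x0 + β / 2 := by rw [hx0, hβ]; ring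
  rw [← hβ]
  have hdn : ∀ n : ℕ, 0 < β / ((n : ℝ) + 1) := fun n => by positivity
  have hdn1 : ∀ n : ℕ, β / ((n : ℝ) + 1) ≤ β := fun n => by
    rw [div_le_iff₀ (by positivity)]
    nlinarith [hβ0, (Nat.cast_nonneg n : (0 : ℝ) ≤ n)]
  obtain ⟨G, hG⟩ : ∃ G : ℕ → ℝ → ℝ≥0∞, ∀ n x, G n x = K *
      ((ntMax μ (fun t : ℝ => (tF2 U n p (β / ((n : ℝ) + 1)) x0 β k t).re) x) ^ p +
       (ntMax μ (fun t : ℝ => (tF2 U n p (β / ((n : ℝ) + 1)) x0 β k t).im) x) ^ p) :=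
    ⟨fun n x => _, fun _ _ => rfl⟩
  have hGm : ∀ n, Measurable (G n) := by
    intro n
    obtain ⟨a1, a2, _⟩ := hTF U n p (β / ((n : ℝ) + 1)) x0 β k hA hp (hdn n) hβ0
    have : G n = fun x => K *
      ((ntMax μ (fun t : ℝ => (tF2 U n p (β / ((n : ℝ) + 1)) x0 β k t).re) x) ^ p +
       (ntMax μ (fun t : ℝ => (tF2 U n p (β / ((n : ℝ) + 1)) x0 β k t).im) x) ^ p) :=
      funext fun x => hG n x
    rw [this]
    exact (((Crit.Nec.meas_ntMax a1 μ).pow_const p).add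
      ((Crit.Nec.meas_ntMax a2 μ).pow_const p)).const_mul K
  have hum := weight_ofReal_aemeas hU
  -- the integral of the majorants
  have hGi : ∀ n, ∫⁻ x in Icc a c, G n x * ENNReal.ofReal (U x) ≤
      K * (C4 * (C1 + C1)) * ENNReal.ofReal β := by
    intro n
    obtain ⟨a1, a2, _⟩ := hTF U n p (β / ((n : ℝ) + 1)) x0 β k hA hp (hdn n) hβ0
    obtain ⟨u1, u2⟩ := hUp n (β / ((n : ℝ) + 1)) x0 β (hdn n) (hdn1 n)
    have v1 := Crit.Nec.aper hU hp hN hS a1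
    have v2 := Crit.Nec.aper hU hp hN hS a2
    calc ∫⁻ x in Icc a c, G n x * ENNReal.ofReal (U x)
        ≤ ∫⁻ x, G n x * ENNReal.ofReal (U x) := setLIntegral_le_lintegral _ _
      _ = ∫⁻ x, K *
          ((ntMax μ (fun t : ℝ => (tF2 U n p (β / ((n : ℝ) + 1)) x0 β k t).re) x) ^ p *
              ENNReal.ofReal (U x) +
            (ntMax μ (fun t : ℝ => (tF2 U n p (β / ((n : ℝ) + 1)) x0 β k t).im) x) ^ p *
              ENNReal.ofReal (U x)) := by
          refine lintegral_congr fun x => ?_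
          rw [hG]; ring
      _ = K * ((∫⁻ x,
          (ntMax μ (fun t : ℝ => (tF2 U n p (β / ((n : ℝ) + 1)) x0 β k t).re) x) ^ p *
              ENNReal.ofReal (U x)) +
            ∫⁻ x, (ntMax μ (fun t : ℝ => (tF2 U n p (β / ((n : ℝ) + 1)) x0 β k t).im) x) ^ p *
              ENNReal.ofReal (U x)) := by
          rw [lintegral_const_mul' _ _ hKt, lintegral_add_left']
          exact ((Crit.Nec.meas_ntMax a1 μ).pow_const p).aemeasurable.mul hum
      _ ≤ K * (C4 * (C1 * ENNReal.ofReal β) + C4 * (C1 * ENNReal.ofReal β)) := by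
          gcongr
          · exact v1.trans (by gcongr)
          · exact v2.trans (by gcongr)
      _ = _ := by ring
  -- the pointwise bound in the limit
  have hpt : ∀ x, cc μ a c U x * ENNReal.ofReal (U x) ≤
      liminf (fun n => G n x * ENNReal.ofReal (U x)) atTop := by
    intro x
    unfold cc
    rw [ENNReal.iSup_mul]
    refine iSup_le fun z => ?_
    rw [ENNReal.iSup_mul]
    refine iSup_le fun y => ?_
    rw [ENNReal.iSup_mul]
    refine iSup_le fun hzy => ?_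
    obtain ⟨hy, hxz, h1, h2'⟩ := hzy
    have ht : Tendsto (fun n : ℕ => ENNReal.ofReal (Real.exp (-poisson (lgT U n) z
        (y + β / ((n : ℝ) + 1)))) * ENNReal.ofReal (U x)) atTop
        (𝓝 (ENNReal.ofReal (Real.exp (-poisson (lg U) z y)) * ENNReal.ofReal (U x))) := by
      apply ENNReal.Tendsto.mul_const
      · apply ENNReal.tendsto_ofReal
        exact (Real.continuous_exp.tendsto _).comp (Crit.Nec.pois_tend hA hy hβ0).neg
      · exact Or.inr ENNReal.ofReal_ne_top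
    rw [← ht.liminf_eq]
    refine liminf_le_liminf (Eventually.of_forall fun n => ?_)
    have h3 := Crit.Nec.point hTF hA (M := n) (k := k) hμ hp (hdn n) hβ0 hy hL (ha ▸ h1)
      (hc ▸ h2') hxz
    show _ ≤ G n x * ENNReal.ofReal (U x)
    rw [hG]
    gcongr
  calc ∫⁻ x in Icc a c, cc μ a c U x * ENNReal.ofReal (U x)
      ≤ ∫⁻ x in Icc a c, liminf (fun n => G n x * ENNReal.ofReal (U x)) atTop :=
        lintegral_mono hpt
    _ ≤ liminf (fun n => ∫⁻ x in Icc a c, G n x * ENNReal.ofReal (U x)) atTop := by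
        apply lintegral_liminf_le'
        intro n
        exact (hGm n).aemeasurable.mul hum.restrict
    _ ≤ liminf (fun _ : ℕ => K * (C4 * (C1 + C1)) * ENNReal.ofReal β) atTop :=
        liminf_le_liminf (Eventually.of_forall hGi)
    _ = _ := by simp

end CCq

theorem stCCq (hNSq : StNSq) (hTF : Crit.StTF) (hTFUp : Crit.StTFUp) : StCCq := by
  intro lam b p U hb hbl hp hW hCC hStar
  have hU : IsWeight U := hW.1
  have hA : Admissible (lg U) := hW.2.2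
  obtain ⟨C1, k, hUp⟩ := hTFUp b p U hb hp hU hA hCC
  obtain ⟨C2, hC20, hN⟩ := hNSq lam b hb hbl
  obtain ⟨C3, hS⟩ := hStar
  set Lb : ℝ := 3 / 2 + 1 / (2 * b) with hLb
  set D : ℝ≥0∞ := (ENNReal.ofReal (Lb ^ k)) ^ p * 2 ^ p *
    (2 ^ p * (1 + (ENNReal.ofReal C2) ^ p * C3) * (C1 + C1)) with hD
  have h2 : (2 : ℝ≥0∞) ^ p ≠ ⊤ := ENNReal.rpow_ne_top_of_nonneg hp.le (by simp)
  have hDt : D ≠ ⊤ := by
    refine ENNReal.mul_ne_top (ENNReal.mul_ne_top
      (ENNReal.rpow_ne_top_of_nonneg hp.le ENNReal.ofReal_ne_top) h2) ?_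
    refine ENNReal.mul_ne_top (ENNReal.mul_ne_top h2 ?_) (by simp)
    exact ENNReal.add_ne_top.2 ⟨by simp, ENNReal.mul_ne_top
      (ENNReal.rpow_ne_top_of_nonneg hp.le ENNReal.ofReal_ne_top) (by simp)⟩
  refine ⟨max 1 D.toReal, le_max_left _ _, fun μ hbμ hμl a c hac => ?_⟩
  have hμ : 0 < μ := hb.trans_le hbμ
  set ell : ℝ := 1 + Real.log ((lam - b) / (lam - μ)) with hell
  have hell1 : 1 ≤ ell := by
    have h3 : 1 ≤ (lam - b) / (lam - μ) := by
      rw [le_div_iff₀ (by linarith)]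
      linarith
    have := Real.log_nonneg h3
    linarith
  have hell0 : 0 < ell := by linarith
  have hN' : ∀ f : ℝ → ℝ, Admissible f → ∀ x : ℝ, ntMax μ f x ≤ ntMax b f x +
      ((C2 * ell).toNNReal : ℝ≥0∞) * areaFn lam f x := by
    intro f hf x
    rcases hbμ.eq_or_lt with h | h
    · rw [← h]
      exact le_self_add
    · exact hN μ h hμl f hf x
  have hcore := CCq.core hTF hU hA (L := 3 / 2 + 1 / (2 * μ)) hp hμ rfl hUp hN' hS hac
  refine hcore.trans ?_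
  have hLle : 3 / 2 + 1 / (2 * μ) ≤ Lb := by
    rw [hLb]
    gcongr
  have e1 : ((C2 * ell).toNNReal : ℝ≥0∞) ^ p = ENNReal.ofReal C2 ^ p * ENNReal.ofReal ell ^ p := by
    change ENNReal.ofReal (C2 * ell) ^ p = _
    rw [ENNReal.ofReal_mul hC20, ENNReal.mul_rpow_of_nonneg _ _ hp.le]
  have e2 : (1 : ℝ≥0∞) ≤ ENNReal.ofReal ell ^ p := by
    apply ENNReal.one_le_rpow _ hp
    rw [← ENNReal.ofReal_one]
    exact ENNReal.ofReal_le_ofReal hell1
  have h4 : (ENNReal.ofReal ((3 / 2 + 1 / (2 * μ)) ^ k)) ^ p * 2 ^ p *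
        (2 ^ p * (1 + ((C2 * ell).toNNReal : ℝ≥0∞) ^ p * C3) * (C1 + C1)) ≤
      D * ENNReal.ofReal ell ^ p := by
    rw [e1]
    have h5 : 1 + ENNReal.ofReal C2 ^ p * ENNReal.ofReal ell ^ p * C3 ≤
        (1 + ENNReal.ofReal C2 ^ p * C3) * ENNReal.ofReal ell ^ p := by
      rw [add_mul, one_mul]
      refine add_le_add e2 (le_of_eq ?_)
      ring
    calc (ENNReal.ofReal ((3 / 2 + 1 / (2 * μ)) ^ k)) ^ p * 2 ^ p *
        (2 ^ p * (1 + ENNReal.ofReal C2 ^ p * ENNReal.ofReal ell ^ p * C3) * (C1 + C1))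
        ≤ (ENNReal.ofReal (Lb ^ k)) ^ p * 2 ^ p *
        (2 ^ p * ((1 + ENNReal.ofReal C2 ^ p * C3) * ENNReal.ofReal ell ^ p) * (C1 + C1)) := by
          gcongr
      _ = D * ENNReal.ofReal ell ^ p := by rw [hD]; ring
  calc _ ≤ D * ENNReal.ofReal ell ^ p * ENNReal.ofReal (c - a) := by gcongr
    _ ≤ ENNReal.ofReal (max 1 D.toReal) * ENNReal.ofReal ell ^ p * ENNReal.ofReal (c - a) := by
        gcongr
        rw [← ENNReal.ofReal_toReal hDt]
        exact ENNReal.ofReal_le_ofReal (by rw [ENNReal.toReal_ofReal ENNReal.toReal_nonneg]; exact le_max_right _ _)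
    _ = _ := by
        rw [ENNReal.ofReal_rpow_of_pos hell0, ← ENNReal.ofReal_mul (by positivity),
          ← ENNReal.ofReal_mul (by positivity)]

end Pool.Agent.Work.MP_055a27_an.Op
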