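import Pool.Agent.Work.MP_055a27_an.Op.Stmts
import Pool.Agent.Work.MP_055a27_an.Bd.B05
import Pool.Agent.Work.MP_055a27_an.Thr.Vert

/-!
# Item Down: from the gain to the Carleson condition with larger aperture
-/

set_option autoImplicit false

open MeasureTheory Set Filter Topology Complex Metric
open scoped ENNReal NNReal

namespace Pool.Agent.Work.MP_055a27_an.Op

open Crit (lg cc CC NTc Nice NI)
open Cr3 (Wt Sh)

namespace Down

open Nv (pk mx I_Pk)
open Nv.Bd (pk_nonneg int_pk int_pk_mul integral_pk pois)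

/-! ### Non-tangential limits -/

/-- the Poisson mean of the oscillation is small at almost every point -/
lemma osc {f : ℝ → ℝ} (hf : Admissible f) : ∀ᵐ x, ∀ ε : ℝ, 0 < ε → ∃ y0 : ℝ, 0 < y0 ∧
    ∀ y, 0 < y → y < y0 →
      ∫⁻ t, ENNReal.ofReal (pk x y t) * ENNReal.ofReal |f t - f x| ≤ ENNReal.ofReal ε := by
  obtain ⟨C, hC⟩ := I_Pk 1 one_pos
  filter_upwards [IsUnifLocDoublingMeasure.ae_tendsto_average_norm_sub volume (Nv.Bd.loc hf) 1]
    with x hx
  have h1 : Tendsto (fun r : ℝ => ⨍ t in closedBall x r, ‖f t - f x‖) (𝓝[>] 0) (𝓝 0) := by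
    refine hx (fun _ => x) id tendsto_id ?_
    filter_upwards [self_mem_nhdsWithin] with r hr
    exact mem_closedBall_self (by simpa using (le_of_lt hr))
  intro ε hε'
  set ε' : ℝ := ε / (2 * (C + 1)) with hε'd
  have hε'0 : 0 < ε' := by positivity
  obtain ⟨δ, hδ0, hδ⟩ : ∃ δ : ℝ, 0 < δ ∧ ∀ r : ℝ, 0 < r → r < δ →
      ⨍ t in closedBall x r, ‖f t - f x‖ < ε' := by
    have h2 := h1.eventually (gt_mem_nhds hε'0)
    rw [eventually_nhdsWithin_iff, Metric.eventually_nhds_iff] at h2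
    obtain ⟨δ, hδ0, hδ⟩ := h2
    refine ⟨δ, hδ0, fun r hr hrδ => hδ ?_ hr⟩
    rw [Real.dist_eq, sub_zero, abs_of_pos hr]
    exact hrδ
  have hδ2 : 0 < δ / 2 := by positivity
  obtain ⟨K, hK⟩ := Nv.Bd.far hf x hδ2
  have hmeas : AEMeasurable (fun t => ENNReal.ofReal |f t - f x|) volume := by
    have := (adm_measurable hf).aemeasurable
    exact ((this.sub_const (f x)).abs).ennreal_ofReal
  set h : ℝ → ℝ≥0∞ := (Ioo (x - δ / 2) (x + δ / 2)).indicator
    (fun t => ENNReal.ofReal |f t - f x|) with hh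
  have hhm : AEMeasurable h volume := hmeas.indicator measurableSet_Ioo
  have hmx : mx h x ≤ ENNReal.ofReal ε' := by
    unfold mx
    refine iSup₂_le fun r hr => ?_
    have hr2 : ENNReal.ofReal (2 * r) ≠ 0 := by
      rw [Ne, ENNReal.ofReal_eq_zero, not_le]; positivity
    rw [ENNReal.div_le_iff hr2 ENNReal.ofReal_ne_top]
    set ρ := min r (δ / 2) with hρ
    have hρ0 : 0 < ρ := lt_min hr hδ2
    have hρδ : ρ < δ := lt_of_le_of_lt (min_le_right _ _) (by linarith)
    have h3 := hδ ρ hρ0 hρδ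
    have hint : IntegrableOn (fun t => ‖f t - f x‖) (closedBall x ρ) volume := by
      have h4 := (locallyIntegrable_iff.1 (Nv.Bd.loc hf)) _ (isCompact_closedBall x ρ)
      exact (h4.sub (integrableOn_const (by
        rw [Real.volume_closedBall]; exact ENNReal.ofReal_ne_top))).norm
    have h5 : ∫ t in closedBall x ρ, ‖f t - f x‖ ≤ 2 * ρ * ε' := by
      rw [setAverage_eq, smul_eq_mul] at h3
      have h6 : volume.real (closedBall x ρ) = 2 * ρ := by
        rw [Measure.real, Real.volume_closedBall, ENNReal.toReal_ofReal (by positivity)]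
      rw [h6, inv_mul_lt_iff₀ (by positivity)] at h3
      exact h3.le
    calc ∫⁻ t in Ioo (x - r) (x + r), h t
        = ∫⁻ t in Ioo (x - r) (x + r) ∩ Ioo (x - δ / 2) (x + δ / 2),
            ENNReal.ofReal |f t - f x| := by
          rw [hh, setLIntegral_indicator measurableSet_Ioo, inter_comm]
      _ ≤ ∫⁻ t in closedBall x ρ, ENNReal.ofReal |f t - f x| := by
          apply lintegral_mono_set
          rintro t ⟨h7, h8⟩
          rw [Real.closedBall_eq_Icc, hρ]
          constructor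
          · rcases le_total r (δ / 2) with h9 | h9
            · rw [min_eq_left h9]; exact h7.1.le
            · rw [min_eq_right h9]; exact h8.1.le
          · rcases le_total r (δ / 2) with h9 | h9
            · rw [min_eq_left h9]; exact h7.2.le
            · rw [min_eq_right h9]; exact h8.2.le
      _ = ENNReal.ofReal (∫ t in closedBall x ρ, ‖f t - f x‖) := by
          rw [ofReal_integral_eq_lintegral_ofReal hint
            (Eventually.of_forall fun t => norm_nonneg _)]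
          rfl
      _ ≤ ENNReal.ofReal (2 * ρ * ε') := ENNReal.ofReal_le_ofReal h5
      _ ≤ ENNReal.ofReal (ε' * (2 * r)) := by
          apply ENNReal.ofReal_le_ofReal
          have h6 : ρ ≤ r := min_le_left _ _
          have h7 := mul_le_mul_of_nonneg_left h6 hε'0.le
          linarith
      _ = ENNReal.ofReal ε' * ENNReal.ofReal (2 * r) := ENNReal.ofReal_mul hε'0.le
  refine ⟨ε / (2 * (K + 1)), by positivity, fun y hy hyy => ?_⟩
  have hnear : ∫⁻ t in Ioo (x - δ / 2) (x + δ / 2),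
      ENNReal.ofReal (pk x y t) * ENNReal.ofReal |f t - f x| ≤ ENNReal.ofReal (ε / 2) := by
    calc ∫⁻ t in Ioo (x - δ / 2) (x + δ / 2),
        ENNReal.ofReal (pk x y t) * ENNReal.ofReal |f t - f x|
        = ∫⁻ t, ENNReal.ofReal (pk x y t) * h t := by
          rw [← lintegral_indicator measurableSet_Ioo]
          refine lintegral_congr fun t => ?_
          rw [hh]
          by_cases ht : t ∈ Ioo (x - δ / 2) (x + δ / 2)
          · rw [indicator_of_mem ht, indicator_of_mem ht]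
          · rw [indicator_of_notMem ht, indicator_of_notMem ht, mul_zero]
      _ ≤ C * mx h x := hC h hhm x x y hy (by rw [sub_self, abs_zero]; positivity)
      _ ≤ C * ENNReal.ofReal ε' := by gcongr
      _ = ENNReal.ofReal (C * ε') := by
          rw [ENNReal.ofReal_mul (by positivity), ENNReal.ofReal_coe_nnreal]
      _ ≤ ENNReal.ofReal (ε / 2) := by
          apply ENNReal.ofReal_le_ofReal
          rw [hε'd, mul_div_assoc', div_le_div_iff₀ (by positivity) (by positivity)]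
          have : (0 : ℝ) ≤ C := C.2
          nlinarith
  have hfar : ∫⁻ t in (Ioo (x - δ / 2) (x + δ / 2))ᶜ,
      ENNReal.ofReal (pk x y t) * ENNReal.ofReal |f t - f x| ≤ ENNReal.ofReal (ε / 2) := by
    refine (hK y hy).trans ?_
    rw [← ENNReal.ofReal_coe_nnreal, ← ENNReal.ofReal_mul hy.le]
    apply ENNReal.ofReal_le_ofReal
    have hK0 : (0 : ℝ) ≤ K := K.2
    have h1 : y * K ≤ ε / (2 * (K + 1)) * K := mul_le_mul_of_nonneg_right hyy.le hK0
    refine h1.trans ?_
    rw [div_mul_eq_mul_div, div_le_div_iff₀ (by positivity) (by positivity)]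
    nlinarith
  rw [← lintegral_add_compl _ (measurableSet_Ioo (a := x - δ / 2) (b := x + δ / 2))]
  refine (add_le_add hnear hfar).trans ?_
  rw [← ENNReal.ofReal_add (by positivity) (by positivity), add_halves]

lemma diff_le' {f : ℝ → ℝ} (hf : Admissible f) (c : ℝ) {x y : ℝ} (hy : 0 < y) :
    ENNReal.ofReal |poisson f x y - c| ≤
      ∫⁻ t, ENNReal.ofReal (pk x y t) * ENNReal.ofReal |f t - c| := by
  have h1 : poisson f x y - c = ∫ t, pk x y t * (f t - c) := by
    simp_rw [mul_sub]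
    rw [integral_sub (int_pk_mul hf hy) ((int_pk hy).mul_const _), integral_mul_const,
      integral_pk hy, one_mul, pois]
  rw [h1, ← Real.enorm_eq_ofReal_abs]
  refine (enorm_integral_le_lintegral_enorm _).trans (lintegral_mono fun t => ?_)
  rw [Real.enorm_eq_ofReal_abs, abs_mul, abs_of_nonneg (pk_nonneg hy),
    ENNReal.ofReal_mul (pk_nonneg hy)]

lemma pk_le (x a t : ℝ) {y : ℝ} (hy : 0 < y) :
    pk (x + a * y) y t ≤ (2 * a ^ 2 + 2) * pk x y t := by
  unfold pk
  have hpi := Real.pi_pos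
  rw [mul_div_assoc', div_le_div_iff₀ (by positivity) (by positivity)]
  have h1 : (x - t) ^ 2 + y ^ 2 ≤ (2 * a ^ 2 + 2) * ((x + a * y - t) ^ 2 + y ^ 2) := by
    nlinarith [sq_nonneg (x + a * y - t - a * y), sq_nonneg (x + a * y - t + a * y),
      mul_nonneg (sq_nonneg a) (sq_nonneg (x + a * y - t))]
  have h2 := mul_le_mul_of_nonneg_left h1 (by positivity : 0 ≤ y * Real.pi)
  linarith

/-- lower bound at boundary points along rays -/
lemma nt {f : ℝ → ℝ} (hf : Admissible f) : ∀ᵐ x, ∀ a ε : ℝ, 0 < ε → ∃ y0 : ℝ, 0 < y0 ∧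
    ∀ y, 0 < y → y < y0 → |poisson f (x + a * y) y - f x| ≤ ε := by
  filter_upwards [osc hf] with x hx
  intro a ε hε
  have hA : 0 < 2 * a ^ 2 + 2 := by positivity
  obtain ⟨y0, hy0, h⟩ := hx (ε / (2 * a ^ 2 + 2)) (by positivity)
  refine ⟨y0, hy0, fun y hy hyy => ?_⟩
  have h1 : ENNReal.ofReal |poisson f (x + a * y) y - f x| ≤ ENNReal.ofReal ε := by
    refine (diff_le' hf (f x) hy).trans ?_
    calc ∫⁻ t, ENNReal.ofReal (pk (x + a * y) y t) * ENNReal.ofReal |f t - f x|
        ≤ ∫⁻ t, ENNReal.ofReal (2 * a ^ 2 + 2) *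
            (ENNReal.ofReal (pk x y t) * ENNReal.ofReal |f t - f x|) := by
          refine lintegral_mono fun t => ?_
          rw [← mul_assoc, ← ENNReal.ofReal_mul hA.le]
          exact mul_le_mul_left (ENNReal.ofReal_le_ofReal (pk_le x a t hy)) _
      _ = ENNReal.ofReal (2 * a ^ 2 + 2) *
            ∫⁻ t, ENNReal.ofReal (pk x y t) * ENNReal.ofReal |f t - f x| :=
          lintegral_const_mul' _ _ ENNReal.ofReal_ne_top
      _ ≤ ENNReal.ofReal (2 * a ^ 2 + 2) * ENNReal.ofReal (ε / (2 * a ^ 2 + 2)) := by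
          gcongr
          exact h y hy hyy
      _ = ENNReal.ofReal ε := by
          rw [← ENNReal.ofReal_mul hA.le]
          congr 1
          field_simp
  exact (ENNReal.ofReal_le_ofReal_iff hε.le).1 h1

/-! ### Rays -/

/-- the point of the ray -/
noncomputable def ray (x a s : ℝ) : ℂ := ((x + a * s : ℝ) : ℂ) + (s : ℂ) * I

lemma ray_im (x a s : ℝ) : (ray x a s).im = s := by simp [ray]

lemma hasDerivAt_ray (x a s : ℝ) : HasDerivAt (ray x a) ((a : ℂ) + I) s := by
  have h2 : HasDerivAt (fun s : ℝ => x + a * s) a s := by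
    simpa using ((hasDerivAt_id s).const_mul a).const_add x
  have h3 := h2.ofReal_comp
  have h4 : HasDerivAt (fun s : ℝ => (s : ℂ) * I) I s := by
    simpa using (hasDerivAt_id s).ofReal_comp.mul_const I
  exact h3.add h4

lemma hasDerivAt_pois {v : ℝ → ℝ} (hv : Admissible v) (x a : ℝ) {s : ℝ} (hs : 0 < s) :
    HasDerivAt (fun s : ℝ => poisson v (x + a * s) s)
      (a * (dschw v (ray x a s)).re - (dschw v (ray x a s)).im) s := by
  have h0 : 0 < (ray x a s).im := by rw [ray_im]; exact hs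
  have h1 : HasDerivAt (schw v) (dschw v (ray x a s)) (ray x a s) := hasDerivAt_schw hv h0
  have h2 := HasDerivAt.comp (h₂ := schw v) (h := ray x a) s h1 (hasDerivAt_ray x a s)
  have h3 := (Complex.reCLM.hasFDerivAt (x := (schw v ∘ ray x a) s)).comp_hasDerivAt s h2
  have h4 : Complex.reCLM (dschw v (ray x a s) * ((a : ℂ) + I)) =
      a * (dschw v (ray x a s)).re - (dschw v (ray x a s)).im := by
    rw [Complex.reCLM_apply, Complex.mul_re]
    simp
    ring
  rw [h4] at h3
  refine h3.congr_of_eventuallyEq ?_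
  filter_upwards [eventually_gt_nhds hs] with t ht
  simp only [Function.comp_apply, Complex.reCLM_apply]
  exact poisson_eq_re hv ht

/-- the gain: the Poisson integral increases along the ray as long as the gradient is large -/
lemma mono_ray {v : ℝ → ℝ} (hv : Admissible v) {S0 L a x s1 s2 : ℝ} (ha : |a| ≤ L) (h1 : 0 < s1)
    (h12 : s1 ≤ s2)
    (hg : ∀ z y : ℝ, 0 < y → S0 ≤ y * ‖dschw v (z + y * I)‖ →
      L * |(dschw v (z + y * I)).re| ≤ -(dschw v (z + y * I)).im)
    (hS : ∀ s ∈ Ioo s1 s2, S0 ≤ s * ‖dschw v (ray x a s)‖) :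
    poisson v (x + a * s1) s1 ≤ poisson v (x + a * s2) s2 := by
  have hm : MonotoneOn (fun s : ℝ => poisson v (x + a * s) s) (Icc s1 s2) := by
    refine monotoneOn_of_deriv_nonneg (convex_Icc s1 s2) ?_ ?_ ?_
    · intro s hs
      exact (hasDerivAt_pois hv x a (h1.trans_le hs.1)).continuousAt.continuousWithinAt
    · intro s hs
      rw [interior_Icc] at hs
      exact (hasDerivAt_pois hv x a (h1.trans hs.1)).differentiableAt.differentiableWithinAt
    · intro s hs
      rw [interior_Icc] at hs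
      rw [(hasDerivAt_pois hv x a (h1.trans hs.1)).deriv]
      have h2 := hg (x + a * s) s (h1.trans hs.1) (hS s hs)
      have h3 : L * |(dschw v (ray x a s)).re| ≤ -(dschw v (ray x a s)).im := h2
      have h4 : |a| * |(dschw v (ray x a s)).re| ≤ L * |(dschw v (ray x a s)).re| :=
        mul_le_mul_of_nonneg_right ha (abs_nonneg _)
      have h5 := neg_abs_le (a * (dschw v (ray x a s)).re)
      rw [abs_mul] at h5
      linarith
  exact hm (left_mem_Icc.2 h12) (right_mem_Icc.2 h12) h12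

/-- the last point where the gradient is small -/
lemma last {g : ℝ → ℝ} (hg : ContinuousOn g (Ioi 0)) {y S0 : ℝ} :
    (∀ s ∈ Ioc 0 y, S0 < g s) ∨
      ∃ s0 ∈ Ioc 0 y, g s0 ≤ S0 ∧ ∀ s ∈ Ioc s0 y, S0 < g s := by
  by_cases h : ∀ s ∈ Ioc 0 y, S0 < g s
  · exact Or.inl h
  · right
    push Not at h
    obtain ⟨s1, hs1, hg1⟩ := h
    have hc : IsCompact (Icc s1 y ∩ g ⁻¹' Iic S0) := by
      refine isCompact_Icc.of_isClosed_subset ?_ inter_subset_left
      exact ContinuousOn.preimage_isClosed_of_isClosed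
        (hg.mono fun s hs => lt_of_lt_of_le hs1.1 hs.1) isClosed_Icc isClosed_Iic
    obtain ⟨s0, hs0, hmax⟩ := hc.exists_isGreatest ⟨s1, ⟨le_rfl, hs1.2⟩, hg1⟩
    refine ⟨s0, ⟨lt_of_lt_of_le hs1.1 hs0.1.1, hs0.1.2⟩, hs0.2, fun s hs => ?_⟩
    by_contra hn
    rw [not_lt] at hn
    have h3 := hmax ⟨⟨hs0.1.1.trans hs.1.le, hs.2⟩, hn⟩
    exact absurd hs.1 (not_lt.2 h3)

lemma cont_g {v : ℝ → ℝ} (hv : Admissible v) (x a : ℝ) :
    ContinuousOn (fun s : ℝ => s * ‖dschw v (ray x a s)‖) (Ioi 0) := by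
  refine continuousOn_id.mul (ContinuousOn.norm ?_)
  refine (Thr.Vert.continuousOn_dschw hv).comp ?_ ?_
  · exact fun s _ => (hasDerivAt_ray x a s).continuousAt.continuousWithinAt
  · intro s hs
    show 0 < (ray x a s).im
    rw [ray_im]
    exact hs

/-- horizontal shift -/
lemma shift {v : ℝ → ℝ} (hv : Admissible v) {C1 c C0 S0 x a a' s0 : ℝ} (hC1 : 1 ≤ C1)
    (hc1 : c ≤ 1 / 4) (hs0 : 0 < s0) (haa : |a' - a| < c)
    (hG : ∀ w ∈ ball (((x + a * s0 : ℝ) : ℂ) + s0 * I) (c * s0),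
      ‖dschw v w‖ ≤ C1 * (‖dschw v (((x + a * s0 : ℝ) : ℂ) + s0 * I)‖ + C0 / s0))
    (hS : s0 * ‖dschw v (ray x a s0)‖ ≤ S0) :
    poisson v (x + a' * s0) s0 ≤ poisson v (x + a * s0) s0 + C1 * (S0 + C0) := by
  have h0c : 0 < c := (abs_nonneg _).trans_lt haa
  have hw0 : (((x + a * s0 : ℝ) : ℂ) + s0 * I) = ray x a s0 := rfl
  rw [hw0] at hG
  have hb : ∀ w ∈ ball (ray x a s0) (c * s0), ‖dschw v w‖ ≤ C1 * (S0 + C0) / s0 := by
    intro w hw
    refine (hG w hw).trans ?_
    rw [mul_div_assoc]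
    refine mul_le_mul_of_nonneg_left ?_ (by linarith)
    rw [add_div]
    have : ‖dschw v (ray x a s0)‖ ≤ S0 / s0 := by
      rw [le_div_iff₀ hs0, mul_comm]; exact hS
    linarith
  have hd : ∀ w ∈ ball (ray x a s0) (c * s0), HasDerivWithinAt (schw v) (dschw v w)
      (ball (ray x a s0) (c * s0)) w := by
    intro w hw
    refine (hasDerivAt_schw hv ?_).hasDerivWithinAt
    rw [mem_ball, dist_eq_norm] at hw
    have h1 := (Complex.abs_im_le_norm (w - ray x a s0)).trans_lt hw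
    rw [Complex.sub_im, ray_im, abs_lt] at h1
    have h2 : c * s0 ≤ 1 / 4 * s0 := mul_le_mul_of_nonneg_right hc1 hs0.le
    linarith [h1.1]
  have hdist : ‖ray x a' s0 - ray x a s0‖ = |a' - a| * s0 := by
    have h1 : ray x a' s0 - ray x a s0 = (((a' - a) * s0 : ℝ) : ℂ) := by
      unfold ray; push_cast; ring
    rw [h1, Complex.norm_real, Real.norm_eq_abs, abs_mul, abs_of_pos hs0]
  have hmem : ray x a' s0 ∈ ball (ray x a s0) (c * s0) := by
    rw [mem_ball, dist_eq_norm, hdist]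
    exact mul_lt_mul_of_pos_right haa hs0
  have hmv := Convex.norm_image_sub_le_of_norm_hasDerivWithin_le hd hb (convex_ball _ _)
    (mem_ball_self (by positivity)) hmem
  rw [hdist] at hmv
  have hD : 0 ≤ C1 * (S0 + C0) / s0 := (norm_nonneg _).trans (hb _ hmem)
  have h2 : C1 * (S0 + C0) / s0 * (|a' - a| * s0) ≤ C1 * (S0 + C0) := by
    have h3 : C1 * (S0 + C0) / s0 * (|a' - a| * s0) = C1 * (S0 + C0) * |a' - a| := by
      field_simp
    rw [h3]
    have h4 : 0 ≤ C1 * (S0 + C0) := by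
      have := mul_nonneg hD hs0.le
      rwa [div_mul_cancel₀ _ hs0.ne'] at this
    exact mul_le_of_le_one_right h4 (by linarith)
  have h3 := (Complex.abs_re_le_norm (schw v (ray x a' s0) - schw v (ray x a s0))).trans
    (hmv.trans h2)
  rw [Complex.sub_re] at h3
  have e1 : poisson v (x + a' * s0) s0 = (schw v (ray x a' s0)).re := poisson_eq_re hv hs0
  have e2 : poisson v (x + a * s0) s0 = (schw v (ray x a s0)).re := poisson_eq_re hv hs0
  rw [e1, e2]
  linarith [(abs_le.1 h3).2]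

/-- the alternative at a point -/
lemma point {v : ℝ → ℝ} (hv : Admissible v) {C1 c C0 S0 L lam' μ x z y : ℝ} (hC1 : 1 ≤ C1)
    (hc0 : 0 < c) (hc1 : c ≤ 1 / 4) (hC0 : 0 ≤ C0) (hS0 : 0 < S0) (hlam' : 0 < lam')
    (hμL : μ ≤ L) (hμc : μ - lam' ≤ c / 4)
    (hG : ∀ z y : ℝ, 0 < y → ∀ w ∈ ball ((z : ℂ) + y * I) (c * y),
      ‖dschw v w‖ ≤ C1 * (‖dschw v (z + y * I)‖ + C0 / y))
    (hg : ∀ z y : ℝ, 0 < y → S0 ≤ y * ‖dschw v (z + y * I)‖ →
      L * |(dschw v (z + y * I)).re| ≤ -(dschw v (z + y * I)).im)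
    (hnt : ∀ a ε : ℝ, 0 < ε → ∃ y0 : ℝ, 0 < y0 ∧
      ∀ y, 0 < y → y < y0 → |poisson v (x + a * y) y - v x| ≤ ε)
    (hy : 0 < y) (hxz : |x - z| < μ * y) :
    v x ≤ poisson v z y ∨ ∃ z' y' : ℝ, 0 < y' ∧ y' ≤ y ∧ |x - z'| < lam' * y' ∧
      poisson v z' y' ≤ poisson v z y + C1 * (S0 + C0) := by
  have hK : 0 ≤ C1 * (S0 + C0) := by positivity
  by_cases hcase : |x - z| < lam' * y
  · exact Or.inr ⟨z, y, hy, le_rfl, hcase, by linarith⟩
  rw [not_lt] at hcase
  obtain ⟨a, ha⟩ : ∃ a : ℝ, a = (z - x) / y := ⟨_, rfl⟩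
  have hza : z = x + a * y := by rw [ha]; field_simp; ring
  have hay : |x - z| = |a| * y := by
    rw [hza, show x - (x + a * y) = -(a * y) by ring, abs_neg, abs_mul, abs_of_pos hy]
  rw [hay] at hxz hcase
  have ha1 : |a| < μ := lt_of_mul_lt_mul_right hxz hy.le
  have ha2 : lam' ≤ |a| := le_of_mul_le_mul_right hcase hy
  have haL : |a| ≤ L := ha1.le.trans hμL
  rcases last (cont_g hv x a) (y := y) (S0 := S0) with hall | ⟨s0, hs0, hgs, hafter⟩
  · left
    refine le_of_forall_pos_le_add fun ε hε => ?_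
    obtain ⟨y0, hy0, h⟩ := hnt a ε hε
    obtain ⟨s, hs⟩ : ∃ s : ℝ, s = min y (y0 / 2) := ⟨_, rfl⟩
    have hs1 : 0 < s := by rw [hs]; exact lt_min hy (by positivity)
    have hs2 : s ≤ y := by rw [hs]; exact min_le_left _ _
    have hs3 : s < y0 := by
      rw [hs]; exact lt_of_le_of_lt (min_le_right _ _) (by linarith)
    have h1 := (abs_le.1 (h s hs1 hs3)).1
    have h2 := mono_ray hv haL hs1 hs2 hg
      (fun t ht => (hall t ⟨hs1.trans ht.1, ht.2.le⟩).le) (x := x)
    rw [← hza] at h2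
    linarith
  · right
    obtain ⟨d, hd⟩ : ∃ d : ℝ, d = min (c / 4) (lam' / 2) := ⟨_, rfl⟩
    have hd0 : 0 < d := by rw [hd]; exact lt_min (by positivity) (by positivity)
    have hd1 : d ≤ c / 4 := by rw [hd]; exact min_le_left _ _
    have hd2 : d ≤ lam' / 2 := by rw [hd]; exact min_le_right _ _
    have ha0 : 0 < |a| := hlam'.trans_le ha2
    -- the new slope
    obtain ⟨a', ha'⟩ : ∃ a' : ℝ, a' = a * ((lam' - d) / |a|) := ⟨_, rfl⟩
    have hq : 0 < (lam' - d) / |a| := div_pos (by linarith) ha0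
    have ha'1 : |a'| = lam' - d := by
      rw [ha', abs_mul, abs_of_pos hq]; field_simp
    have haa : |a' - a| < c := by
      have h1 : a' - a = -(a * ((|a| - (lam' - d)) / |a|)) := by
        rw [ha']; field_simp; ring
      have h2 : 0 ≤ (|a| - (lam' - d)) / |a| := div_nonneg (by linarith) ha0.le
      rw [h1, abs_neg, abs_mul, abs_of_nonneg h2]
      have h3 : |a| * ((|a| - (lam' - d)) / |a|) = |a| - (lam' - d) := by field_simp
      rw [h3]
      linarith
    refine ⟨x + a' * s0, s0, hs0.1, hs0.2, ?_, ?_⟩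
    · rw [show x - (x + a' * s0) = -(a' * s0) by ring, abs_neg, abs_mul, abs_of_pos hs0.1, ha'1]
      exact mul_lt_mul_of_pos_right (by linarith) hs0.1
    · have h1 := shift hv hC1 hc1 hs0.1 haa (hG (x + a * s0) s0 hs0.1) hgs
      have h2 := mono_ray hv haL hs0.1 hs0.2 hg
        (fun t ht => (hafter t ⟨ht.1, ht.2.le⟩).le) (x := x)
      rw [← hza] at h2
      linarith

end Down

open Pool.Agent.Work.MP_055a27_an.Op.Down in
theorem stDown (hQm : StQm) (hGh : StGh) : StDown := by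
  intro lam κ S0 U hlam hκ hS0 hW hCC hg
  -- quasi monotonicity
  obtain ⟨C2, hC2, hQ⟩ := hQm (lam / 4) lam (by positivity) (by linarith)
  obtain ⟨K0, hK0⟩ := hCC (lam / 2) (by positivity) (by linarith)
  obtain ⟨K1, hK1⟩ : ∃ K1 : ℝ, K1 = max 1 (K0 : ℝ) := ⟨_, rfl⟩
  have hK11 : 1 ≤ K1 := by rw [hK1]; exact le_max_left _ _
  have hK10 : (K0 : ℝ) ≤ K1 := by rw [hK1]; exact le_max_right _ _
  have hCCK : CCK (lam / 2) K1 U := by
    intro a c hac
    refine (hK0 a c hac).trans ?_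
    rw [ENNReal.ofReal_mul (by linarith)]
    gcongr
    rw [← ENNReal.ofReal_coe_nnreal]
    exact ENNReal.ofReal_le_ofReal hK10
  obtain ⟨hqm, -⟩ := hQ U K1 (lam / 2) (lam / 4) hW (by linarith) (by linarith) (by positivity)
    (by linarith) hK11 hCCK
  obtain ⟨C0, hC0d⟩ : ∃ C0 : ℝ, C0 = Real.log (C2 * K1) := ⟨_, rfl⟩
  rw [← hC0d] at hqm
  have hC0 : 0 ≤ C0 := by
    rw [hC0d]
    exact Real.log_nonneg (one_le_mul_of_one_le_of_one_le hC2 hK11)
  obtain ⟨C1, c, hC1, hc0, hc1, hG⟩ := hGh (lam / 4) (by positivity)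
  have hA : Admissible (lg U) := hW.2.2
  have hG1 := hG (lg U) C0 hA hC0 hqm
  -- the apertures
  obtain ⟨lam', hlam'⟩ : ∃ l : ℝ, l = lam - min (c / 8) (lam / 2) := ⟨_, rfl⟩
  have hl1 : lam / 2 ≤ lam' := by
    rw [hlam']; linarith [min_le_right (c / 8) (lam / 2)]
  have hl2 : lam' < lam := by
    rw [hlam']
    have : 0 < min (c / 8) (lam / 2) := lt_min (by positivity) (by positivity)
    linarith
  have hl3 : lam - c / 8 ≤ lam' := by
    rw [hlam']; linarith [min_le_left (c / 8) (lam / 2)]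
  have hl0 : 0 < lam' := by linarith
  obtain ⟨μ, hμ⟩ : ∃ μ : ℝ, μ = lam + min (κ / 2) (c / 8) := ⟨_, rfl⟩
  have hμ1 : lam < μ := by
    rw [hμ]
    have : 0 < min (κ / 2) (c / 8) := lt_min (by positivity) (by positivity)
    linarith
  have hμ2 : μ ≤ lam + κ := by rw [hμ]; linarith [min_le_left (κ / 2) (c / 8)]
  have hμ3 : μ ≤ lam + c / 8 := by rw [hμ]; linarith [min_le_right (κ / 2) (c / 8)]
  have hμ0 : 0 < μ := hlam.trans hμ1
  obtain ⟨K, hK⟩ := hCC lam' hl0 hl2
  obtain ⟨E, hE⟩ : ∃ E : ℝ≥0, E = Real.toNNReal (Real.exp (C1 * (S0 + C0))) := ⟨_, rfl⟩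
  have hEr : (E : ℝ≥0∞) = ENNReal.ofReal (Real.exp (C1 * (S0 + C0))) := by rw [hE]; rfl
  refine ⟨μ, hμ1, 3 * E * K + 1, fun al ga hag => ?_⟩
  obtain ⟨Lg, hLg⟩ : ∃ Lg : ℝ, Lg = ga - al := ⟨_, rfl⟩
  have hLg0 : 0 < Lg := by rw [hLg]; linarith
  have hpt : ∀ᵐ x, cc μ al ga U x * ENNReal.ofReal (U x) ≤
      E * (cc lam' (al - Lg) (ga + Lg) U x * ENNReal.ofReal (U x)) + 1 := by
    filter_upwards [nt hA, hW.2.1] with x hx hxU
    have h1 : cc μ al ga U x ≤ E * cc lam' (al - Lg) (ga + Lg) U x +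
        ENNReal.ofReal (Real.exp (-lg U x)) := by
      unfold cc
      refine iSup_le fun z => iSup_le fun y => iSup_le fun hzy => ?_
      obtain ⟨hy, hxz, hz1, hz2⟩ := hzy
      rcases point hA hC1 hc0 hc1 hC0 hS0 hl0 hμ2 (by linarith) hG1 hg hx hy hxz with h2 | h2
      · refine le_add_left (ENNReal.ofReal_le_ofReal (Real.exp_le_exp.2 ?_))
        linarith
      · obtain ⟨z', y', hy', hy'y, hxz', hp⟩ := h2
        refine le_add_right ?_
        have hyL : 2 * (μ * y) ≤ Lg := by rw [hLg]; linarith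
        have hly : lam' * y' ≤ μ * y := mul_le_mul (by linarith) hy'y hy'.le hμ0.le
        have hab := abs_lt.1 hxz'
        have hab2 := abs_lt.1 hxz
        have h3 : ENNReal.ofReal (Real.exp (-poisson (lg U) z' y')) ≤
            ⨆ (z : ℝ) (y : ℝ) (_ : 0 < y ∧ |x - z| < lam' * y ∧ al - Lg ≤ z - lam' * y ∧
              z + lam' * y ≤ ga + Lg), ENNReal.ofReal (Real.exp (-poisson (lg U) z y)) := by
          refine le_iSup_of_le z' (le_iSup_of_le y' (le_iSup_of_le ⟨hy', hxz', ?_, ?_⟩ le_rfl))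
          · linarith
          · linarith
        refine le_trans ?_ (mul_le_mul_right h3 _)
        rw [hEr, ← ENNReal.ofReal_mul (Real.exp_pos _).le, ← Real.exp_add]
        refine ENNReal.ofReal_le_ofReal (Real.exp_le_exp.2 ?_)
        linarith
    have h2 : ENNReal.ofReal (Real.exp (-lg U x)) * ENNReal.ofReal (U x) = 1 := by
      rw [← ENNReal.ofReal_mul (Real.exp_pos _).le]
      unfold lg
      rw [Real.exp_neg, Real.exp_log hxU, inv_mul_cancel₀ hxU.ne', ENNReal.ofReal_one]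
    calc cc μ al ga U x * ENNReal.ofReal (U x)
        ≤ (E * cc lam' (al - Lg) (ga + Lg) U x + ENNReal.ofReal (Real.exp (-lg U x))) *
            ENNReal.ofReal (U x) := mul_le_mul_left h1 _
      _ = E * (cc lam' (al - Lg) (ga + Lg) U x * ENNReal.ofReal (U x)) + 1 := by
          rw [add_mul, h2, mul_assoc]
  calc ∫⁻ x in Icc al ga, cc μ al ga U x * ENNReal.ofReal (U x)
      ≤ ∫⁻ x in Icc al ga, (E * (cc lam' (al - Lg) (ga + Lg) U x * ENNReal.ofReal (U x)) + 1) :=
        lintegral_mono_ae (ae_restrict_of_ae hpt)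
    _ = E * (∫⁻ x in Icc al ga, cc lam' (al - Lg) (ga + Lg) U x * ENNReal.ofReal (U x)) +
          ENNReal.ofReal Lg := by
        rw [lintegral_add_right _ measurable_const, lintegral_const_mul' _ _ ENNReal.coe_ne_top,
          lintegral_one, Measure.restrict_apply_univ, Real.volume_Icc, hLg]
    _ ≤ E * (K * ENNReal.ofReal (ga + Lg - (al - Lg))) + ENNReal.ofReal Lg := by
        gcongr
        refine le_trans ?_ (hK (al - Lg) (ga + Lg) (by linarith))
        exact lintegral_mono_set (Icc_subset_Icc (by linarith) (by linarith))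
    _ = (3 * E * K + 1 : ℝ≥0) * ENNReal.ofReal (ga - al) := by
        have e1 : ga + Lg - (al - Lg) = 3 * Lg := by rw [hLg]; ring
        rw [e1, ENNReal.ofReal_mul (by norm_num), ← hLg]
        have e2 : ENNReal.ofReal 3 = 3 := by norm_num
        rw [e2]
        push_cast
        ring

end Pool.Agent.Work.MP_055a27_an.Op
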