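import Pool.Agent.Work.MP_055a27_an.Op.Stmts

/-!
# Item 4 Gh: Harnack inequality for the gradient
-/

set_option autoImplicit false

open MeasureTheory Set Filter Topology Complex Metric
open scoped ENNReal NNReal

namespace Pool.Agent.Work.MP_055a27_an.Op

open Crit (lg cc CC NTc Nice NI)
open Cr3 (Wt Sh)

namespace Gh

/-- The abstract setting: `F` analytic in the upper half plane with derivative `F'` and real part
quasi monotone in the directions `(a, 1)`. -/
structure Set0 (a0 C0 : ℝ) (F F' : ℂ → ℂ) : Prop where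
  hF : ∀ w : ℂ, 0 < w.im → HasDerivAt F (F' w) w
  hQ : ∀ (a s : ℝ) (w : ℂ), |a| ≤ a0 → 0 ≤ s → s ≤ w.im → 0 < w.im →
    (F w).re ≤ (F (w + s * (a + I))).re + C0

lemma im_shift (w : ℂ) (s a : ℝ) : (w + s * (a + I)).im = w.im + s := by
  simp [Complex.add_im, Complex.mul_im]

lemma im_ball {w w0 : ℂ} {r : ℝ} (h : w ∈ ball w0 r) : w0.im - r < w.im := by
  have h1 : ‖w - w0‖ < r := by
    rw [← dist_eq_norm]
    exact mem_ball.1 h
  have h2 := Complex.abs_im_le_norm (w - w0)
  rw [Complex.sub_im] at h2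
  have h3 := neg_abs_le (w.im - w0.im)
  linarith

lemma stepA (hHar : Cr3.StHar) {a0 C0 : ℝ} {F F' : ℂ → ℂ} (S : Set0 a0 C0 F F') {w0 : ℂ}
    (hy : 0 < w0.im) {a s : ℝ} (ha : |a| ≤ a0) (hs0 : 0 ≤ s) (hs : s ≤ w0.im / 4) {w : ℂ}
    (hw : w ∈ ball w0 (w0.im / 4)) :
    ‖F' (w + s * (a + I)) - F' w‖ ≤
      24 / w0.im * ((F (w0 + s * (a + I))).re - (F w0).re + C0) := by
  set y := w0.im with hydef
  have him : ∀ v ∈ ball w0 (y / 2), y / 2 < v.im := by
    intro v hv
    have := im_ball hv
    linarith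
  have hder : ∀ v : ℂ, 0 < v.im → HasDerivAt (fun w : ℂ => F (w + s * (a + I)) - F w + C0)
      (F' (v + s * (a + I)) - F' v) v := by
    intro v hv
    have h1 : 0 < (v + s * (a + I)).im := by
      rw [im_shift]
      linarith
    have h2 : HasDerivAt (fun w : ℂ => w + s * (a + I)) 1 v := (hasDerivAt_id v).add_const _
    have h3 := (S.hF _ h1).comp v h2
    have h4 := (h3.sub (S.hF v hv)).add_const (C0 : ℂ)
    rw [mul_one] at h4
    exact h4
  have h := hHar (fun w : ℂ => F (w + s * (a + I)) - F w + C0) w0 (y / 2) (by linarith)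
    (fun v hv => (hder v (by have := him v hv; linarith)).differentiableAt.differentiableWithinAt)
    (fun v hv => by
      have h1 := him v hv
      have h2 := S.hQ a s v ha hs0 (by linarith) (by linarith)
      simp only [Complex.add_re, Complex.sub_re, Complex.ofReal_re]
      linarith)
    w (by
      have : y / 2 / 2 = y / 4 := by ring
      rw [this]
      exact hw)
  have hwim : 0 < w.im := by
    have := im_ball hw
    linarith
  have h5 := h.2.2
  rw [(hder w hwim).deriv] at h5
  have h6 : 12 / (y / 2) = 24 / y := by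
    field_simp
    norm_num
  rw [h6] at h5
  simpa only [Complex.add_re, Complex.sub_re, Complex.ofReal_re] using h5

lemma norm_dir {a a0 : ℝ} (ha : |a| ≤ a0) : ‖(a : ℂ) + I‖ ≤ 1 + a0 := by
  refine (norm_add_le _ _).trans ?_
  rw [Complex.norm_I, Complex.norm_real, Real.norm_eq_abs]
  linarith

lemma stepB (hHar : Cr3.StHar) {a0 C0 : ℝ} {F F' : ℂ → ℂ} (S : Set0 a0 C0 F F') {w0 : ℂ}
    (hy : 0 < w0.im) {a s : ℝ} (ha : |a| ≤ a0) (hs0 : 0 ≤ s) (hs : s ≤ w0.im / 4)
    (hC0 : 0 ≤ C0) :
    (F (w0 + s * (a + I))).re - (F w0).re + C0 ≤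
      Real.exp (6 * (1 + a0)) * (C0 + ‖F' w0‖ * w0.im / 24) := by
  set y := w0.im with hydef
  set D := ‖F' w0‖ with hD
  have hD0 : 0 ≤ D := norm_nonneg _
  have ha0 : 0 ≤ a0 := (abs_nonneg a).trans ha
  set K := 24 * (1 + a0) / y with hK
  have hK0 : 0 ≤ K := by positivity
  have hpsi : ∀ t : ℝ, 0 ≤ t → HasDerivAt (fun t : ℝ => (F (w0 + t * (a + I))).re)
      (((a : ℂ) + I) * F' (w0 + t * (a + I))).re t := by
    intro t ht
    have h1 : 0 < (w0 + t * (a + I)).im := by
      rw [im_shift]
      linarith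
    have h2 : HasDerivAt (fun t : ℝ => w0 + (t : ℂ) * (a + I)) ((a : ℂ) + I) t := by
      have h3 : HasDerivAt (fun t : ℝ => (t : ℂ)) 1 t := Complex.ofRealCLM.hasDerivAt
      have h4 := (h3.mul_const ((a : ℂ) + I)).const_add w0
      rw [one_mul] at h4
      exact h4
    have h5 := (S.hF _ h1).scomp t h2
    have h6 := Complex.reCLM.hasFDerivAt.comp_hasDerivAt t h5
    exact h6
  -- the function which decreases
  have hchi : ∀ t : ℝ, 0 ≤ t → HasDerivAt (fun t : ℝ => ((F (w0 + t * (a + I))).re - (F w0).re +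
      C0 + D * y / 24) * Real.exp (-K * t))
      ((((a : ℂ) + I) * F' (w0 + t * (a + I))).re * Real.exp (-K * t) +
        ((F (w0 + t * (a + I))).re - (F w0).re + C0 + D * y / 24) *
          (Real.exp (-K * t) * -K)) t := by
    intro t ht
    have h1 := (((hpsi t ht).sub_const (F w0).re).add_const C0).add_const (D * y / 24)
    have h2 : HasDerivAt (fun t : ℝ => Real.exp (-K * t)) (Real.exp (-K * t) * -K) t := by
      have h3 : HasDerivAt (fun t : ℝ => -K * t) (-K) t := by
        simpa using (hasDerivAt_id t).const_mul (-K)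
      exact h3.exp
    exact h1.mul h2
  have hanti : AntitoneOn (fun t : ℝ => ((F (w0 + t * (a + I))).re - (F w0).re +
      C0 + D * y / 24) * Real.exp (-K * t)) (Icc 0 (y / 4)) := by
    apply antitoneOn_of_deriv_nonpos (convex_Icc 0 (y / 4))
    · intro t ht
      exact (hchi t ht.1).continuousAt.continuousWithinAt
    · intro t ht
      rw [interior_Icc] at ht
      exact (hchi t ht.1.le).differentiableAt.differentiableWithinAt
    · intro t ht
      rw [interior_Icc] at ht
      rw [(hchi t ht.1.le).deriv]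
      have h1 : w0 ∈ ball w0 (y / 4) := mem_ball_self (by linarith)
      have h2 := stepA hHar S hy ha ht.1.le ht.2.le h1
      rw [← hydef] at h2
      have h3 : (((a : ℂ) + I) * F' (w0 + t * (a + I))).re ≤
          (1 + a0) * (D + 24 / y * ((F (w0 + t * (a + I))).re - (F w0).re + C0)) := by
        refine (Complex.re_le_norm _).trans ?_
        rw [norm_mul]
        have h4 : ‖F' (w0 + t * (a + I))‖ ≤
            D + 24 / y * ((F (w0 + t * (a + I))).re - (F w0).re + C0) := by
          have h5 : F' (w0 + t * (a + I)) = F' w0 + (F' (w0 + t * (a + I)) - F' w0) := by ring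
          rw [h5]
          refine (norm_add_le _ _).trans ?_
          linarith
        exact mul_le_mul (norm_dir ha) h4 (norm_nonneg _) (by linarith)
      have h6 : (1 + a0) * (D + 24 / y * ((F (w0 + t * (a + I))).re - (F w0).re + C0)) =
          K * ((F (w0 + t * (a + I))).re - (F w0).re + C0 + D * y / 24) := by
        rw [hK]
        field_simp
        ring
      rw [h6] at h3
      have h7 := Real.exp_pos (-K * t)
      nlinarith [mul_le_mul_of_nonneg_right h3 h7.le]
  have h1 := hanti (left_mem_Icc.2 (by linarith)) (⟨hs0, hs⟩ : s ∈ Icc 0 (y / 4)) hs0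
  simp only [Complex.ofReal_zero, zero_mul, add_zero, mul_zero, Real.exp_zero, mul_one,
    sub_self, zero_add] at h1
  -- unfold the exponential
  have h2 : Real.exp (-K * s) * Real.exp (K * s) = 1 := by
    rw [← Real.exp_add]
    simp
  have h3 := mul_le_mul_of_nonneg_right h1 (Real.exp_pos (K * s)).le
  rw [mul_assoc, h2, mul_one] at h3
  have h4 : Real.exp (K * s) ≤ Real.exp (6 * (1 + a0)) := by
    apply Real.exp_le_exp.2
    calc K * s ≤ K * (y / 4) := mul_le_mul_of_nonneg_left hs hK0
      _ = 6 * (1 + a0) := by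
          rw [hK]
          field_simp
          norm_num
  have h5 : (C0 + D * y / 24) * Real.exp (K * s) ≤
      (C0 + D * y / 24) * Real.exp (6 * (1 + a0)) :=
    mul_le_mul_of_nonneg_left h4 (by positivity)
  have h6 : 0 ≤ D * y / 24 := by positivity
  linarith

/-- The Harnack inequality in the abstract setting. -/
lemma main (hHar : Cr3.StHar) {a0 C0 : ℝ} {F F' : ℂ → ℂ} (S : Set0 a0 C0 F F') {w0 : ℂ}
    (ha0 : 0 < a0) (hC0 : 0 ≤ C0) (hy : 0 < w0.im) {w : ℂ}
    (hw : w ∈ ball w0 (min 1 a0 / (16 * (1 + a0)) * w0.im)) :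
    ‖F' w‖ ≤ (1 + 48 * Real.exp (6 * (1 + a0))) * (‖F' w0‖ + C0 / w0.im) := by
  set y := w0.im with hydef
  set D := ‖F' w0‖ with hD
  have hD0 : 0 ≤ D := norm_nonneg _
  set E := Real.exp (6 * (1 + a0)) with hE
  have hE0 : 0 < E := Real.exp_pos _
  have step2 : ∀ (v : ℂ) (a s : ℝ), v ∈ ball w0 (y / 4) → |a| ≤ a0 → 0 ≤ s → s ≤ y / 4 →
      ‖F' (v + s * (a + I)) - F' v‖ ≤ E * (24 * (C0 / y) + D) := by
    intro v a s hv ha hs0 hs
    have h1 := stepA hHar S hy ha hs0 hs hv
    have h2 := stepB hHar S hy ha hs0 hs hC0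
    rw [← hydef] at h1 h2
    refine h1.trans ?_
    have h3 : 24 / y * ((F (w0 + s * (a + I))).re - (F w0).re + C0) ≤
        24 / y * (E * (C0 + D * y / 24)) := mul_le_mul_of_nonneg_left h2 (by positivity)
    refine h3.trans (le_of_eq ?_)
    field_simp
  -- the displacement
  set u := w.re - w0.re with hu
  set v' := w.im - w0.im with hv'
  have hdist : ‖w - w0‖ < min 1 a0 / (16 * (1 + a0)) * y := by
    rw [← dist_eq_norm]
    exact mem_ball.1 hw
  have hure : |u| ≤ ‖w - w0‖ := by
    have := Complex.abs_re_le_norm (w - w0)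
    rwa [Complex.sub_re] at this
  have hvim : |v'| ≤ ‖w - w0‖ := by
    have := Complex.abs_im_le_norm (w - w0)
    rwa [Complex.sub_im] at this
  set s := y / (8 * (1 + a0)) with hs
  have hs0 : 0 < s := by positivity
  have h1a : 0 < 1 + a0 := by linarith
  have hcy1 : min 1 a0 / (16 * (1 + a0)) * y ≤ s / 2 := by
    have h1 : min 1 a0 / (16 * (1 + a0)) ≤ 1 / (16 * (1 + a0)) :=
      div_le_div_of_nonneg_right (min_le_left _ _) (by positivity)
    have h2 : 1 / (16 * (1 + a0)) * y = s / 2 := by
      rw [hs]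
      field_simp
      norm_num
    rw [← h2]
    exact mul_le_mul_of_nonneg_right h1 hy.le
  have hcy2 : min 1 a0 / (16 * (1 + a0)) * y ≤ a0 * (s / 2) := by
    have h1 : min 1 a0 / (16 * (1 + a0)) ≤ a0 / (16 * (1 + a0)) :=
      div_le_div_of_nonneg_right (min_le_right _ _) (by positivity)
    have h2 : a0 / (16 * (1 + a0)) * y = a0 * (s / 2) := by
      rw [hs]
      field_simp
      norm_num
    rw [← h2]
    exact mul_le_mul_of_nonneg_right h1 hy.le
  have hs8 : s ≤ y / 8 := by
    rw [hs]
    apply div_le_div_of_nonneg_left hy.le (by norm_num)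
    linarith
  have hv1 : -(s / 2) < v' := by
    have := neg_abs_le v'
    linarith
  have hv2 : v' < s / 2 := by
    have := le_abs_self v'
    linarith
  set s' := s + v' with hs'
  have hs'0 : s / 2 < s' := by linarith
  have hs'1 : s' ≤ y / 4 := by linarith
  set a' := u / s' with ha'
  have ha'1 : |a'| ≤ a0 := by
    rw [ha', abs_div, abs_of_pos (by linarith : 0 < s'), div_le_iff₀ (by linarith : 0 < s')]
    have h1 : a0 * (s / 2) ≤ a0 * s' := mul_le_mul_of_nonneg_left hs'0.le ha0.le
    linarith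
  set w1 := w0 - s * I with hw1
  have hw1b : w1 ∈ ball w0 (y / 4) := by
    rw [mem_ball, dist_eq_norm, hw1]
    have h1 : w0 - s * I - w0 = -(s * I) := by ring
    rw [h1, norm_neg, norm_mul, Complex.norm_I, mul_one, Complex.norm_real, Real.norm_eq_abs,
      abs_of_pos hs0]
    linarith
  have hA := step2 w1 0 s hw1b (by rw [abs_zero]; exact ha0.le) hs0.le (by linarith)
  have hB := step2 w1 a' s' hw1b ha'1 (by linarith) hs'1
  have e1 : w1 + s * ((0 : ℝ) + I) = w0 := by
    rw [hw1]
    push_cast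
    ring
  have e2 : w1 + s' * (a' + I) = w := by
    have h1 : (s' : ℂ) * (a' : ℂ) = (u : ℂ) := by
      rw [← Complex.ofReal_mul]
      congr 1
      rw [ha']
      exact mul_div_cancel₀ u (ne_of_gt (by linarith : 0 < s'))
    rw [mul_add, h1, hw1]
    apply Complex.ext
    · simp [hu]
    · simp [hs', hv']
      ring
  rw [e1] at hA
  rw [e2] at hB
  have h1 : F' w = F' w0 - (F' w0 - F' w1) + (F' w - F' w1) := by ring
  rw [h1]
  have h2 := norm_add_le (F' w0 - (F' w0 - F' w1)) (F' w - F' w1)
  have h3 := norm_sub_le (F' w0) (F' w0 - F' w1)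
  have h4 : ‖F' w0‖ = D := rfl
  have h5 : 0 ≤ C0 / y := by positivity
  have h6 : 0 ≤ E * D := by positivity
  have h7 : 0 ≤ E * (C0 / y) := by positivity
  nlinarith

end Gh

open Gh in
theorem stGh (hHar : Cr3.StHar) : StGh := by
  intro a0 ha0
  have hE : 0 < Real.exp (6 * (1 + a0)) := Real.exp_pos _
  refine ⟨1 + 48 * Real.exp (6 * (1 + a0)), min 1 a0 / (16 * (1 + a0)), by linarith,
    by positivity, ?_, ?_⟩
  · rw [div_le_iff₀ (by positivity)]
    have := min_le_left 1 a0
    linarith
  · intro v C0 hv hC0 hQM z y hy w hw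
    have him : ((z : ℂ) + y * I).im = y := by simp
    have S : Set0 a0 C0 (schw v) (dschw v) := by
      refine ⟨fun w hw => hasDerivAt_schw hv hw, ?_⟩
      intro a s w ha hs0 hs hw
      rcases hs0.eq_or_lt with h | h
      · rw [← h]
        simp only [Complex.ofReal_zero, zero_mul, add_zero]
        linarith
      · have h1 := hQM a s w.re w.im ha h hs
        have h2 : (w.re : ℂ) + w.im * I = w := Complex.re_add_im w
        have h3 : (((w.re + a * s : ℝ) : ℂ) + ((w.im + s : ℝ) : ℂ) * I) = w + s * (a + I) := by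
          apply Complex.ext
          · simp [mul_comm]
          · simp
        rw [← schw_re hv hw, ← schw_re hv (by linarith : 0 < w.im + s), h2, h3] at h1
        exact h1
    have h := main hHar S (w0 := (z : ℂ) + y * I) ha0 hC0 (by rw [him]; exact hy) (w := w)
      (by rw [him]; exact hw)
    rw [him] at h
    exact h

end Pool.Agent.Work.MP_055a27_an.Op
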