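import Pool.Agent.Work.MP_055a27_an.Op.Stmts
import Pool.Agent.Work.MP_055a27_an.Crit.TFUp

/-!
# Kolmogorov's weak type inequality

The bounded function `Φ / (Φ + t)` has non-negative real part, at least `1 / 2` where
`t ≤ ‖Φ‖`; so the weak type inequality holds even with `B / t` instead of its square root.
-/

set_option autoImplicit false

open MeasureTheory Set Filter Topology Complex Metric
open scoped ENNReal NNReal

namespace Pool.Agent.Work.MP_055a27_an.Op

namespace Ko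

lemma re_div (u : ℂ) (t : ℝ) :
    (u / (u + t)).re = (‖u‖ ^ 2 + t * u.re) / ‖u + t‖ ^ 2 := by
  rw [Complex.div_re, ← Complex.normSq_eq_norm_sq, ← Complex.normSq_eq_norm_sq]
  simp only [Complex.add_re, Complex.ofReal_re, Complex.add_im, Complex.ofReal_im]
  rw [← add_div]
  congr 1
  rw [Complex.normSq_apply]
  ring

lemma norm_sq_add (u : ℂ) (t : ℝ) : ‖u + t‖ ^ 2 = ‖u‖ ^ 2 + 2 * t * u.re + t ^ 2 := by
  rw [← Complex.normSq_eq_norm_sq, ← Complex.normSq_eq_norm_sq, Complex.normSq_apply,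
    Complex.normSq_apply]
  simp only [Complex.add_re, Complex.ofReal_re, Complex.add_im, Complex.ofReal_im]
  ring

lemma norm_add_pos (u : ℂ) {t : ℝ} (hu : 0 ≤ u.re) : t ≤ ‖u + t‖ := by
  have h1 := Complex.re_le_norm (u + t)
  simp only [Complex.add_re, Complex.ofReal_re] at h1
  linarith

lemma norm_le_add (u : ℂ) {t : ℝ} (ht : 0 < t) (hu : 0 ≤ u.re) : ‖u‖ ≤ ‖u + t‖ := by
  have h1 := norm_sq_add u t
  have h2 : 0 ≤ 2 * t * u.re := by positivity
  apply le_of_sq_le_sq _ (norm_nonneg _)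
  nlinarith

lemma re_nonneg (u : ℂ) {t : ℝ} (ht : 0 < t) (hu : 0 ≤ u.re) : 0 ≤ (u / (u + t)).re := by
  rw [re_div u t]
  positivity

lemma half_le (u : ℂ) {t : ℝ} (ht : 0 < t) (hu : 0 ≤ u.re) (h : t ≤ ‖u‖) :
    1 / 2 ≤ (u / (u + t)).re := by
  have h0 : 0 < ‖u + t‖ := ht.trans_le (norm_add_pos u hu)
  rw [re_div u t, le_div_iff₀ (by positivity), norm_sq_add]
  have h1 : t ^ 2 ≤ ‖u‖ ^ 2 := pow_le_pow_left₀ ht.le h 2
  nlinarith

end Ko

/-- The weak type inequality, without auxiliary hypothesis. -/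
theorem stKo' : StKo := by
  refine ⟨2 * Real.pi, by linarith [Real.two_le_pi], ?_⟩
  intro Φ h z y B t hh hy hB ht hd hre hval
  have hopen : IsOpen {w : ℂ | -h < w.im} := isOpen_lt continuous_const Complex.continuous_im
  have hd' : ∀ ζ : ℂ, 0 ≤ ζ.im → DifferentiableAt ℂ Φ ζ := fun ζ hζ =>
    hd.differentiableAt (hopen.mem_nhds (by
      show -h < ζ.im
      linarith))
  have hne : ∀ ζ : ℂ, 0 ≤ ζ.im → Φ ζ + t ≠ 0 := by
    intro ζ hζ h0
    have := Ko.norm_add_pos (t := t) (Φ ζ) (hre ζ hζ)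
    rw [h0, norm_zero] at this
    linarith
  set F : ℂ → ℂ := fun ζ => Φ ζ / (Φ ζ + t) with hF
  have hFd : ∀ ζ : ℂ, 0 ≤ ζ.im → DifferentiableAt ℂ F ζ := fun ζ hζ =>
    (hd' ζ hζ).div ((hd' ζ hζ).add_const _) (hne ζ hζ)
  have hFb : ∀ ζ : ℂ, 0 ≤ ζ.im → ‖F ζ‖ ≤ 1 := by
    intro ζ hζ
    rw [hF]
    simp only [norm_div]
    exact div_le_one_of_le₀ (Ko.norm_le_add _ ht (hre ζ hζ)) (norm_nonneg _)
  have hP := poisson_re hFd hFb (z := z) hy
  have hadm := admissible_re hFd hFb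
  have hint := Crit.TFUp.integrable_pois hadm (z := z) hy
  have hw : 0 ≤ ((z : ℂ) + y * I).im := by simp [hy.le]
  have hFv : (F (z + y * I)).re ≤ B / t := by
    refine (Complex.re_le_norm _).trans ?_
    rw [hF]
    simp only [norm_div]
    exact div_le_div₀ hB hval ht (Ko.norm_add_pos _ (hre _ hw))
  have hΦc : Continuous (fun x : ℝ => Φ x) := by
    rw [continuous_iff_continuousAt]
    intro x
    exact ContinuousAt.comp (f := fun t : ℝ => (t : ℂ)) (hd' (x : ℂ) (by simp)).continuousAt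
      Complex.continuous_ofReal.continuousAt
  have hS : MeasurableSet {x : ℝ | t ≤ ‖Φ x‖} :=
    (isClosed_le continuous_const hΦc.norm).measurableSet
  have hker : ∀ x : ℝ, 0 ≤ y / ((z - x) ^ 2 + y ^ 2) := fun x => by positivity
  have hgn : ∀ x : ℝ, 0 ≤ 2 * (y * (F x).re / ((z - x) ^ 2 + y ^ 2)) := by
    intro x
    have := Ko.re_nonneg (Φ x) ht (hre x (by simp))
    have h2 : 0 ≤ (F x).re := this
    positivity
  have hI : ∫ x : ℝ, y * (F x).re / ((z - x) ^ 2 + y ^ 2) = Real.pi * (F (z + y * I)).re := by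
    rw [← hP, poisson_eq_integral]
    have := Real.pi_ne_zero
    field_simp
  have h1 : ∫⁻ x in {x : ℝ | t ≤ ‖Φ x‖}, ENNReal.ofReal (y / ((z - x) ^ 2 + y ^ 2)) ≤
      ENNReal.ofReal (2 * Real.pi * (B / t)) := by
    calc ∫⁻ x in {x : ℝ | t ≤ ‖Φ x‖}, ENNReal.ofReal (y / ((z - x) ^ 2 + y ^ 2)) ≤
        ∫⁻ x in {x : ℝ | t ≤ ‖Φ x‖},
          ENNReal.ofReal (2 * (y * (F x).re / ((z - x) ^ 2 + y ^ 2))) := by
          refine setLIntegral_mono' hS fun x hx => ENNReal.ofReal_le_ofReal ?_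
          have h3 : 1 / 2 ≤ (F x).re := Ko.half_le (Φ x) ht (hre x (by simp)) hx
          have h4 : 2 * (y * (F x).re / ((z - x) ^ 2 + y ^ 2)) =
            (2 * (F x).re) * (y / ((z - x) ^ 2 + y ^ 2)) := by ring
          rw [h4]
          exact le_mul_of_one_le_left (hker x) (by linarith)
      _ ≤ ∫⁻ x : ℝ, ENNReal.ofReal (2 * (y * (F x).re / ((z - x) ^ 2 + y ^ 2))) :=
          setLIntegral_le_lintegral _ _
      _ = ENNReal.ofReal (∫ x : ℝ, 2 * (y * (F x).re / ((z - x) ^ 2 + y ^ 2))) :=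
          (ofReal_integral_eq_lintegral_ofReal (hint.const_mul 2)
            (Eventually.of_forall hgn)).symm
      _ ≤ ENNReal.ofReal (2 * Real.pi * (B / t)) := by
          apply ENNReal.ofReal_le_ofReal
          rw [integral_const_mul, hI, ← mul_assoc]
          exact mul_le_mul_of_nonneg_left hFv (by positivity)
  have h2 : ∫⁻ x in {x : ℝ | t ≤ ‖Φ x‖}, ENNReal.ofReal (y / ((z - x) ^ 2 + y ^ 2)) ≤
      ENNReal.ofReal Real.pi := by
    have hki : Integrable (fun x : ℝ => y / ((z - x) ^ 2 + y ^ 2)) volume := by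
      refine ((integrable_kernel (z := z) hy).const_mul y).congr
        (Eventually.of_forall fun x => ?_)
      show y * (1 / ((z - x) ^ 2 + y ^ 2)) = y / ((z - x) ^ 2 + y ^ 2)
      ring
    have hkI : ∫ x : ℝ, y / ((z - x) ^ 2 + y ^ 2) = Real.pi := by
      have h5 : ∫ x : ℝ, y / ((z - x) ^ 2 + y ^ 2) = ∫ x : ℝ, y * (1 / ((z - x) ^ 2 + y ^ 2)) := by
        refine integral_congr_ae (Eventually.of_forall fun x => ?_)
        show y / ((z - x) ^ 2 + y ^ 2) = y * (1 / ((z - x) ^ 2 + y ^ 2))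
        ring
      rw [h5, integral_const_mul, integral_kernel hy]
      field_simp
    calc _ ≤ ∫⁻ x : ℝ, ENNReal.ofReal (y / ((z - x) ^ 2 + y ^ 2)) := setLIntegral_le_lintegral _ _
      _ = ENNReal.ofReal (∫ x : ℝ, y / ((z - x) ^ 2 + y ^ 2)) :=
          (ofReal_integral_eq_lintegral_ofReal hki (Eventually.of_forall hker)).symm
      _ = ENNReal.ofReal Real.pi := by rw [hkI]
  have hBt : 0 ≤ B / t := by positivity
  rcases le_total (B / t) 1 with h5 | h5
  · refine h1.trans (ENNReal.ofReal_le_ofReal ?_)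
    refine mul_le_mul_of_nonneg_left ?_ (by positivity)
    apply Real.le_sqrt_of_sq_le
    nlinarith
  · refine h2.trans (ENNReal.ofReal_le_ofReal ?_)
    have h6 : 1 ≤ Real.sqrt (B / t) := Real.one_le_sqrt.2 h5
    nlinarith [Real.pi_pos]

theorem stKo (_hSm : Crit.StSm) : StKo := stKo'

end Pool.Agent.Work.MP_055a27_an.Op
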