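import Pool.Agent.Work.MP_055a27_an.Op.Stmts
import Pool.Agent.Work.MP_055a27_an.Bd.B04

/-! # Item NSq: change of aperture with a logarithmic constant -/

set_option autoImplicit false

open MeasureTheory Set Filter Topology Complex Metric
open scoped ENNReal NNReal

namespace Pool.Agent.Work.MP_055a27_an.Op

namespace NSq

/-- Horizontal movement with the logarithmic bound. -/
lemma horizLog {f : ℝ → ℝ} (hf : Admissible f) {x y σ b r lam A : ℝ} (hy : 0 < y)
    (hσ : |σ| = 1) (hbr : b ≤ r) (hr : r < lam)
    (hB : ∀ a : ℝ, b ≤ a → a ≤ r →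
      ‖dschw f (((x + σ * a * y : ℝ) : ℂ) + y * I)‖ ≤ A / ((lam - a) * y)) :
    |poisson f (x + σ * r * y) y - poisson f (x + σ * b * y) y| ≤
      A * Real.log ((lam - b) / (lam - r)) := by
  set F : ℝ → ℂ := fun s => schw f (((x + σ * s * y : ℝ) : ℂ) + y * I) -
    schw f (((x + σ * b * y : ℝ) : ℂ) + y * I) with hF
  have h1 : ∀ s : ℝ, HasDerivAt F (dschw f (((x + σ * s * y : ℝ) : ℂ) + y * I) * (σ * y : ℝ)) s := by
    intro s
    have h2 : HasDerivAt (schw f) (dschw f (((x + σ * s * y : ℝ) : ℂ) + y * I))
        (((x + σ * s * y : ℝ) : ℂ) + y * I) :=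
      hasDerivAt_schw hf (by simpa using hy)
    have h3 : HasDerivAt (fun s : ℝ => (((x + σ * s * y : ℝ) : ℂ) + y * I)) ((σ * y : ℝ) : ℂ) s := by
      have h4 : HasDerivAt (fun s : ℝ => x + σ * s * y) (σ * y) s := by
        have h5 := (((hasDerivAt_id s).const_mul σ).mul_const y).const_add x
        simpa using h5
      exact (h4.ofReal_comp).add_const _
    exact (h2.comp_of_eq s h3 rfl).sub_const _
  have hpos : ∀ s : ℝ, s ≤ r → 0 < lam - s := fun s hs => by linarith
  have h6 : ‖F r‖ ≤ A * (Real.log (lam - b) - Real.log (lam - r)) := by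
    refine image_norm_le_of_norm_deriv_right_le_deriv_boundary' (a := b) (b := r)
      (f := F) (f' := fun s => dschw f (((x + σ * s * y : ℝ) : ℂ) + y * I) * (σ * y : ℝ))
      (B := fun s => A * (Real.log (lam - b) - Real.log (lam - s)))
      (B' := fun s => A / (lam - s)) ?_ ?_ ?_ ?_ ?_ ?_ ⟨hbr, le_rfl⟩
    · exact fun s _ => (h1 s).continuousAt.continuousWithinAt
    · exact fun s _ => (h1 s).hasDerivWithinAt
    · simp [hF]
    · intro s hs
      apply ContinuousAt.continuousWithinAt
      have h7 : lam - s ≠ 0 := (hpos s hs.2).ne'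
      fun_prop (disch := assumption)
    · intro s hs
      have h7 : lam - s ≠ 0 := (hpos s hs.2.le).ne'
      have h8 : HasDerivAt (fun s : ℝ => lam - s) (-1) s := by
        simpa using (hasDerivAt_id s).const_sub lam
      have h9 := ((h8.log h7).const_sub (Real.log (lam - b))).const_mul A
      have h10 : A * -(-1 / (lam - s)) = A / (lam - s) := by ring
      rw [h10] at h9
      exact h9.hasDerivWithinAt
    · intro s hs
      have h7 := hpos s hs.2.le
      rw [norm_mul, Complex.norm_real, Real.norm_eq_abs, abs_mul, hσ, one_mul, abs_of_pos hy]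
      calc ‖dschw f (((x + σ * s * y : ℝ) : ℂ) + y * I)‖ * y
          ≤ A / ((lam - s) * y) * y := by
            gcongr
            exact hB s hs.1 hs.2.le
        _ = A / (lam - s) := by field_simp
  have h11 : Real.log ((lam - b) / (lam - r)) = Real.log (lam - b) - Real.log (lam - r) :=
    Real.log_div (hpos b hbr).ne' (hpos r le_rfl).ne'
  rw [h11]
  refine le_trans ?_ h6
  rw [poisson_eq_re hf hy, poisson_eq_re hf hy, ← Complex.sub_re]
  exact Complex.abs_re_le_norm _

end NSq

/-- Change of aperture with a logarithmic constant. -/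
theorem stNSq : StNSq := by
  intro lam b hb hblam
  have hlam0 : 0 < lam := hb.trans hblam
  refine ⟨1 + lam, by linarith, fun lam2 hlam2 hlam f hf x => ?_⟩
  have hlog : 0 ≤ Real.log ((lam - b) / (lam - lam2)) := by
    apply Real.log_nonneg
    rw [le_div_iff₀ (by linarith)]
    linarith
  by_cases hA : areaFn lam f x = ∞
  · rw [hA, ENNReal.mul_top]
    · simp
    · rw [Ne, ENNReal.ofReal_eq_zero, not_le]
      positivity
  set A : ℝ≥0∞ := areaFn lam f x with hAdef
  -- gradient bound
  have grad : ∀ a s y : ℝ, 0 < y → 0 < a → a < lam → |x - s| ≤ a * y →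
      ‖dschw f (s + y * I)‖ ≤ A.toReal * (1 + lam) / ((lam - a) * y) := by
    intro a s y hy ha0 ha hs
    set κ : ℝ := (lam - a) / (1 + lam) with hκ
    have hκ0 : 0 < κ := div_pos (by linarith) (by linarith)
    have hκ1 : κ < 1 := by
      rw [hκ, div_lt_one (by linarith)]
      linarith
    have hκ2 : a + κ = lam * (1 - κ) := by
      rw [hκ]
      field_simp
      ring
    have h1 := Crit.NS.grad_area hf (lam := lam) (x := x) (s := s) (y := y) (ρ := κ * y) hlam0
      (by positivity) (by nlinarith) (by nlinarith)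
    have h2 : (∫⁻ q in cone lam x, ENNReal.ofReal (gradSq f q.1 q.2)) = A ^ (2 : ℝ) := by
      rw [hAdef, areaFn, ← ENNReal.rpow_mul]
      norm_num
    have h3 : ENNReal.ofReal (κ * y * ‖dschw f (s + y * I)‖) ≤ A := by
      have h4 : ENNReal.ofReal (κ * y * ‖dschw f (s + y * I)‖) ^ (2 : ℝ) ≤ A ^ (2 : ℝ) := by
        rw [← h2]
        refine le_trans (le_of_eq ?_) h1
        rw [ENNReal.rpow_ofNat, ← ENNReal.ofReal_pow (by positivity)]
        congr 1
        ring
      exact (ENNReal.rpow_le_rpow_iff (by norm_num)).1 h4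
    rw [ENNReal.ofReal_le_iff_le_toReal hA] at h3
    have h5 : A.toReal * (1 + lam) / ((lam - a) * y) = A.toReal / (κ * y) := by
      rw [hκ]
      have : lam - a ≠ 0 := by linarith
      field_simp
    rw [h5, le_div_iff₀ (by positivity)]
    linarith
  conv_lhs => unfold ntMax
  refine iSup_le fun z0 => iSup_le fun y => iSup_le fun hy => ?_
  obtain ⟨hy0, hz0⟩ := hy
  set z : ℝ := x - z0 with hz
  have hxz : |x - z| ≤ lam2 * y := by rw [hz, sub_sub_cancel]; exact hz0
  by_cases hcase : |x - z| ≤ b * y
  · exact (le_ntMax hy0 hcase).trans le_self_add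
  push Not at hcase
  obtain ⟨σ, hσ, hσz⟩ : ∃ σ : ℝ, |σ| = 1 ∧ z - x = σ * |x - z| := by
    rcases le_total x z with h | h
    · exact ⟨1, by simp, by rw [abs_sub_comm, abs_of_nonneg (by linarith)]; ring⟩
    · exact ⟨-1, by simp, by rw [abs_of_nonneg (by linarith)]; ring⟩
  set r : ℝ := |x - z| / y with hr
  have hry : r * y = |x - z| := by rw [hr]; field_simp
  have hbr : b ≤ r := by rw [hr, le_div_iff₀ hy0]; exact hcase.le
  have hr2 : r ≤ lam2 := by rw [hr, div_le_iff₀ hy0]; exact hxz
  have hzr : x + σ * r * y = z := by rw [mul_assoc, hry, ← hσz]; ring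
  have h7 := NSq.horizLog hf (x := x) (σ := σ) (b := b) (r := r) (lam := lam)
    (A := A.toReal * (1 + lam)) hy0 hσ hbr (by linarith) (fun a ha1 ha2 => by
      refine grad a _ y hy0 (by linarith) (by linarith) (le_of_eq ?_)
      have : x - (x + σ * a * y) = -(σ * (a * y)) := by ring
      rw [this, abs_neg, abs_mul, hσ, one_mul, abs_of_pos]
      have : 0 < a := by linarith
      positivity)
  rw [hzr] at h7
  have hb1 : |x - (x + σ * b * y)| ≤ b * y := by
    have : x - (x + σ * b * y) = -(σ * (b * y)) := by ring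
    rw [this, abs_neg, abs_mul, hσ, one_mul, abs_of_pos (by positivity)]
  have hlog2 : Real.log ((lam - b) / (lam - r)) ≤ Real.log ((lam - b) / (lam - lam2)) := by
    apply Real.log_le_log
    · exact div_pos (by linarith) (by linarith)
    · apply div_le_div_of_nonneg_left (by linarith) (by linarith) (by linarith)
  have h8 : |poisson f z y| ≤ |poisson f (x + σ * b * y) y| +
      (1 + lam) * (1 + Real.log ((lam - b) / (lam - lam2))) * A.toReal := by
    have h9 : |poisson f z y| ≤ |poisson f (x + σ * b * y) y| +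
        |poisson f z y - poisson f (x + σ * b * y) y| := by
      have := abs_sub_abs_le_abs_sub (poisson f z y) (poisson f (x + σ * b * y) y)
      linarith
    have hA0 : 0 ≤ A.toReal := ENNReal.toReal_nonneg
    have h10 : A.toReal * (1 + lam) * Real.log ((lam - b) / (lam - r)) ≤
        (1 + lam) * (1 + Real.log ((lam - b) / (lam - lam2))) * A.toReal := by
      have h11 : A.toReal * (1 + lam) * Real.log ((lam - b) / (lam - r)) ≤
          A.toReal * (1 + lam) * (1 + Real.log ((lam - b) / (lam - lam2))) := by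
        gcongr
        linarith
      linarith
    linarith
  calc ENNReal.ofReal |poisson f z y|
      ≤ ENNReal.ofReal (|poisson f (x + σ * b * y) y| +
          (1 + lam) * (1 + Real.log ((lam - b) / (lam - lam2))) * A.toReal) :=
        ENNReal.ofReal_le_ofReal h8
    _ = ENNReal.ofReal |poisson f (x + σ * b * y) y| +
        ENNReal.ofReal ((1 + lam) * (1 + Real.log ((lam - b) / (lam - lam2)))) * A := by
        rw [ENNReal.ofReal_add (abs_nonneg _) (by positivity), ENNReal.ofReal_mul (by positivity),
          ENNReal.ofReal_toReal hA]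
    _ ≤ ntMax b f x + ENNReal.ofReal ((1 + lam) * (1 + Real.log ((lam - b) / (lam - lam2)))) * A := by
        gcongr
        exact le_ntMax hy0 hb1

end Pool.Agent.Work.MP_055a27_an.Op
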