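import Pool.Agent.Work.MP_055a27_an.Op.Stmts
import Pool.Agent.Work.MP_055a27_an.Crit.TFUp
import Pool.Agent.Work.MP_055a27_an.Bd.B06

/-!
# Item Qm: the Carleson condition implies quasi monotonicity
-/

set_option autoImplicit false

open MeasureTheory Set Filter Topology Complex Metric
open scoped ENNReal NNReal

namespace Pool.Agent.Work.MP_055a27_an.Op

open Crit (lg cc CC NTc Nice NI)
open Cr3 (Wt Sh)

namespace Qm

/-! ### The semigroup property -/

lemma ker_re {u τ : ℝ} (hτ : 0 < τ) (z y : ℝ) (hy : 0 ≤ y) :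
    (I / ((z : ℂ) + y * I - u + τ * I)).re = (y + τ) / ((z - u) ^ 2 + (y + τ) ^ 2) := by
  have h2 : ((z : ℂ) + y * I - u + τ * I) = ⟨z - u, y + τ⟩ := by
    apply Complex.ext <;> simp
  rw [h2, Complex.div_re]
  simp only [I_re, I_im, Complex.normSq_apply]
  have hpos : (z - u) ^ 2 + (y + τ) ^ 2 ≠ 0 := by positivity
  have hpos' : (z - u) * (z - u) + (y + τ) * (y + τ) ≠ 0 := by
    rw [← sq, ← sq]; exact hpos
  field_simp
  ring

lemma ker_semi {y τ : ℝ} (hy : 0 < y) (hτ : 0 < τ) (z u : ℝ) :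
    ∫ x : ℝ, (y / ((z - x) ^ 2 + y ^ 2)) * (τ / ((x - u) ^ 2 + τ ^ 2)) =
      Real.pi * ((y + τ) / ((z - u) ^ 2 + (y + τ) ^ 2)) := by
  have hne : ∀ ζ : ℂ, 0 ≤ ζ.im → ζ - u + τ * I ≠ 0 := by
    intro ζ hζ h
    have : (ζ - u + τ * I).im = 0 := by rw [h]; simp
    simp at this
    linarith
  have hd : ∀ ζ : ℂ, 0 ≤ ζ.im → DifferentiableAt ℂ (fun ζ : ℂ => I / (ζ - u + τ * I)) ζ := by
    intro ζ hζ
    exact (differentiableAt_const _).div (by fun_prop) (hne ζ hζ)
  have hb : ∀ ζ : ℂ, 0 ≤ ζ.im → ‖(fun ζ : ℂ => I / (ζ - u + τ * I)) ζ‖ ≤ 1 / τ := by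
    intro ζ hζ
    simp only [norm_div, norm_I]
    refine one_div_le_one_div_of_le hτ ?_
    have h := Complex.abs_im_le_norm (ζ - u + τ * I)
    simp at h
    exact le_trans (le_trans (by linarith) (le_abs_self _)) h
  have key := poisson_re hd hb (z := z) hy
  rw [poisson_eq_integral, ker_re hτ z y hy.le] at key
  have h3 : ∀ t : ℝ, (I / ((t : ℂ) - u + τ * I)).re = τ / ((t - u) ^ 2 + τ ^ 2) := by
    intro t
    have := ker_re (u := u) hτ t 0 le_rfl
    simpa using this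
  simp only [h3] at key
  have hpi := Real.pi_pos
  rw [← key]
  rw [← mul_assoc, mul_one_div_cancel hpi.ne', one_mul]
  refine integral_congr_ae (Eventually.of_forall fun x => ?_)
  simp only
  ring

lemma int_ker {y : ℝ} (hy : 0 < y) (z : ℝ) :
    Integrable (fun x : ℝ => y / ((z - x) ^ 2 + y ^ 2)) volume := by
  refine ((integrable_kernel (z := z) hy).const_mul y).congr (Eventually.of_forall fun x => ?_)
  simp only
  ring

lemma semi {v : ℝ → ℝ} (hv : Admissible v) {y τ : ℝ} (hy : 0 < y) (hτ : 0 < τ) (z s : ℝ) :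
    Integrable (fun x : ℝ => (y / ((z - x) ^ 2 + y ^ 2)) * poisson v (x + s) τ) volume ∧
    ∫ x : ℝ, (y / ((z - x) ^ 2 + y ^ 2)) * poisson v (x + s) τ =
      Real.pi * poisson v (z + s) (y + τ) := by
  have hpi := Real.pi_pos
  set Φ : ℝ × ℝ → ℝ := fun q => v q.2 * ((y / ((z - q.1) ^ 2 + y ^ 2)) *
    (τ / ((q.1 - (q.2 - s)) ^ 2 + τ ^ 2))) with hΦ
  have hvm := adm_measurable hv
  have hΦm : AEStronglyMeasurable Φ ((volume : Measure ℝ).prod volume) := by
    apply AEStronglyMeasurable.mul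
    · exact hvm.comp_snd
    · apply Measurable.aestronglyMeasurable
      fun_prop
  have hk1 : ∀ u : ℝ, Integrable (fun x : ℝ => (y / ((z - x) ^ 2 + y ^ 2)) *
      (τ / ((x - u) ^ 2 + τ ^ 2))) volume := by
    intro u
    refine (int_ker hy z).mul_bdd (c := 1 / τ) ?_ (Eventually.of_forall fun x => ?_)
    · apply Measurable.aestronglyMeasurable
      fun_prop
    · have h1 : 0 < (x - u) ^ 2 + τ ^ 2 := by positivity
      rw [Real.norm_eq_abs, abs_of_nonneg (by positivity), div_le_div_iff₀ h1 hτ]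
      nlinarith [sq_nonneg (x - u)]
  have hΦi : Integrable Φ ((volume : Measure ℝ).prod volume) := by
    rw [integrable_prod_iff' hΦm]
    constructor
    · refine Eventually.of_forall fun t => ?_
      exact (hk1 (t - s)).const_mul (v t)
    · have h1 : ∀ t : ℝ, ∫ x : ℝ, ‖Φ (x, t)‖ =
          Real.pi * |(y + τ) * v t / (((z + s) - t) ^ 2 + (y + τ) ^ 2)| := by
        intro t
        have h2 : ∀ x : ℝ, ‖Φ (x, t)‖ = |v t| * ((y / ((z - x) ^ 2 + y ^ 2)) *
            (τ / ((x - (t - s)) ^ 2 + τ ^ 2))) := by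
          intro x
          simp only [hΦ]
          rw [Real.norm_eq_abs, abs_mul]
          congr 1
          exact abs_of_nonneg (by positivity)
        simp only [h2]
        rw [integral_const_mul, ker_semi hy hτ, abs_div, abs_mul,
          abs_of_pos (show (0 : ℝ) < y + τ by positivity),
          abs_of_pos (show (0 : ℝ) < (z + s - t) ^ 2 + (y + τ) ^ 2 by positivity)]
        have h3 : z - (t - s) = z + s - t := by ring
        rw [h3]
        ring
      simp only [h1]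
      exact (Crit.TFUp.integrable_pois hv (z := z + s)
        (show (0 : ℝ) < y + τ by positivity)).abs.const_mul _
  have hin : ∀ x : ℝ, ∫ t : ℝ, Φ (x, t) =
      Real.pi * ((y / ((z - x) ^ 2 + y ^ 2)) * poisson v (x + s) τ) := by
    intro x
    rw [poisson_eq_integral]
    simp only [hΦ]
    have h4 : ∀ t : ℝ, v t * ((y / ((z - x) ^ 2 + y ^ 2)) * (τ / ((x - (t - s)) ^ 2 + τ ^ 2))) =
        (y / ((z - x) ^ 2 + y ^ 2)) * (τ * v t / ((x + s - t) ^ 2 + τ ^ 2)) := by
      intro t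
      have h3 : x - (t - s) = x + s - t := by ring
      rw [h3]
      ring
    simp only [h4]
    rw [integral_const_mul]
    field_simp
  have hleft := hΦi.integral_prod_left
  have hsw := integral_integral_swap (f := fun x t => Φ (x, t)) hΦi
  simp only [hin] at hleft hsw
  have hout : ∀ t : ℝ, ∫ x : ℝ, Φ (x, t) =
      Real.pi * ((y + τ) * v t / (((z + s) - t) ^ 2 + (y + τ) ^ 2)) := by
    intro t
    simp only [hΦ]
    rw [integral_const_mul, ker_semi hy hτ]
    have h3 : z - (t - s) = z + s - t := by ring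
    rw [h3]
    ring
  simp only [hout] at hsw
  rw [integral_const_mul, integral_const_mul] at hsw
  constructor
  · refine (hleft.const_mul (Real.pi⁻¹)).congr (Eventually.of_forall fun x => ?_)
    simp only
    rw [← mul_assoc, inv_mul_cancel₀ hpi.ne', one_mul]
  · have h5 := mul_left_cancel₀ hpi.ne' hsw
    rw [h5, poisson_eq_integral]
    field_simp

/-! ### The integral bound -/

lemma bound {Λ : ℝ} (hΛ : 0 < Λ) {U : ℝ → ℝ} {K μ a0 : ℝ} (hW : Wt U) (hμ : μ ≤ Λ)
    (ha1 : a0 < μ) (hK : 1 ≤ K) (hC : CCK μ K U) {a τ z y : ℝ}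
    (ha : |a| ≤ a0) (hτ : 0 < τ) (hτy : τ ≤ y) :
    ∫⁻ x, ENNReal.ofReal (y / ((z - x) ^ 2 + y ^ 2)) *
      ENNReal.ofReal (U x * Real.exp (-poisson (lg U) (x + a * τ) τ)) ≤
        ENNReal.ofReal ((16 + 32 * Λ) * K) := by
  have hy : 0 < y := lt_of_lt_of_le hτ hτy
  set h : ℝ → ℝ≥0∞ := fun x => ENNReal.ofReal (U x * Real.exp (-poisson (lg U) (x + a * τ) τ))
    with hh
  set A : ℕ → Set ℝ := fun j => {x : ℝ | y / ((z - x) ^ 2 + y ^ 2) ≤ 4 * (1 / 4) ^ j / y ∧
    |x - z| ≤ 2 ^ j * y} with hA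
  have hAm : ∀ j, MeasurableSet (A j) := by
    intro j
    have h1 : MeasurableSet {x : ℝ | y / ((z - x) ^ 2 + y ^ 2) ≤ 4 * (1 / 4) ^ j / y} :=
      measurableSet_le (by fun_prop) (by fun_prop)
    have h2 : MeasurableSet {x : ℝ | |x - z| ≤ 2 ^ j * y} :=
      measurableSet_le (by fun_prop) (by fun_prop)
    exact h1.inter h2
  have hcov : (⋃ j, A j) = univ := by
    apply eq_univ_of_forall
    intro x
    rw [mem_iUnion]
    have hex : ∃ j : ℕ, |x - z| ≤ 2 ^ j * y := by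
      obtain ⟨j, hj⟩ := pow_unbounded_of_one_lt (|x - z| / y) (by norm_num : (1 : ℝ) < 2)
      refine ⟨j, ?_⟩
      rw [div_lt_iff₀ hy] at hj
      exact hj.le
    classical
    refine ⟨Nat.find hex, ?_, Nat.find_spec hex⟩
    rcases Nat.eq_zero_or_pos (Nat.find hex) with h0 | h0
    · rw [h0, pow_zero, mul_one, div_le_div_iff₀ (by positivity) hy]
      nlinarith [sq_nonneg (z - x)]
    · have hmin := Nat.find_min hex (Nat.sub_lt h0 one_pos)
      rw [not_le] at hmin
      obtain ⟨n, hn⟩ : ∃ n, Nat.find hex = n + 1 := ⟨Nat.find hex - 1, by omega⟩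
      rw [hn, Nat.add_sub_cancel] at hmin
      rw [hn, pow_succ (1 / 4 : ℝ) n, div_le_div_iff₀ (by positivity) hy]
      have h2 : (2 ^ n * y) ^ 2 ≤ (z - x) ^ 2 := by
        rw [← sq_abs (z - x), abs_sub_comm z x]
        exact pow_le_pow_left₀ (by positivity) hmin.le 2
      have h3 : (2 ^ n * y) ^ 2 = 4 ^ n * y ^ 2 := by
        rw [mul_pow, ← pow_mul, mul_comm n 2, pow_mul]
        norm_num
      have h4 : (1 / 4 : ℝ) ^ n * 4 ^ n = 1 := by
        rw [← mul_pow]; norm_num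
      have h5 : (0 : ℝ) < (1 / 4) ^ n := by positivity
      calc y * y = (1 / 4 : ℝ) ^ n * (4 ^ n * y ^ 2) := by
            rw [← mul_assoc, h4]; ring
        _ ≤ (1 / 4 : ℝ) ^ n * ((z - x) ^ 2 + y ^ 2) := by
            apply mul_le_mul_of_nonneg_left _ h5.le
            rw [← h3]
            nlinarith [sq_nonneg y]
        _ = _ := by ring
  have hlen : ∀ j : ℕ, (z + 2 ^ j * y + 2 * Λ * τ) - (z - 2 ^ j * y - 2 * Λ * τ) ≤
      (2 + 4 * Λ) * (2 ^ j * y) := by
    intro j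
    have h1 : (1 : ℝ) ≤ 2 ^ j := one_le_pow₀ (by norm_num)
    have h2 : τ ≤ 2 ^ j * y := by nlinarith
    nlinarith
  have hj : ∀ j : ℕ, ∫⁻ x in A j, ENNReal.ofReal (y / ((z - x) ^ 2 + y ^ 2)) * h x ≤
      ENNReal.ofReal ((8 + 16 * Λ) * K * (1 / 2) ^ j) := by
    intro j
    have hlt : z - 2 ^ j * y - 2 * Λ * τ < z + 2 ^ j * y + 2 * Λ * τ := by
      have : 0 < 2 ^ j * y := by positivity
      have : 0 < Λ * τ := by positivity
      linarith
    have hsub : A j ⊆ Icc (z - 2 ^ j * y - 2 * Λ * τ) (z + 2 ^ j * y + 2 * Λ * τ) := by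
      intro x hx
      have h1 := abs_le.1 hx.2
      have : 0 < Λ * τ := by positivity
      constructor <;> linarith [h1.1, h1.2]
    have hpt : ∀ x ∈ A j, h x ≤ cc μ (z - 2 ^ j * y - 2 * Λ * τ) (z + 2 ^ j * y + 2 * Λ * τ) U x *
        ENNReal.ofReal (U x) := by
      intro x hx
      have h1 := abs_le.1 hx.2
      have ha2 : |a| * τ ≤ Λ * τ := mul_le_mul_of_nonneg_right (by linarith) hτ.le
      have hμτ : μ * τ ≤ Λ * τ := mul_le_mul_of_nonneg_right hμ hτ.le
      have ha3 : |a * τ| ≤ Λ * τ := by rw [abs_mul, abs_of_pos hτ]; exact ha2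
      have ha4 := abs_le.1 ha3
      simp only [hh]
      rw [ENNReal.ofReal_mul (hW.1.1 x), mul_comm]
      refine mul_le_mul_left ?_ _
      unfold cc
      refine le_iSup_of_le (x + a * τ) (le_iSup_of_le τ (le_iSup_of_le ⟨hτ, ?_, ?_, ?_⟩ le_rfl))
      · have h5 : x - (x + a * τ) = -(a * τ) := by ring
        rw [h5, abs_neg, abs_mul, abs_of_pos hτ]
        exact mul_lt_mul_of_pos_right (by linarith) hτ
      · linarith [h1.1, ha4.1]
      · linarith [h1.2, ha4.2]
    calc ∫⁻ x in A j, ENNReal.ofReal (y / ((z - x) ^ 2 + y ^ 2)) * h x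
        ≤ ∫⁻ x in A j, ENNReal.ofReal (4 * (1 / 4) ^ j / y) *
          (cc μ (z - 2 ^ j * y - 2 * Λ * τ) (z + 2 ^ j * y + 2 * Λ * τ) U x *
            ENNReal.ofReal (U x)) := by
          refine setLIntegral_mono' (hAm j) fun x hx => ?_
          exact mul_le_mul' (ENNReal.ofReal_le_ofReal hx.1) (hpt x hx)
      _ = ENNReal.ofReal (4 * (1 / 4) ^ j / y) * ∫⁻ x in A j,
          (cc μ (z - 2 ^ j * y - 2 * Λ * τ) (z + 2 ^ j * y + 2 * Λ * τ) U x *
            ENNReal.ofReal (U x)) := lintegral_const_mul' _ _ ENNReal.ofReal_ne_top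
      _ ≤ ENNReal.ofReal (4 * (1 / 4) ^ j / y) *
          ENNReal.ofReal (K * ((z + 2 ^ j * y + 2 * Λ * τ) - (z - 2 ^ j * y - 2 * Λ * τ))) := by
          refine mul_le_mul_right ?_ _
          exact (lintegral_mono_set hsub).trans (hC _ _ hlt)
      _ = ENNReal.ofReal ((4 * (1 / 4) ^ j / y) *
          (K * ((z + 2 ^ j * y + 2 * Λ * τ) - (z - 2 ^ j * y - 2 * Λ * τ)))) :=
          (ENNReal.ofReal_mul (by positivity)).symm
      _ ≤ _ := by
          apply ENNReal.ofReal_le_ofReal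
          calc (4 * (1 / 4) ^ j / y) *
              (K * ((z + 2 ^ j * y + 2 * Λ * τ) - (z - 2 ^ j * y - 2 * Λ * τ)))
              ≤ (4 * (1 / 4) ^ j / y) * (K * ((2 + 4 * Λ) * (2 ^ j * y))) := by
                apply mul_le_mul_of_nonneg_left _ (by positivity)
                apply mul_le_mul_of_nonneg_left (hlen j) (by linarith)
            _ = (8 + 16 * Λ) * K * ((1 / 4) ^ j * 2 ^ j) := by
                field_simp
                ring
            _ = (8 + 16 * Λ) * K * (1 / 2) ^ j := by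
                rw [← mul_pow]; norm_num
  calc ∫⁻ x, ENNReal.ofReal (y / ((z - x) ^ 2 + y ^ 2)) * h x
      = ∫⁻ x in ⋃ j, A j, ENNReal.ofReal (y / ((z - x) ^ 2 + y ^ 2)) * h x := by
        rw [hcov, setLIntegral_univ]
    _ ≤ ∑' j, ∫⁻ x in A j, ENNReal.ofReal (y / ((z - x) ^ 2 + y ^ 2)) * h x :=
        lintegral_iUnion_le _ _
    _ ≤ ∑' j : ℕ, ENNReal.ofReal ((8 + 16 * Λ) * K * (1 / 2) ^ j) := ENNReal.tsum_le_tsum hj
    _ = ENNReal.ofReal (∑' j : ℕ, (8 + 16 * Λ) * K * (1 / 2) ^ j) := by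
        rw [ENNReal.ofReal_tsum_of_nonneg]
        · intro j; positivity
        · exact (summable_geometric_two).mul_left _
    _ = _ := by
        rw [tsum_mul_left, tsum_geometric_two]
        congr 1
        ring

end Qm

open Qm in
theorem stQm : StQm := by
  intro b Λ hb hbΛ
  have hΛ : 0 < Λ := hb.trans hbΛ
  refine ⟨16 + 32 * Λ, by linarith, ?_⟩
  intro U K μ a0 hW hbμ hμ ha0 ha1 hK hC
  have hbound : ∀ a τ z y : ℝ, |a| ≤ a0 → 0 < τ → τ ≤ y →
      ∫⁻ x, ENNReal.ofReal (y / ((z - x) ^ 2 + y ^ 2)) *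
        ENNReal.ofReal (U x * Real.exp (-poisson (lg U) (x + a * τ) τ)) ≤
          ENNReal.ofReal ((16 + 32 * Λ) * K) := fun a τ z y ha hτ hτy =>
    bound hΛ hW hμ ha1 hK hC ha hτ hτy
  refine ⟨?_, hbound⟩
  intro a τ z y ha hτ hτy
  have hy : 0 < y := lt_of_lt_of_le hτ hτy
  have hpi := Real.pi_pos
  obtain ⟨⟨hU0, hUl⟩, hUp, hadm⟩ := hW
  obtain ⟨B, hB⟩ : ∃ B, B = (16 + 32 * Λ) * K := ⟨_, rfl⟩
  have hB1 : 1 ≤ B := by rw [hB]; nlinarith
  have hB0 : 0 < B := by linarith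
  have hbd := hbound a τ z y ha hτ hτy
  rw [← hB] at hbd ⊢
  obtain ⟨hs1, hs2⟩ := semi hadm hy hτ z (a * τ)
  set g : ℝ → ℝ := fun x => poisson (lg U) (x + a * τ) τ with hg
  have hgm : Continuous g := by
    have h1 := Crit.stPCont (lg U) hadm
    have h2 : Continuous fun x : ℝ => ((x + a * τ, τ) : ℝ × ℝ) := by fun_prop
    exact h1.comp_continuous h2 fun x => hτ
  set w : ℝ → ℝ := fun x => U x * Real.exp (-g x) with hw
  have hwm : AEStronglyMeasurable w volume :=
    hUl.aestronglyMeasurable.mul (by fun_prop : Continuous fun x => Real.exp (-g x)).aestronglyMeasurable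
  have hw0 : ∀ x, 0 ≤ w x := fun x => mul_nonneg (hU0 x) (Real.exp_pos _).le
  have hkm : Measurable fun x : ℝ => y / ((z - x) ^ 2 + y ^ 2) := by fun_prop
  have hk0 : ∀ x : ℝ, 0 ≤ y / ((z - x) ^ 2 + y ^ 2) := fun x => by positivity
  have hlin : ∫⁻ x, ENNReal.ofReal (y / ((z - x) ^ 2 + y ^ 2) * w x) ≤ ENNReal.ofReal B := by
    refine le_trans (le_of_eq ?_) hbd
    refine lintegral_congr fun x => ?_
    rw [ENNReal.ofReal_mul (hk0 x)]
  have hkw : Integrable (fun x : ℝ => y / ((z - x) ^ 2 + y ^ 2) * w x) volume := by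
    refine ⟨hkm.aestronglyMeasurable.mul hwm, ?_⟩
    rw [hasFiniteIntegral_iff_ofReal (Eventually.of_forall fun x => mul_nonneg (hk0 x) (hw0 x))]
    exact lt_of_le_of_lt hlin ENNReal.ofReal_lt_top
  have hkwI : ∫ x : ℝ, y / ((z - x) ^ 2 + y ^ 2) * w x ≤ B := by
    rw [integral_eq_lintegral_of_nonneg_ae
      (Eventually.of_forall fun x => mul_nonneg (hk0 x) (hw0 x)) hkw.aestronglyMeasurable]
    exact ENNReal.toReal_le_of_le_ofReal hB0.le hlin
  have hkv := Crit.TFUp.integrable_pois hadm (z := z) hy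
  have hkk := int_ker hy z
  have hkki : ∫ x : ℝ, y / ((z - x) ^ 2 + y ^ 2) = Real.pi := by
    have h1 := integral_kernel (z := z) hy
    have h2 : ∫ x : ℝ, y / ((z - x) ^ 2 + y ^ 2) = y * ∫ x : ℝ, 1 / ((z - x) ^ 2 + y ^ 2) := by
      rw [← integral_const_mul]
      refine integral_congr_ae (Eventually.of_forall fun x => ?_)
      simp only
      ring
    rw [h2, h1]
    field_simp
  have hlog : ∀ᵐ x : ℝ, y * lg U x / ((z - x) ^ 2 + y ^ 2) ≤
      y / ((z - x) ^ 2 + y ^ 2) * g x + (Real.log B - 1) * (y / ((z - x) ^ 2 + y ^ 2)) +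
        B⁻¹ * (y / ((z - x) ^ 2 + y ^ 2) * w x) := by
    filter_upwards [hUp] with x hx
    have hwx : 0 < w x := mul_pos hx (Real.exp_pos _)
    have h1 := Real.log_le_sub_one_of_pos (div_pos hwx hB0)
    rw [Real.log_div hwx.ne' hB0.ne'] at h1
    have h2 : Real.log (w x) = lg U x - g x := by
      simp only [hw]
      rw [Real.log_mul hx.ne' (Real.exp_pos _).ne', Real.log_exp]
      unfold lg
      ring
    rw [h2] at h1
    have h3 : lg U x ≤ g x + (Real.log B - 1) + B⁻¹ * w x := by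
      rw [div_eq_mul_inv] at h1
      linarith
    have h4 := mul_le_mul_of_nonneg_left h3 (hk0 x)
    calc y * lg U x / ((z - x) ^ 2 + y ^ 2) = y / ((z - x) ^ 2 + y ^ 2) * lg U x := by ring
      _ ≤ _ := h4
      _ = _ := by ring
  have h12 : Integrable (fun x : ℝ => y / ((z - x) ^ 2 + y ^ 2) * g x +
      (Real.log B - 1) * (y / ((z - x) ^ 2 + y ^ 2))) volume :=
    hs1.add (hkk.const_mul (Real.log B - 1))
  have h123 : Integrable (fun x : ℝ => y / ((z - x) ^ 2 + y ^ 2) * g x +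
      (Real.log B - 1) * (y / ((z - x) ^ 2 + y ^ 2)) +
      B⁻¹ * (y / ((z - x) ^ 2 + y ^ 2) * w x)) volume := h12.add (hkw.const_mul B⁻¹)
  have hint := integral_mono_ae hkv h123 hlog
  rw [integral_add h12 (hkw.const_mul B⁻¹), integral_add hs1 (hkk.const_mul (Real.log B - 1)),
    integral_const_mul, integral_const_mul, hkki, hs2] at hint
  have hfin : B⁻¹ * ∫ x : ℝ, y / ((z - x) ^ 2 + y ^ 2) * w x ≤ 1 := by
    calc B⁻¹ * ∫ x : ℝ, y / ((z - x) ^ 2 + y ^ 2) * w x ≤ B⁻¹ * B :=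
          mul_le_mul_of_nonneg_left hkwI (by positivity)
      _ = 1 := inv_mul_cancel₀ hB0.ne'
  have hpi1 : 1 ≤ Real.pi := by linarith [Real.pi_gt_three]
  rw [poisson_eq_integral (lg U) z y, one_div, inv_mul_le_iff₀ hpi]
  nlinarith

end Pool.Agent.Work.MP_055a27_an.Op
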