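import Pool.Agent.Work.MP_055a27_an.Op.Stmts
import Pool.Agent.Work.MP_055a27_an.Bd.B06

/-!
# The inequality for the outer test functions
-/

set_option autoImplicit false

open MeasureTheory Set Filter Topology Complex Metric
open scoped ENNReal NNReal

namespace Pool.Agent.Work.MP_055a27_an.Op

open Crit (lg cc CC NTc Nice NI lgT tF2)
open Cr3 (Wt Sh)

namespace Tu

lemma ker0 {w w' : ℂ} {R : ℝ} (hw : 0 < w.im) (h1 : w.im ≤ w'.im) (h2 : ‖w'‖ ≤ R) (t : ℝ) :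
    1 + t ^ 2 ≤ (2 + (1 + 2 * R ^ 2) / w.im ^ 2) * ‖w' - (t : ℂ)‖ ^ 2 := by
  refine (one_add_sq_le hw h1 t).trans ?_
  have h3 : ‖w'‖ ^ 2 ≤ R ^ 2 := pow_le_pow_left₀ (norm_nonneg _) h2 2
  gcongr

lemma ker1 {w' : ℂ} {K R t : ℝ} (hw : 0 < w'.im) (hK : 2 ≤ K) (hR : ‖w'‖ ≤ R)
    (h : 1 + t ^ 2 ≤ K * ‖w' - (t : ℂ)‖ ^ 2) :
    ‖(1 + (t : ℂ) * w') / (w' - t)‖ ≤ K * (1 + R) := by
  have hR0 : 0 ≤ R := (norm_nonneg _).trans hR
  have hpos : 0 < ‖w' - (t : ℂ)‖ := norm_pos_iff.2 (sub_ofReal_ne_zero hw t)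
  have h1 : (1 + |t|) ≤ K * ‖w' - (t : ℂ)‖ := by
    have h2 : (1 + |t|) ^ 2 ≤ 2 * (1 + t ^ 2) := by
      nlinarith [sq_nonneg (1 - |t|), sq_abs t]
    have h3 : (1 + |t|) ^ 2 ≤ (K * ‖w' - (t : ℂ)‖) ^ 2 := by
      calc (1 + |t|) ^ 2 ≤ 2 * (1 + t ^ 2) := h2
        _ ≤ 2 * (K * ‖w' - (t : ℂ)‖ ^ 2) := by linarith
        _ ≤ K * (K * ‖w' - (t : ℂ)‖ ^ 2) := by
          apply mul_le_mul_of_nonneg_right hK
          positivity
        _ = _ := by ring
    exact le_of_sq_le_sq h3 (by positivity)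
  rw [norm_div, div_le_iff₀ hpos]
  have h4 : ‖1 + (t : ℂ) * w'‖ ≤ 1 + |t| * R := by
    calc ‖1 + (t : ℂ) * w'‖ ≤ ‖(1 : ℂ)‖ + ‖(t : ℂ) * w'‖ := norm_add_le _ _
      _ = 1 + |t| * ‖w'‖ := by rw [norm_mul]; simp
      _ ≤ _ := by
        have := mul_le_mul_of_nonneg_left hR (abs_nonneg t)
        linarith
  calc ‖1 + (t : ℂ) * w'‖ ≤ 1 + |t| * R := h4
    _ ≤ (1 + |t|) * (1 + R) := by nlinarith [abs_nonneg t]
    _ ≤ (K * ‖w' - (t : ℂ)‖) * (1 + R) := by
      apply mul_le_mul_of_nonneg_right h1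
      positivity
    _ = _ := by ring

lemma tend_gen {v : ℝ → ℝ} (hv : Admissible v) {vn : ℕ → ℝ → ℝ}
    (hm : ∀ n, AEStronglyMeasurable (vn n) volume) (hb : ∀ n t, |vn n t| ≤ |v t|)
    (hl : ∀ t, Tendsto (fun n => vn n t) atTop (𝓝 (v t))) {w : ℂ} {wn : ℕ → ℂ}
    (hw : 0 < w.im) (hwn : ∀ n, w.im ≤ (wn n).im) {R : ℝ} (hR : ∀ n, ‖wn n‖ ≤ R)
    (ht : Tendsto wn atTop (𝓝 w)) :
    Tendsto (fun n => schw (vn n) (wn n)) atTop (𝓝 (schw v w)) ∧
    Tendsto (fun n => dschw (vn n) (wn n)) atTop (𝓝 (dschw v w)) := by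
  set K : ℝ := 2 + (1 + 2 * R ^ 2) / w.im ^ 2 with hK
  have hK2 : 2 ≤ K := by
    have : 0 ≤ (1 + 2 * R ^ 2) / w.im ^ 2 := by positivity
    linarith
  have hker : ∀ (n : ℕ) (t : ℝ), 1 + t ^ 2 ≤ K * ‖wn n - (t : ℂ)‖ ^ 2 := fun n t =>
    ker0 hw (hwn n) (hR n) t
  have him : ∀ n, 0 < (wn n).im := fun n => hw.trans_le (hwn n)
  have hsub : ∀ t : ℝ, Tendsto (fun n => wn n - (t : ℂ)) atTop (𝓝 (w - t)) := fun t =>
    ht.sub_const _
  have hcv : ∀ t : ℝ, Tendsto (fun n => ((vn n t : ℝ) : ℂ)) atTop (𝓝 ((v t : ℝ) : ℂ)) :=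
    fun t => (Complex.continuous_ofReal.tendsto _).comp (hl t)
  have hcv1 : ∀ t : ℝ, Tendsto (fun n => ((vn n t / (1 + t ^ 2) : ℝ) : ℂ)) atTop
      (𝓝 ((v t / (1 + t ^ 2) : ℝ) : ℂ)) :=
    fun t => (Complex.continuous_ofReal.tendsto _).comp ((hl t).div_const _)
  constructor
  · unfold schw
    apply Tendsto.const_mul
    refine tendsto_integral_of_dominated_convergence
      (fun t => K * (1 + R) * ‖v t / (1 + t ^ 2)‖) ?_ (hv.norm.const_mul _) ?_ ?_
    · intro n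
      apply AEStronglyMeasurable.mul
      · have h1 : AEStronglyMeasurable (fun t : ℝ => (1 + t ^ 2 : ℝ)⁻¹) volume := by
          apply Measurable.aestronglyMeasurable
          fun_prop
        have h2 : AEStronglyMeasurable (fun t : ℝ => vn n t / (1 + t ^ 2)) volume := by
          refine ((hm n).mul h1).congr (Eventually.of_forall fun t => ?_)
          simp only [Pi.mul_apply, div_eq_mul_inv]
        exact (Complex.measurable_ofReal.comp_aemeasurable h2.aemeasurable).aestronglyMeasurable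
      · apply Measurable.aestronglyMeasurable
        apply Measurable.div
        · fun_prop
        · fun_prop
    · intro n
      refine Eventually.of_forall fun t => ?_
      rw [norm_mul, mul_comm]
      have h1 := ker1 (him n) hK2 (hR n) (hker n t)
      have h2 : ‖((vn n t / (1 + t ^ 2) : ℝ) : ℂ)‖ ≤ ‖v t / (1 + t ^ 2)‖ := by
        rw [Complex.norm_real, Real.norm_eq_abs, Real.norm_eq_abs, abs_div, abs_div]
        exact div_le_div_of_nonneg_right (hb n t) (abs_nonneg _)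
      exact mul_le_mul h1 h2 (norm_nonneg _) ((norm_nonneg _).trans h1)
    · refine Eventually.of_forall fun t => ?_
      refine (hcv1 t).mul (Tendsto.div ?_ (hsub t) (sub_ofReal_ne_zero hw t))
      exact (ht.const_mul _).const_add _
  · unfold dschw
    apply Tendsto.const_mul
    refine tendsto_integral_of_dominated_convergence
      (fun t => K * ‖v t / (1 + t ^ 2)‖) ?_ (hv.norm.const_mul _) ?_ ?_
    · intro n
      have h1 : AEStronglyMeasurable (fun t : ℝ => ((wn n - (t : ℂ)) ^ 2)⁻¹) volume := by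
        apply Measurable.aestronglyMeasurable
        fun_prop
      have h2 : AEStronglyMeasurable (fun t : ℝ => ((vn n t : ℝ) : ℂ)) volume :=
        (Complex.measurable_ofReal.comp_aemeasurable (hm n).aemeasurable).aestronglyMeasurable
      refine (h2.mul h1).congr (Eventually.of_forall fun t => ?_)
      simp only [Pi.mul_apply, div_eq_mul_inv]
    · intro n
      refine Eventually.of_forall fun t => ?_
      have hpos : 0 < ‖wn n - (t : ℂ)‖ := norm_pos_iff.2 (sub_ofReal_ne_zero (him n) t)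
      have hp1 : (0 : ℝ) < 1 + t ^ 2 := by positivity
      rw [norm_div, norm_pow, Complex.norm_real, Real.norm_eq_abs, Real.norm_eq_abs, abs_div,
        abs_of_pos hp1, ← mul_div_assoc, div_le_div_iff₀ (by positivity) hp1]
      calc |vn n t| * (1 + t ^ 2) ≤ |v t| * (K * ‖wn n - (t : ℂ)‖ ^ 2) :=
            mul_le_mul (hb n t) (hker n t) hp1.le (abs_nonneg _)
        _ = _ := by ring
    · refine Eventually.of_forall fun t => ?_
      exact (hcv t).div ((hsub t).pow 2) (pow_ne_zero _ (sub_ofReal_ne_zero hw t))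

lemma hasDerivAt_tF2 {U : ℝ → ℝ} (hU : Admissible (lg U)) {M p ε x0 β : ℝ} (k : ℕ)
    (hε : 0 < ε) (hβ : 0 < β) {w : ℂ} (hw : 0 ≤ w.im) :
    HasDerivAt (tF2 U M p ε x0 β k)
      (tF2 U M p ε x0 β k w * (-(dschw (lgT U M) (w + ε * I)) / p +
        -(k : ℂ) / (w - x0 + β * I))) w := by
  have him : 0 < (w + ε * I).im := by
    simp
    linarith
  have h0 : HasDerivAt (fun w : ℂ => w + ε * I) 1 w := (hasDerivAt_id w).add_const _
  have h1 : HasDerivAt (fun w : ℂ => schw (lgT U M) (w + ε * I))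
      (dschw (lgT U M) (w + ε * I)) w := by
    have := (hasDerivAt_schw (Crit.TF.admissible_lgT hU M) him).comp w h0
    rwa [mul_one] at this
  have h2 := ((h1.fun_neg.div_const (p : ℂ)).cexp).fun_mul (hasDerivAt_tF (x0 := x0) hβ k hw)
  unfold tF2
  refine h2.congr_deriv ?_
  ring

lemma hasDerivAt_oF {U : ℝ → ℝ} (hU : Admissible (lg U)) {p z0 y0 : ℝ} (k : ℕ)
    (hy0 : 0 < y0) {w : ℂ} (hw : 0 < w.im) :
    HasDerivAt (oF U p z0 y0 k)
      (oF U p z0 y0 k w * (-(dschw (lg U) w) / p + -(k : ℂ) / (w - z0 + y0 * I))) w := by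
  have h1 := hasDerivAt_schw hU hw
  have h2 := ((h1.fun_neg.div_const (p : ℂ)).cexp).fun_mul
    (hasDerivAt_tF (x0 := z0) hy0 k hw.le)
  unfold oF
  refine h2.congr_deriv ?_
  ring

lemma abs_lgT {U : ℝ → ℝ} (n : ℕ) (t : ℝ) : |lgT U n t| ≤ |lg U t| := by
  unfold lgT
  have hn : (0 : ℝ) ≤ n := Nat.cast_nonneg n
  rcases le_total (-(n : ℝ)) (lg U t) with h | h
  · rw [max_eq_left h]
  · rw [max_eq_right h, abs_neg, abs_of_nonneg hn, abs_of_nonpos (by linarith)]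
    linarith

lemma tend_lgT {U : ℝ → ℝ} (t : ℝ) : Tendsto (fun n : ℕ => lgT U n t) atTop (𝓝 (lg U t)) := by
  refine tendsto_const_nhds.congr' ?_
  obtain ⟨n0, hn0⟩ := exists_nat_ge |lg U t|
  filter_upwards [eventually_ge_atTop n0] with n hn
  have hn1 : |lg U t| ≤ n := hn0.trans (by exact_mod_cast hn)
  unfold lgT
  exact (max_eq_left (by linarith [neg_abs_le (lg U t)])).symm

lemma eps_pos {y0 : ℝ} (hy0 : 0 < y0) (n : ℕ) : 0 < y0 / ((n : ℝ) + 1) := by positivity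

lemma eps_le {y0 : ℝ} (hy0 : 0 < y0) (n : ℕ) : y0 / ((n : ℝ) + 1) ≤ y0 := by
  rw [div_le_iff₀ (by positivity)]
  nlinarith [hy0, (Nat.cast_nonneg n : (0 : ℝ) ≤ n)]

/-- Convergence of the test functions and their derivatives. -/
lemma tend_deriv {U : ℝ → ℝ} (hU : Admissible (lg U)) {p z0 y0 : ℝ} (k : ℕ)
    (hy0 : 0 < y0) {w : ℂ} (hw : 0 < w.im) :
    Tendsto (fun n : ℕ => deriv (tF2 U n p (y0 / ((n : ℝ) + 1)) z0 y0 k) w) atTop
      (𝓝 (deriv (oF U p z0 y0 k) w)) := by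
  have hd : Tendsto (fun n : ℕ => w + ((y0 / ((n : ℝ) + 1) : ℝ) : ℂ) * I) atTop (𝓝 w) := by
    have h3 : Tendsto (fun n : ℕ => y0 / ((n : ℝ) + 1)) atTop (𝓝 0) := by
      have h4 := (tendsto_one_div_add_atTop_nhds_zero_nat (𝕜 := ℝ)).const_mul y0
      simpa [div_eq_mul_inv] using h4
    have h4 : Tendsto (fun n : ℕ => ((y0 / ((n : ℝ) + 1) : ℝ) : ℂ)) atTop (𝓝 ((0 : ℝ) : ℂ)) :=
      (Complex.continuous_ofReal.tendsto _).comp h3
    have h5 := (h4.mul_const I).const_add w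
    simpa using h5
  have hR : ∀ n : ℕ, ‖w + ((y0 / ((n : ℝ) + 1) : ℝ) : ℂ) * I‖ ≤ ‖w‖ + y0 := by
    intro n
    refine (norm_add_le _ _).trans ?_
    rw [norm_mul, norm_I, mul_one, Complex.norm_real, Real.norm_eq_abs,
      abs_of_pos (eps_pos hy0 n)]
    linarith [eps_le hy0 n]
  have him : ∀ n : ℕ, w.im ≤ (w + ((y0 / ((n : ℝ) + 1) : ℝ) : ℂ) * I).im := by
    intro n
    have := eps_pos hy0 n
    rw [Complex.add_im, Complex.im_ofReal_mul, Complex.I_im, mul_one]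
    linarith
  have hm : ∀ n : ℕ, AEStronglyMeasurable (lgT U n) volume := fun n =>
    (adm_measurable hU).sup aestronglyMeasurable_const
  obtain ⟨h1, h2⟩ := tend_gen hU hm abs_lgT tend_lgT hw him hR hd
  have e1 : ∀ n : ℕ, deriv (tF2 U n p (y0 / ((n : ℝ) + 1)) z0 y0 k) w =
      Complex.exp (-(schw (lgT U n) (w + ((y0 / ((n : ℝ) + 1) : ℝ) : ℂ) * I)) / p) *
        tF z0 y0 k w * (-(dschw (lgT U n) (w + ((y0 / ((n : ℝ) + 1) : ℝ) : ℂ) * I)) / p +
        -(k : ℂ) / (w - z0 + y0 * I)) := fun n =>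
    (hasDerivAt_tF2 hU k (eps_pos hy0 n) hy0 hw.le).deriv
  simp_rw [e1]
  rw [(hasDerivAt_oF hU k hy0 hw).deriv]
  unfold oF
  refine Tendsto.mul (Tendsto.mul ?_ tendsto_const_nhds) (Tendsto.add ?_ tendsto_const_nhds)
  · exact (Complex.continuous_exp.tendsto _).comp (h1.neg.div_const _)
  · exact h2.neg.div_const _

end Tu

theorem stTu (hTF : Crit.StTF) (hTFUp : Crit.StTFUp) : StTu := by
  intro lam b p U hb hbl hp hWt hCC hStar
  obtain ⟨hU, -, hA⟩ := hWt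
  obtain ⟨C1, k, hUp⟩ := hTFUp b p U hb hp hU hA hCC
  obtain ⟨C0, hS⟩ := hStar
  refine ⟨C0 * C1, k, fun z0 y0 hy0 => ?_⟩
  obtain ⟨G, hG⟩ : ∃ G : ℕ → ℝ × ℝ → ℝ≥0∞, ∀ n q, G n q = ENNReal.ofReal
      (‖deriv (tF2 U n p (y0 / ((n : ℝ) + 1)) z0 y0 k) (q.1 + q.2 * I)‖ ^ 2) :=
    ⟨fun n q => _, fun _ _ => rfl⟩
  have hGm : ∀ n, Measurable (G n) := by
    intro n
    have : G n = fun q : ℝ × ℝ => ENNReal.ofReal
      (‖deriv (tF2 U n p (y0 / ((n : ℝ) + 1)) z0 y0 k) (q.1 + q.2 * I)‖ ^ 2) :=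
      funext fun q => hG n q
    rw [this]
    have h1 : Measurable (fun q : ℝ × ℝ => ((q.1 : ℂ) + q.2 * I)) := by fun_prop
    exact (((measurable_deriv _).comp h1).norm.pow_const 2).ennreal_ofReal
  -- the area function of the real part
  have har : ∀ (n : ℕ) (x : ℝ), (areaFn lam (fun t : ℝ =>
      (tF2 U n p (y0 / ((n : ℝ) + 1)) z0 y0 k t).re) x) ^ p =
      (∫⁻ q in cone lam x, G n q) ^ (p / 2) := by
    intro n x
    obtain ⟨a1, a2, a3⟩ := hTF U n p (y0 / ((n : ℝ) + 1)) z0 y0 k hA hp (Tu.eps_pos hy0 n) hy0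
    rw [areaFn_rpow]
    congr 1
    refine setLIntegral_congr_fun (measurableSet_cone lam x) fun q hq => ?_
    have hq2 : 0 < q.2 := hq.2
    have him : (0 : ℝ) ≤ ((q.1 : ℂ) + q.2 * I).im := by simp; exact hq2.le
    have hd := Tu.hasDerivAt_tF2 hA (M := n) (p := p) (x0 := z0) k (Tu.eps_pos hy0 n) hy0 him
    show ENNReal.ofReal _ = G n q
    rw [gradSq_of_re hq2 hd (fun z y hy => (a3 z y hy).1), hG, hd.deriv]
  have hlim : ∀ q : ℝ × ℝ, 0 < q.2 → Tendsto (fun n => G n q) atTop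
      (𝓝 (ENNReal.ofReal (‖deriv (oF U p z0 y0 k) (q.1 + q.2 * I)‖ ^ 2))) := by
    intro q hq
    simp_rw [hG]
    apply ENNReal.tendsto_ofReal
    exact ((Tu.tend_deriv hA k hy0 (by simp; exact hq)).norm).pow 2
  -- Fatou's lemma in the cone
  have hf1 : ∀ x, ∫⁻ q in cone lam x, ENNReal.ofReal
      (‖deriv (oF U p z0 y0 k) (q.1 + q.2 * I)‖ ^ 2) ≤
      liminf (fun n => ∫⁻ q in cone lam x, G n q) atTop := by
    intro x
    calc ∫⁻ q in cone lam x, ENNReal.ofReal (‖deriv (oF U p z0 y0 k) (q.1 + q.2 * I)‖ ^ 2)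
        = ∫⁻ q in cone lam x, liminf (fun n => G n q) atTop := by
          refine setLIntegral_congr_fun (measurableSet_cone lam x) fun q hq => ?_
          exact (hlim q hq.2).liminf_eq.symm
      _ ≤ _ := lintegral_liminf_le fun n => hGm n
  have hpt : ∀ x, (∫⁻ q in cone lam x, ENNReal.ofReal
      (‖deriv (oF U p z0 y0 k) (q.1 + q.2 * I)‖ ^ 2)) ^ (p / 2) * ENNReal.ofReal (U x) ≤
      liminf (fun n => (∫⁻ q in cone lam x, G n q) ^ (p / 2) * ENNReal.ofReal (U x)) atTop := by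
    intro x
    have hmono : Monotone (fun s : ℝ≥0∞ => s ^ (p / 2) * ENNReal.ofReal (U x)) := by
      intro s t hst
      show s ^ (p / 2) * ENNReal.ofReal (U x) ≤ t ^ (p / 2) * ENNReal.ofReal (U x)
      gcongr
    have hcont : Continuous (fun s : ℝ≥0∞ => s ^ (p / 2) * ENNReal.ofReal (U x)) :=
      (ENNReal.continuous_mul_const ENNReal.ofReal_ne_top).comp ENNReal.continuous_rpow_const
    have h1 := hmono.map_liminf_of_continuousAt (F := atTop)
      (fun n => ∫⁻ q in cone lam x, G n q) hcont.continuousAt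
    refine le_trans ?_ h1.le
    exact hmono (hf1 x)
  calc ∫⁻ x, (∫⁻ q in cone lam x, ENNReal.ofReal
        (‖deriv (oF U p z0 y0 k) (q.1 + q.2 * I)‖ ^ 2)) ^ (p / 2) * ENNReal.ofReal (U x)
      ≤ ∫⁻ x, liminf (fun n => (∫⁻ q in cone lam x, G n q) ^ (p / 2) *
          ENNReal.ofReal (U x)) atTop := lintegral_mono hpt
    _ ≤ liminf (fun n => ∫⁻ x, (∫⁻ q in cone lam x, G n q) ^ (p / 2) *
          ENNReal.ofReal (U x)) atTop := by
        apply lintegral_liminf_le'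
        intro n
        obtain ⟨a1, a2, a3⟩ := hTF U n p (y0 / ((n : ℝ) + 1)) z0 y0 k hA hp
          (Tu.eps_pos hy0 n) hy0
        simp_rw [← har n]
        exact ((Crit.N.meas_area a1 lam).pow_const p).aemeasurable.mul (weight_ofReal_aemeas hU)
    _ ≤ liminf (fun _ : ℕ => (C0 : ℝ≥0∞) * C1 * ENNReal.ofReal y0) atTop := by
        refine liminf_le_liminf (Eventually.of_forall fun n => ?_)
        obtain ⟨a1, a2, a3⟩ := hTF U n p (y0 / ((n : ℝ) + 1)) z0 y0 k hA hp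
          (Tu.eps_pos hy0 n) hy0
        simp_rw [← har n]
        refine (hS _ a1).trans ?_
        rw [mul_assoc]
        gcongr
        exact (hUp n (y0 / ((n : ℝ) + 1)) z0 y0 (Tu.eps_pos hy0 n) (Tu.eps_le hy0 n)).1
    _ = _ := by simp

end Pool.Agent.Work.MP_055a27_an.Op
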