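import Pool.Agent.Work.MP_055a27_an.Op.Stmts

set_option autoImplicit false

open MeasureTheory

namespace Pool.Agent.Work.MP_055a27_an.Op

namespace Yb

/-- The pointwise inequality. -/
theorem pointwise (y m a : ℝ) (ha : a = if y ≤ 6 then 6 + m else 0) :
    6 - y ≤ a + Real.exp (-m) * (Real.exp (-y) + 1) := by
  have h1 := Real.exp_pos (-y)
  have h2 := Real.exp_pos (-m)
  have h3 : 0 < Real.exp (-m) * (Real.exp (-y) + 1) := by positivity
  by_cases h : y ≤ 6
  · rw [ha, if_pos h]
    have h4 : -y ≤ m + Real.exp (-m) * Real.exp (-y) := by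
      have h5 := Real.add_one_le_exp (-m + -y)
      rw [Real.exp_add] at h5
      linarith
    nlinarith
  · rw [ha, if_neg h]
    linarith [not_le.mp h]

theorem main (P : Measure ℝ) (Y : ℝ → ℝ) (C0 : ℝ) (hP : IsProbabilityMeasure P) (hC : 0 ≤ C0)
    (hY : Integrable Y P) (hY2 : ∫ x, Y x ∂P ≤ 2)
    (hE : ∫⁻ x, ENNReal.ofReal (Real.exp (-Y x)) ∂P ≤ ENNReal.ofReal (Real.exp C0)) :
    1 / (4 * (1 + C0)) ≤ P.real {x : ℝ | Y x ≤ 6} := by
  by_contra hlt
  push Not at hlt
  set q := P.real {x : ℝ | Y x ≤ 6} with hq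
  have hK : 0 < 4 * (1 + C0) := by positivity
  set K := 4 * (1 + C0) with hKdef
  set m := C0 + 1 + Real.log K with hm
  have hK1 : 1 ≤ K := by rw [hKdef]; linarith
  have hlog : 0 ≤ Real.log K := Real.log_nonneg hK1
  have hlog2 : Real.log K ≤ K - 1 := Real.log_le_sub_one_of_pos hK
  have hm0 : 0 ≤ m := by rw [hm]; linarith
  have hA : NullMeasurableSet {x : ℝ | Y x ≤ 6} P :=
    nullMeasurableSet_le hY.aemeasurable aemeasurable_const
  have hmeas : AEStronglyMeasurable (fun x => Real.exp (-Y x)) P :=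
    Real.continuous_exp.comp_aestronglyMeasurable hY.1.neg
  have hint : Integrable (fun x => Real.exp (-Y x)) P := by
    refine ⟨hmeas, ?_⟩
    rw [hasFiniteIntegral_iff_ofReal (Filter.Eventually.of_forall fun x => (Real.exp_pos _).le)]
    exact lt_of_le_of_lt hE ENNReal.ofReal_lt_top
  have hintle : ∫ x, Real.exp (-Y x) ∂P ≤ Real.exp C0 := by
    rw [integral_eq_lintegral_of_nonneg_ae
      (Filter.Eventually.of_forall fun x => (Real.exp_pos _).le) hmeas]
    exact ENNReal.toReal_le_of_le_ofReal (Real.exp_pos _).le hE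
  have hI1 : Integrable ({x : ℝ | Y x ≤ 6}.indicator fun _ => 6 + m) P :=
    (integrable_const (6 + m)).indicator₀ hA
  have hI2 : Integrable (fun x => Real.exp (-m) * (Real.exp (-Y x) + 1)) P :=
    (hint.add (integrable_const 1)).const_mul _
  have hmono : ∫ x, (6 - Y x) ∂P ≤ ∫ x, (({x : ℝ | Y x ≤ 6}.indicator (fun _ => 6 + m) x) +
      Real.exp (-m) * (Real.exp (-Y x) + 1)) ∂P := by
    refine integral_mono ((integrable_const 6).sub hY) (hI1.add hI2) fun x => ?_
    refine pointwise (Y x) m _ ?_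
    simp [Set.indicator_apply]
  rw [integral_sub (integrable_const 6) hY, integral_add hI1 hI2, integral_indicator₀ hA,
    setIntegral_const, integral_const_mul, integral_add hint (integrable_const 1)] at hmono
  simp only [integral_const, smul_eq_mul, probReal_univ, one_mul, ← hq] at hmono
  have hexp : Real.exp (-m) * (Real.exp C0 + 1) ≤ 1 / K := by
    have e1 : Real.exp (-m) = Real.exp (-C0 - 1) / K := by
      rw [hm, show -(C0 + 1 + Real.log K) = (-C0 - 1) - Real.log K by ring, Real.exp_sub,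
        Real.exp_log hK]
    have e2 : Real.exp (-C0 - 1) * (Real.exp C0 + 1) ≤ 1 := by
      have e3 : Real.exp (-C0 - 1) * Real.exp C0 = Real.exp (-1) := by
        rw [← Real.exp_add]; congr 1; ring
      have e4 : Real.exp (-C0 - 1) ≤ Real.exp (-1) := Real.exp_le_exp.mpr (by linarith)
      have e5 : Real.exp (-1) ≤ 1 / 2 := by
        rw [Real.exp_neg]
        have := Real.add_one_le_exp 1
        rw [one_div]
        exact inv_anti₀ (by norm_num) (by linarith)
      nlinarith
    rw [e1, div_mul_eq_mul_div]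
    exact div_le_div_of_nonneg_right e2 hK.le
  have hfin : 4 ≤ q * (6 + m) + 1 / K := by
    have h7 : Real.exp (-m) * (∫ x, Real.exp (-Y x) ∂P + 1) ≤ Real.exp (-m) * (Real.exp C0 + 1) :=
      mul_le_mul_of_nonneg_left (by linarith) (Real.exp_pos _).le
    linarith
  have hq2 : q * (6 + m) ≤ 1 / K * (6 + m) := mul_le_mul_of_nonneg_right hlt.le (by linarith)
  have h8 : 1 / K * (7 + m) ≤ 3 := by
    rw [one_div, inv_mul_le_iff₀ hK, hm]
    rw [hKdef] at hlog2 ⊢
    nlinarith
  linarith

end Yb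

theorem stYb : StYb := by
  intro P Y C0 hP hC hY hY2 hE
  have h := Yb.main P Y C0 hP hC hY hY2 hE
  rw [ENNReal.ofReal_le_iff_le_toReal (measure_ne_top _ _)]
  exact h

end Pool.Agent.Work.MP_055a27_an.Op
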