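import Pool.Agent.Work.MP_055a27_an.Cr3.Main
import Pool.Agent.Work.MP_055a27_an.Op.NSq
import Pool.Agent.Work.MP_055a27_an.Op.CCq
import Pool.Agent.Work.MP_055a27_an.Op.Qm
import Pool.Agent.Work.MP_055a27_an.Op.Gh
import Pool.Agent.Work.MP_055a27_an.Op.Ko
import Pool.Agent.Work.MP_055a27_an.Op.Yb
import Pool.Agent.Work.MP_055a27_an.Op.Ar
import Pool.Agent.Work.MP_055a27_an.Op.Tu
import Pool.Agent.Work.MP_055a27_an.Op.Down

/-!
# Openness: assembly
-/

set_option autoImplicit false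

open Pool.Agent.Work.MP_055a27_an.Crit

namespace Pool.Agent.Work.MP_055a27_an.Op

theorem fCCq : StCCq := stCCq stNSq Crit.stTF Cr3.fTFUp
theorem fGh : StGh := stGh Cr3.stHar
theorem fTu : StTu := stTu Crit.stTF Cr3.fTFUp
theorem fDown : StDown := stDown stQm fGh

/-- Openness from the gain. -/
theorem stOp (hGain : StGain) : StOp := by
  intro lam b p mu0 U hb hbl hp hmu0 hW hCC hStar
  have hlam : 0 < lam := hb.trans hbl
  have hall : ∀ μ : ℝ, 0 < μ → μ < lam → CC μ U := fun μ hμ hμl =>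
    Cr3.fNec2 lam μ mu0 b p U hb hbl hp hmu0 hμ hμl hW.1 hW.2.2 hCC hStar
  obtain ⟨κ, S0, hκ, hS0, hg⟩ := hGain lam b p U hb hbl hp hW (hall b hb hbl) hStar
  exact fDown lam κ S0 U hlam hκ hS0 hW hall hg

end Pool.Agent.Work.MP_055a27_an.Op
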