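import Pool.Agent.Work.MP_055a27_an.Op.Stmts
import Pool.Agent.Work.MP_055a27_an.Op.Tu
import Pool.Agent.Work.MP_055a27_an.Crit.TFUp
import Pool.Agent.Work.MP_055a27_an.Thr.Vert

/-!
# At points with large normalised gradient the vertical derivative dominates
-/

set_option autoImplicit false

open MeasureTheory Set Filter Topology Complex Metric
open scoped ENNReal NNReal

namespace Pool.Agent.Work.MP_055a27_an.Op

open Crit (lg cc CC)
open Cr3 (Wt)

namespace Gain

/-! ### The semigroup property of the Poisson integral -/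

lemma re_inv (x y : ℝ) : (I / ((x : ℂ) + y * I)).re = y / (x ^ 2 + y ^ 2) := by
  rw [Complex.div_re]
  simp [Complex.normSq_apply]
  ring

lemma kernel_conv {z y h τ : ℝ} (hy : 0 < y) (hτ : 0 < τ) (t : ℝ) :
    ∫ x : ℝ, y * (τ / ((x + h - t) ^ 2 + τ ^ 2)) / ((z - x) ^ 2 + y ^ 2) =
      Real.pi * ((y + τ) / ((z + h - t) ^ 2 + (y + τ) ^ 2)) := by
  have hne : ∀ ζ : ℂ, 0 ≤ ζ.im → ζ + h - t + τ * I ≠ 0 := by
    intro ζ hζ h0
    have h1 := congrArg Complex.im h0
    simp at h1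
    linarith
  have hle : ∀ ζ : ℂ, 0 ≤ ζ.im → τ ≤ ‖ζ + h - t + τ * I‖ := by
    intro ζ hζ
    have h1 := Complex.abs_im_le_norm (ζ + h - t + τ * I)
    have h2 : (ζ + h - t + τ * I).im = ζ.im + τ := by simp
    rw [h2] at h1
    have h3 := le_abs_self (ζ.im + τ)
    linarith
  have key := poisson_re (F := fun ζ : ℂ => I / (ζ + h - t + τ * I)) (M := 1 / τ)
    (fun ζ hζ => by
      have := hne ζ hζ
      fun_prop (disch := assumption))
    (fun ζ hζ => by
      rw [norm_div, Complex.norm_I]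
      exact one_div_le_one_div_of_le hτ (hle ζ hζ)) (z := z) hy
  have e1 : ∀ x : ℝ, (I / ((x : ℂ) + h - t + τ * I)).re = τ / ((x + h - t) ^ 2 + τ ^ 2) := by
    intro x
    rw [← re_inv]
    push_cast
    ring_nf
  have e2 : (I / (((z : ℂ) + y * I) + h - t + τ * I)).re =
      (y + τ) / ((z + h - t) ^ 2 + (y + τ) ^ 2) := by
    rw [← re_inv]
    push_cast
    ring_nf
  simp only [e1, e2] at key
  rw [poisson_eq_integral] at key
  have hpi := Real.pi_pos
  field_simp at key ⊢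
  linarith

lemma integrable_conv {z y h τ : ℝ} (hy : 0 < y) (hτ : 0 < τ) (t : ℝ) :
    Integrable (fun x : ℝ => y * (τ / ((x + h - t) ^ 2 + τ ^ 2)) / ((z - x) ^ 2 + y ^ 2)) := by
  have h1 : Integrable (fun x : ℝ => (1 / ((z - x) ^ 2 + y ^ 2)) *
      (y * (τ / ((x + h - t) ^ 2 + τ ^ 2)))) volume := by
    refine (integrable_kernel (z := z) hy).mul_bdd (c := y / τ) ?_ (Eventually.of_forall fun x => ?_)
    · exact Measurable.aestronglyMeasurable (by fun_prop)
    · have h2 : 0 < (x + h - t) ^ 2 + τ ^ 2 := by positivity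
      rw [Real.norm_of_nonneg (by positivity), div_eq_mul_one_div y τ]
      refine mul_le_mul_of_nonneg_left ?_ hy.le
      rw [div_le_div_iff₀ h2 hτ]
      nlinarith [sq_nonneg (x + h - t)]
  refine h1.congr (Eventually.of_forall fun x => ?_)
  simp only
  ring

lemma semi_int {v : ℝ → ℝ} (hv : Admissible v) {z y h τ : ℝ} (hy : 0 < y) (hτ : 0 < τ) :
    Integrable (fun p : ℝ × ℝ => v p.2 *
      (y * (τ / ((p.1 + h - p.2) ^ 2 + τ ^ 2)) / ((z - p.1) ^ 2 + y ^ 2)))
      (volume.prod volume) := by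
  rw [integrable_prod_iff']
  · constructor
    · refine Eventually.of_forall fun t => ?_
      exact (integrable_conv hy hτ t).const_mul (v t)
    · have e1 : ∀ t : ℝ, ∫ x : ℝ, ‖v t *
          (y * (τ / ((x + h - t) ^ 2 + τ ^ 2)) / ((z - x) ^ 2 + y ^ 2))‖ =
          Real.pi * ‖(y + τ) * v t / ((z + h - t) ^ 2 + (y + τ) ^ 2)‖ := by
        intro t
        have e2 : ∀ x : ℝ, ‖v t *
            (y * (τ / ((x + h - t) ^ 2 + τ ^ 2)) / ((z - x) ^ 2 + y ^ 2))‖ =
            |v t| * (y * (τ / ((x + h - t) ^ 2 + τ ^ 2)) / ((z - x) ^ 2 + y ^ 2)) := by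
          intro x
          rw [norm_mul, Real.norm_eq_abs, Real.norm_of_nonneg (by positivity)]
        simp only [e2]
        rw [integral_const_mul, kernel_conv hy hτ, norm_div, norm_mul, Real.norm_eq_abs (v t),
          Real.norm_of_nonneg (show 0 ≤ y + τ by positivity),
          Real.norm_of_nonneg (show 0 ≤ (z + h - t) ^ 2 + (y + τ) ^ 2 by positivity)]
        ring
      simp only [e1]
      exact (Crit.TFUp.integrable_pois hv (by positivity)).norm.const_mul _
  · exact ((adm_measurable hv).comp_snd).mul (Measurable.aestronglyMeasurable (by fun_prop))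

lemma poisson_fac (v : ℝ → ℝ) (x h τ z y : ℝ) :
    ∫ t : ℝ, v t * (y * (τ / ((x + h - t) ^ 2 + τ ^ 2)) / ((z - x) ^ 2 + y ^ 2)) =
      Real.pi * (poisson v (x + h) τ * (y / ((z - x) ^ 2 + y ^ 2))) := by
  rw [poisson_eq_integral]
  have hpi := Real.pi_pos
  have e1 : ∀ t : ℝ, v t * (y * (τ / ((x + h - t) ^ 2 + τ ^ 2)) / ((z - x) ^ 2 + y ^ 2)) =
      (τ * v t / ((x + h - t) ^ 2 + τ ^ 2)) * (y / ((z - x) ^ 2 + y ^ 2)) := by
    intro t
    ring
  simp only [e1]
  rw [integral_mul_const]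
  field_simp

lemma semi_integrable {v : ℝ → ℝ} (hv : Admissible v) {z y h τ : ℝ} (hy : 0 < y) (hτ : 0 < τ) :
    Integrable (fun x : ℝ => poisson v (x + h) τ * (y / ((z - x) ^ 2 + y ^ 2))) volume := by
  have h1 := (semi_int hv (z := z) (h := h) hy hτ).integral_prod_left
  have hpi := Real.pi_pos
  refine (h1.const_mul (1 / Real.pi)).congr (Eventually.of_forall fun x => ?_)
  simp only
  rw [poisson_fac]
  field_simp

/-- The semigroup property. -/
lemma semigroup {v : ℝ → ℝ} (hv : Admissible v) {z y h τ : ℝ} (hy : 0 < y) (hτ : 0 < τ) :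
    ∫ x : ℝ, poisson v (x + h) τ * (y / ((z - x) ^ 2 + y ^ 2)) =
      Real.pi * poisson v (z + h) (y + τ) := by
  have h1 := integral_integral_swap (μ := (volume : Measure ℝ)) (ν := (volume : Measure ℝ))
    (f := fun x t : ℝ => v t *
      (y * (τ / ((x + h - t) ^ 2 + τ ^ 2)) / ((z - x) ^ 2 + y ^ 2)))
    (semi_int hv (z := z) (h := h) hy hτ)
  simp only [poisson_fac] at h1
  rw [integral_const_mul] at h1
  have e1 : ∀ t : ℝ, ∫ x : ℝ, v t *
      (y * (τ / ((x + h - t) ^ 2 + τ ^ 2)) / ((z - x) ^ 2 + y ^ 2)) =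
      Real.pi * ((y + τ) * v t / ((z + h - t) ^ 2 + (y + τ) ^ 2)) := by
    intro t
    rw [integral_const_mul, kernel_conv hy hτ]
    ring
  simp only [e1] at h1
  rw [integral_const_mul] at h1
  have hpi := Real.pi_pos
  have h2 := mul_left_cancel₀ hpi.ne' h1
  rw [h2, poisson_eq_integral]
  field_simp

/-! ### The Poisson probability -/

/-- The Poisson probability. -/
noncomputable def Pm (z y : ℝ) : Measure ℝ :=
  volume.withDensity (fun x => ENNReal.ofReal (1 / Real.pi * (y / ((z - x) ^ 2 + y ^ 2))))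

lemma dens_meas (z y : ℝ) :
    Measurable (fun x : ℝ => ENNReal.ofReal (1 / Real.pi * (y / ((z - x) ^ 2 + y ^ 2)))) := by
  fun_prop

lemma Pm_apply (z y : ℝ) (S : Set ℝ) : Pm z y S =
    ∫⁻ x in S, ENNReal.ofReal (1 / Real.pi * (y / ((z - x) ^ 2 + y ^ 2))) :=
  withDensity_apply' _ S

lemma Pm_lintegral (z y : ℝ) (g : ℝ → ℝ≥0∞) : ∫⁻ x, g x ∂(Pm z y) =
    ∫⁻ x, ENNReal.ofReal (1 / Real.pi * (y / ((z - x) ^ 2 + y ^ 2))) * g x := by
  unfold Pm
  rw [lintegral_withDensity_eq_lintegral_mul_non_measurable _ (dens_meas z y)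
    (Eventually.of_forall fun x => ENNReal.ofReal_lt_top)]
  rfl

lemma Pm_prob {z y : ℝ} (hy : 0 < y) : IsProbabilityMeasure (Pm z y) := by
  constructor
  rw [Pm_apply, Measure.restrict_univ]
  rw [← ofReal_integral_eq_lintegral_ofReal]
  · have hpi := Real.pi_pos
    have e1 : ∀ x : ℝ, 1 / Real.pi * (y / ((z - x) ^ 2 + y ^ 2)) =
        (1 / Real.pi * y) * (1 / ((z - x) ^ 2 + y ^ 2)) := by
      intro x
      ring
    simp only [e1]
    rw [integral_const_mul, integral_kernel hy]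
    have e2 : 1 / Real.pi * y * (Real.pi / y) = 1 := by field_simp
    rw [e2, ENNReal.ofReal_one]
  · refine ((integrable_kernel (z := z) hy).const_mul (1 / Real.pi * y)).congr
      (Eventually.of_forall fun x => ?_)
    simp only
    ring
  · exact Eventually.of_forall fun x => by positivity

lemma Pm_ac (z y : ℝ) : Pm z y ≪ volume := withDensity_absolutelyContinuous _ _

lemma Pm_integral {z y : ℝ} (hy : 0 < y) (g : ℝ → ℝ) : ∫ x, g x ∂(Pm z y) =
    1 / Real.pi * ∫ x, g x * (y / ((z - x) ^ 2 + y ^ 2)) := by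
  unfold Pm
  rw [integral_withDensity_eq_integral_toReal_smul (dens_meas z y)
    (Eventually.of_forall fun x => ENNReal.ofReal_lt_top), ← integral_const_mul]
  refine integral_congr_ae (Eventually.of_forall fun x => ?_)
  simp only [smul_eq_mul]
  rw [ENNReal.toReal_ofReal (by positivity)]
  ring

lemma Pm_integrable {z y : ℝ} (hy : 0 < y) {g : ℝ → ℝ}
    (hg : Integrable (fun x => g x * (y / ((z - x) ^ 2 + y ^ 2))) volume) :
    Integrable g (Pm z y) := by
  unfold Pm
  rw [integrable_withDensity_iff (dens_meas z y)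
    (Eventually.of_forall fun x => ENNReal.ofReal_lt_top)]
  refine (hg.const_mul (1 / Real.pi)).congr (Eventually.of_forall fun x => ?_)
  simp only
  rw [ENNReal.toReal_ofReal (by positivity)]
  ring

lemma Pm_le {z y : ℝ} (hy : 0 < y) (S : Set ℝ) :
    Pm z y S ≤ ENNReal.ofReal (1 / (Real.pi * y)) * volume S := by
  rw [Pm_apply, ← setLIntegral_const]
  refine lintegral_mono fun x => ENNReal.ofReal_le_ofReal ?_
  have hpi := Real.pi_pos
  have h1 : y / ((z - x) ^ 2 + y ^ 2) ≤ 1 / y := by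
    rw [div_le_div_iff₀ (by positivity) hy]
    nlinarith [sq_nonneg (z - x)]
  calc 1 / Real.pi * (y / ((z - x) ^ 2 + y ^ 2)) ≤ 1 / Real.pi * (1 / y) :=
        mul_le_mul_of_nonneg_left h1 (by positivity)
    _ = _ := by field_simp

/-- The tail of the Poisson probability. -/
lemma Pm_tail {z y M : ℝ} (hy : 0 < y) (hM : 0 < M) :
    Pm z y {x : ℝ | M * y < |x - z|} ≤ ENNReal.ofReal (1 / M) := by
  have hpi := Real.pi_gt_three
  have hpi0 := Real.pi_pos
  have hMy : 0 < M * y := by positivity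
  have h0 : ∫⁻ x in Ioi (M * y), ENNReal.ofReal (y / Real.pi * x ^ (-2 : ℝ)) =
      ENNReal.ofReal (1 / (Real.pi * M)) := by
    rw [← ofReal_integral_eq_lintegral_ofReal]
    · rw [integral_const_mul, integral_Ioi_rpow_of_lt (by norm_num) hMy]
      congr 1
      norm_num
      rw [Real.rpow_neg_one]
      field_simp
    · exact (integrableOn_Ioi_rpow_of_lt (by norm_num) hMy).const_mul _
    · rw [EventuallyLE, ae_restrict_iff' measurableSet_Ioi]
      refine Eventually.of_forall fun x hx => ?_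
      have hx0 : 0 < x := lt_trans hMy hx
      change 0 ≤ y / Real.pi * x ^ (-2 : ℝ)
      positivity
  have hden : ∀ x : ℝ, x ≠ z → 1 / Real.pi * (y / ((z - x) ^ 2 + y ^ 2)) ≤
      y / Real.pi * |x - z| ^ (-2 : ℝ) := by
    intro x hx
    have h1 : 0 < |x - z| := abs_pos.2 (sub_ne_zero.2 hx)
    have h2 : |x - z| ^ (-2 : ℝ) = 1 / (x - z) ^ 2 := by
      rw [Real.rpow_neg h1.le, Real.rpow_two, sq_abs, one_div]
    rw [h2]
    have h3 : 0 < (x - z) ^ 2 := by
      rw [← sq_abs]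
      positivity
    have h4 : 1 / ((z - x) ^ 2 + y ^ 2) ≤ 1 / (x - z) ^ 2 := by
      apply one_div_le_one_div_of_le h3
      nlinarith [sq_nonneg y]
    calc 1 / Real.pi * (y / ((z - x) ^ 2 + y ^ 2)) =
        y / Real.pi * (1 / ((z - x) ^ 2 + y ^ 2)) := by ring
      _ ≤ _ := mul_le_mul_of_nonneg_left h4 (by positivity)
  have h1 : Pm z y {x : ℝ | M * y < x - z} ≤ ENNReal.ofReal (1 / (Real.pi * M)) := by
    rw [Pm_apply, ← h0]
    have e1 : ∫⁻ x in {x : ℝ | M * y < x - z},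
        ENNReal.ofReal (1 / Real.pi * (y / ((z - x) ^ 2 + y ^ 2))) ≤
        ∫⁻ x in {x : ℝ | M * y < x - z}, ENNReal.ofReal (y / Real.pi * (x - z) ^ (-2 : ℝ)) := by
      refine setLIntegral_mono' (measurableSet_lt (by fun_prop) (by fun_prop)) fun x hx => ?_
      have hx1 : 0 < x - z := lt_trans hMy hx
      have := hden x (by rintro rfl; simp at hx1)
      rw [abs_of_pos hx1] at this
      exact ENNReal.ofReal_le_ofReal this
    refine e1.trans (le_of_eq ?_)
    have e2 := (measurePreserving_sub_right (volume : Measure ℝ) z).setLIntegral_comp_preimage_emb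
      (MeasurableEquiv.subRight z).measurableEmbedding
      (fun x => ENNReal.ofReal (y / Real.pi * x ^ (-2 : ℝ))) (Ioi (M * y))
    exact e2
  have h2 : Pm z y {x : ℝ | M * y < z - x} ≤ ENNReal.ofReal (1 / (Real.pi * M)) := by
    rw [Pm_apply, ← h0]
    have e1 : ∫⁻ x in {x : ℝ | M * y < z - x},
        ENNReal.ofReal (1 / Real.pi * (y / ((z - x) ^ 2 + y ^ 2))) ≤
        ∫⁻ x in {x : ℝ | M * y < z - x}, ENNReal.ofReal (y / Real.pi * (z - x) ^ (-2 : ℝ)) := by
      refine setLIntegral_mono' (measurableSet_lt (by fun_prop) (by fun_prop)) fun x hx => ?_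
      have hx1 : 0 < z - x := lt_trans hMy hx
      have := hden x (by rintro rfl; simp at hx1)
      rw [abs_sub_comm, abs_of_pos hx1] at this
      exact ENNReal.ofReal_le_ofReal this
    refine e1.trans (le_of_eq ?_)
    have e2 := (Measure.measurePreserving_sub_left (volume : Measure ℝ) z).setLIntegral_comp_preimage_emb
      (MeasurableEquiv.subLeft z).measurableEmbedding
      (fun x => ENNReal.ofReal (y / Real.pi * x ^ (-2 : ℝ))) (Ioi (M * y))
    exact e2
  have h3 : {x : ℝ | M * y < |x - z|} ⊆ {x : ℝ | M * y < x - z} ∪ {x : ℝ | M * y < z - x} := by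
    intro x hx
    rcases abs_cases (x - z) with h | h
    · left
      rw [mem_ofPred_eq, h.1] at hx
      exact hx
    · right
      rw [mem_ofPred_eq, h.1] at hx
      show M * y < z - x
      linarith
  refine (measure_mono h3).trans ((measure_union_le _ _).trans ((add_le_add h1 h2).trans ?_))
  rw [← ENNReal.ofReal_add (by positivity) (by positivity)]
  apply ENNReal.ofReal_le_ofReal
  rw [← add_div, div_le_div_iff₀ (by positivity) hM]
  nlinarith

/-! ### Taylor expansion -/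

lemma taylor {f f' : ℂ → ℂ} {w0 : ℂ} {ρ M : ℝ} (hρ : 0 < ρ)
    (hf : ∀ w ∈ ball w0 ρ, HasDerivAt f (f' w) w) (hM : ∀ w ∈ ball w0 ρ, ‖f' w‖ ≤ M) {h : ℂ}
    (hh : ‖h‖ ≤ ρ / 4) : ‖f (w0 + h) - f w0 - h * f' w0‖ ≤ 4 * M / ρ * ‖h‖ ^ 2 := by
  have hd : DifferentiableOn ℂ f (ball w0 ρ) := fun w hw =>
    (hf w hw).differentiableAt.differentiableWithinAt
  have hdd : DifferentiableOn ℂ (deriv f) (ball w0 ρ) := hd.deriv isOpen_ball
  have hder : ∀ w ∈ ball w0 ρ, deriv f w = f' w := fun w hw => (hf w hw).deriv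
  have hsub : ∀ w ∈ ball w0 (ρ / 2), closedBall w (ρ / 4) ⊆ ball w0 ρ := by
    intro w hw v hv
    rw [mem_ball] at hw ⊢
    rw [mem_closedBall] at hv
    have := dist_triangle v w w0
    linarith
  have h2 : ∀ w ∈ ball w0 (ρ / 2), ‖deriv (deriv f) w‖ ≤ 4 * M / ρ := by
    intro w hw
    have h3 := Complex.norm_deriv_le_of_forall_mem_sphere_norm_le (f := deriv f) (c := w)
      (R := ρ / 4) (C := M) (by positivity)
      ((hdd.mono (hsub w hw)).diffContOnCl_ball (le_refl _))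
      (fun v hv => by
        have hv' := hsub w hw (sphere_subset_closedBall hv)
        rw [hder v hv']
        exact hM v hv')
    refine h3.trans (le_of_eq ?_)
    field_simp
  have hb2 : ball w0 (ρ / 2) ⊆ ball w0 ρ := ball_subset_ball (by linarith)
  have h4 : ∀ w ∈ ball w0 (ρ / 2), ‖deriv f w - deriv f w0‖ ≤ 4 * M / ρ * ‖w - w0‖ := by
    intro w hw
    exact (convex_ball w0 (ρ / 2)).norm_image_sub_le_of_norm_deriv_le
      (fun v hv => (hdd v (hb2 hv)).differentiableAt (isOpen_ball.mem_nhds (hb2 hv)))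
      h2 (mem_ball_self (by positivity)) hw
  have hM0 : 0 ≤ M := (norm_nonneg _).trans (hM w0 (mem_ball_self hρ))
  have h5 := (convex_closedBall w0 ‖h‖).norm_image_sub_le_of_norm_hasDerivWithin_le
    (f := fun w => f w - w * f' w0) (f' := fun w => f' w - f' w0) (C := 4 * M / ρ * ‖h‖)
    (x := w0) (y := w0 + h)
    (fun w hw => by
      have hw' : w ∈ ball w0 ρ := by
        rw [mem_closedBall] at hw
        rw [mem_ball]
        linarith
      have h6 := (hf w hw').fun_sub ((hasDerivAt_id w).mul_const (f' w0))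
      rw [one_mul] at h6
      exact h6.hasDerivWithinAt)
    (fun w hw => by
      rw [mem_closedBall] at hw
      have hw' : w ∈ ball w0 (ρ / 2) := by
        rw [mem_ball]
        linarith
      have h6 := h4 w hw'
      rw [hder w (hb2 hw'), hder w0 (mem_ball_self hρ)] at h6
      refine h6.trans ?_
      rw [← dist_eq_norm]
      exact mul_le_mul_of_nonneg_left hw (by positivity))
    (mem_closedBall_self (norm_nonneg _))
    (by rw [mem_closedBall, dist_eq_norm]; simp)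
  have e1 : f (w0 + h) - f w0 - h * f' w0 =
      f (w0 + h) - (w0 + h) * f' w0 - (f w0 - w0 * f' w0) := by ring
  have e2 : w0 + h - w0 = h := by ring
  rw [e2] at h5
  rw [e1]
  refine h5.trans (le_of_eq ?_)
  ring

/-! ### The asymptotics -/

lemma asym (c p q A K0 : ℝ) (hq : 0 < q) : ∃ K : ℝ, K0 ≤ K ∧ 1 ≤ q * K ∧
    A * (c + p * Real.log (1 + Real.log (q * K))) ^ 3 < Real.log K := by
  have h1 : (fun x : ℝ => A * (c + p * Real.log x) ^ 3) =o[atTop] id := by
    have h0 : ∀ n : ℕ, (fun x : ℝ => Real.log x ^ n) =o[atTop] id := fun n =>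
      Real.isLittleO_pow_log_id_atTop
    have h2 := ((((h0 0).const_mul_left (A * c ^ 3)).add
      ((h0 1).const_mul_left (A * (3 * c ^ 2 * p)))).add
      ((h0 2).const_mul_left (A * (3 * c * p ^ 2)))).add
      ((h0 3).const_mul_left (A * p ^ 3))
    refine h2.congr_left fun x => ?_
    ring
  have h2 : ∀ᶠ x : ℝ in atTop, A * (c + p * Real.log x) ^ 3 < x - 1 - Real.log q := by
    filter_upwards [h1.bound (show (0 : ℝ) < 1 / 2 by norm_num), eventually_gt_atTop 0,
      eventually_gt_atTop (2 * (1 + Real.log q))] with x hx hx0 hx1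
    rw [id, Real.norm_eq_abs, Real.norm_eq_abs, abs_of_pos hx0] at hx
    have := le_abs_self (A * (c + p * Real.log x) ^ 3)
    linarith
  have h3 : Tendsto (fun K : ℝ => 1 + Real.log (q * K)) atTop atTop :=
    tendsto_atTop_add_const_left _ _ (Real.tendsto_log_atTop.comp
      (tendsto_id.const_mul_atTop hq))
  have h4 : Tendsto (fun K : ℝ => q * K) atTop atTop := tendsto_id.const_mul_atTop hq
  obtain ⟨K, hK1, hK2, hK3, hK4⟩ := ((h3.eventually h2).and ((eventually_ge_atTop K0).and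
    ((h4.eventually (eventually_ge_atTop 1)).and (eventually_gt_atTop 0)))).exists
  refine ⟨K, hK2, hK3, ?_⟩
  rw [Real.log_mul hq.ne' hK4.ne'] at hK1 ⊢
  linarith

/-! ### The first step: values at the point `w0` -/

lemma norm_e_le {a lam : ℝ} (ha : |a| ≤ lam) : ‖(a : ℂ) + I‖ ≤ 1 + lam := by
  refine (norm_add_le _ _).trans ?_
  rw [Complex.norm_I, Complex.norm_real, Real.norm_eq_abs]
  linarith

lemma one_le_norm_e (a : ℝ) : 1 ≤ ‖(a : ℂ) + I‖ := by
  have h := Complex.abs_im_le_norm ((a : ℂ) + I)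
  simpa using h

lemma step1 {v : ℝ → ℝ} (hv : Admissible v) {lam lam' C0 C3 c3 z0 y0 K a D τ : ℝ}
    (hy0 : 0 < y0) (hD : D = ‖dschw v (z0 + y0 * I)‖) (hD0 : 0 < D) (hK : 1 ≤ K)
    (hτ : τ = K / D) (hC0 : 1 ≤ C0) (hQM : QM lam' C0 v) (ha : |a| ≤ lam') (hlam : lam' ≤ lam)
    (hc3 : 0 < c3) (hc3' : c3 ≤ 1 / 4) (hC3 : 1 ≤ C3)
    (hG : ∀ w ∈ ball ((z0 : ℂ) + y0 * I) (c3 * y0), ‖dschw v w‖ ≤ C3 * (D + C0 / y0))
    (hd : (((a : ℂ) + I) * dschw v (z0 + y0 * I)).re ≤ D / K)
    (hS1 : C0 ≤ y0 * D) (hS2 : 8 * C3 * (1 + lam) ^ 2 * K ^ 2 / c3 ≤ y0 * D)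
    (hS3 : 4 * (1 + lam) * K / c3 ≤ y0 * D) (hS4 : 2 * K ≤ y0 * D) :
    poisson v z0 y0 - poisson v (z0 - a * τ) (y0 - τ) ≤ 2 ∧
    -C0 ≤ (schw v (z0 + y0 * I + τ * (a + I)) - schw v (z0 + y0 * I)).re ∧
    (schw v (z0 + y0 * I + τ * (a + I)) - schw v (z0 + y0 * I)).re ≤ 2 ∧
    K - C0 - 3 ≤ |(schw v (z0 + y0 * I + τ * (a + I)) - schw v (z0 + y0 * I)).im| := by
  have hK0 : 0 < K := by linarith
  have hτ0 : 0 < τ := by rw [hτ]; positivity
  have hτy : τ ≤ y0 / 2 := by
    rw [hτ, div_le_div_iff₀ hD0 two_pos]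
    linarith
  have hρ : 0 < c3 * y0 := by positivity
  have hlam0 : 0 ≤ lam := (abs_nonneg a).trans (ha.trans hlam)
  set w0 : ℂ := (z0 : ℂ) + y0 * I with hw0
  have him0 : w0.im = y0 := by simp [hw0]
  have hder : ∀ w ∈ ball w0 (c3 * y0), HasDerivAt (schw v) (dschw v w) w := by
    intro w hw
    apply hasDerivAt_schw hv
    rw [mem_ball, dist_eq_norm] at hw
    have h1 := Complex.abs_im_le_norm (w - w0)
    rw [Complex.sub_im, him0] at h1
    have h2 := neg_abs_le (w.im - y0)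
    have h3 : c3 * y0 ≤ 1 / 4 * y0 := mul_le_mul_of_nonneg_right hc3' hy0.le
    linarith
  have hM : ∀ w ∈ ball w0 (c3 * y0), ‖dschw v w‖ ≤ 2 * C3 * D := by
    intro w hw
    refine (hG w hw).trans ?_
    have h1 : C0 / y0 ≤ D := by
      rw [div_le_iff₀ hy0]
      linarith
    have h2 : C3 * (D + C0 / y0) ≤ C3 * (D + D) := mul_le_mul_of_nonneg_left (by linarith)
      (by linarith)
    linarith
  have he1 := norm_e_le (ha.trans hlam)
  have he2 := one_le_norm_e a
  set e : ℂ := (a : ℂ) + I with he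
  have hTe : ∀ h : ℂ, ‖h‖ = τ * ‖e‖ → ‖schw v (w0 + h) - schw v w0 - h * dschw v w0‖ ≤ 1 := by
    intro h hh
    have h1 : ‖h‖ ≤ c3 * y0 / 4 := by
      rw [hh]
      have h2 : τ * ‖e‖ ≤ τ * (1 + lam) := mul_le_mul_of_nonneg_left he1 hτ0.le
      refine h2.trans ?_
      rw [hτ, div_mul_eq_mul_div, div_le_div_iff₀ hD0 (by norm_num)]
      rw [div_le_iff₀ hc3] at hS3
      linarith
    refine (taylor hρ hder hM h1).trans ?_
    rw [hh]
    have h2 : (τ * ‖e‖) ^ 2 ≤ (τ * (1 + lam)) ^ 2 :=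
      pow_le_pow_left₀ (by positivity) (mul_le_mul_of_nonneg_left he1 hτ0.le) 2
    have h3 : 4 * (2 * C3 * D) / (c3 * y0) * (τ * ‖e‖) ^ 2 ≤
        4 * (2 * C3 * D) / (c3 * y0) * (τ * (1 + lam)) ^ 2 :=
      mul_le_mul_of_nonneg_left h2 (by positivity)
    refine h3.trans ?_
    have h4 : 4 * (2 * C3 * D) / (c3 * y0) * (τ * (1 + lam)) ^ 2 =
        (8 * C3 * (1 + lam) ^ 2 * K ^ 2 / c3) / (y0 * D) := by
      rw [hτ]
      field_simp
      ring
    rw [h4, div_le_one (by positivity)]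
    exact hS2
  have hn1 : ‖(τ : ℂ) * e‖ = τ * ‖e‖ := by
    rw [norm_mul, Complex.norm_real, Real.norm_of_nonneg hτ0.le]
  have T1 := hTe (τ * e) hn1
  have T2 := hTe (-(τ * e)) (by rw [norm_neg, hn1])
  have hre1 : (schw v (w0 + τ * e)).re = poisson v (z0 + a * τ) (y0 + τ) := by
    rw [← schw_re hv (by linarith)]
    congr 2
    rw [hw0, he]
    push_cast
    ring
  have hre0 : (schw v w0).re = poisson v z0 y0 := schw_re hv hy0
  have hre2 : (schw v (w0 + -(τ * e))).re = poisson v (z0 - a * τ) (y0 - τ) := by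
    rw [← schw_re hv (by linarith)]
    congr 2
    rw [hw0, he]
    push_cast
    ring
  have hDK : τ * (D / K) = 1 := by
    rw [hτ]
    field_simp
  have hd1 : ((τ : ℂ) * e * dschw v w0).re ≤ 1 := by
    have h1 : ((τ : ℂ) * e * dschw v w0).re = τ * (e * dschw v w0).re := by
      rw [mul_assoc, Complex.re_ofReal_mul]
    rw [h1, ← hDK]
    exact mul_le_mul_of_nonneg_left hd hτ0.le
  have hQ := hQM a τ z0 y0 ha hτ0 (by linarith)
  refine ⟨?_, ?_, ?_, ?_⟩
  · have h1 := (abs_le.1 ((Complex.abs_re_le_norm _).trans T2)).1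
    rw [Complex.sub_re, Complex.sub_re, hre2, hre0, neg_mul, Complex.neg_re] at h1
    linarith
  · rw [Complex.sub_re, hre1, hre0]
    linarith
  · have h1 := (abs_le.1 ((Complex.abs_re_le_norm _).trans T1)).2
    rw [Complex.sub_re, Complex.sub_re] at h1
    rw [Complex.sub_re]
    linarith
  · have h1 := (abs_le.1 ((Complex.abs_re_le_norm _).trans T1)).2
    rw [Complex.sub_re] at h1
    have h2 : |(schw v (w0 + τ * e) - schw v w0).re| ≤ C0 + 1 := by
      rw [abs_le]
      constructor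
      · rw [Complex.sub_re, hre1, hre0]
        linarith
      · linarith
    have h3 : K ≤ ‖(τ : ℂ) * e * dschw v w0‖ := by
      rw [norm_mul, hn1, ← hD]
      have h4 : τ * D = K := by
        rw [hτ]
        field_simp
      calc K = τ * 1 * D := by rw [mul_one, h4]
        _ ≤ τ * ‖e‖ * D := by gcongr
    have h4 : ‖(τ : ℂ) * e * dschw v w0‖ ≤ ‖schw v (w0 + τ * e) - schw v w0‖ + 1 := by
      have h5 : (τ : ℂ) * e * dschw v w0 = (schw v (w0 + τ * e) - schw v w0) -
        (schw v (w0 + τ * e) - schw v w0 - τ * e * dschw v w0) := by ring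
      calc ‖(τ : ℂ) * e * dschw v w0‖ = _ := by rw [h5]
        _ ≤ _ := norm_sub_le _ _
        _ ≤ _ := by linarith
    have h5 := Complex.norm_le_abs_re_add_abs_im (schw v (w0 + τ * e) - schw v w0)
    linarith

/-! ### The lower bound on a segment -/

lemma seg_eq (x a s : ℝ) : (x : ℂ) + s * (a + I) = ((x + a * s : ℝ) : ℂ) + s * I := by
  push_cast
  ring

lemma seg_im (x a s : ℝ) : ((x : ℂ) + s * (a + I)).im = s := by
  simp

lemma tF_low {x z0 y0 s a lam R τ : ℝ} {k : ℕ} (hy0 : 0 < y0) (hR : 0 ≤ R) (hs : 0 < s)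
    (hs2 : s ≤ 2 * τ) (ha : |a| ≤ lam) (h3 : |x - z0| ≤ R * y0)
    (hτy : 2 * τ * (1 + lam) ≤ y0) :
    (1 / (R + 2)) ^ k ≤ ‖tF z0 y0 k (x + s * (a + I))‖ := by
  rw [norm_tF hy0]
  refine pow_le_pow_left₀ (by positivity) ?_ k
  have hw : 0 ≤ ((x : ℂ) + s * (a + I)).im := by rw [seg_im]; exact hs.le
  have hpos : 0 < ‖(x : ℂ) + s * (a + I) - z0 + y0 * I‖ := hy0.trans_le (le_norm_den hy0 hw)
  rw [div_le_div_iff₀ (by positivity) hpos]
  have hlam : 0 ≤ lam := (abs_nonneg a).trans ha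
  have e1 : (x : ℂ) + s * (a + I) - z0 + y0 * I = ((x - z0 : ℝ) : ℂ) + s * (a + I) + y0 * I := by
    push_cast
    ring
  have h4 : ‖(x : ℂ) + s * (a + I) - z0 + y0 * I‖ ≤ |x - z0| + s * (1 + lam) + y0 := by
    rw [e1]
    refine (norm_add_le _ _).trans ?_
    have h5 : ‖(y0 : ℂ) * I‖ = y0 := by
      rw [norm_mul, Complex.norm_I, Complex.norm_real, Real.norm_of_nonneg hy0.le, mul_one]
    have h6 : ‖((x - z0 : ℝ) : ℂ) + s * (a + I)‖ ≤ |x - z0| + s * (1 + lam) := by
      refine (norm_add_le _ _).trans ?_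
      rw [Complex.norm_real, Real.norm_eq_abs, norm_mul, Complex.norm_real,
        Real.norm_of_nonneg hs.le]
      have := mul_le_mul_of_nonneg_left (norm_e_le ha) hs.le
      linarith
    linarith
  have h5 : s * (1 + lam) ≤ 2 * τ * (1 + lam) := mul_le_mul_of_nonneg_right hs2 (by positivity)
  nlinarith

lemma V_seg {v : ℝ → ℝ} {lam' C0 x a τ s t L : ℝ} (ha : |a| ≤ lam')
    (hC0 : 0 ≤ C0) (hQM : QM lam' C0 v) (h1 : poisson v (x + a * τ) τ ≤ L + 6)
    (h2 : poisson v (x + a * (2 * τ)) (2 * τ) - poisson v (x + a * τ) τ + C0 ≤ t)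
    (hs1 : τ ≤ s) (hs2 : s ≤ 2 * τ) : poisson v (x + a * s) s ≤ L + 6 + t := by
  have h3 : poisson v (x + a * s) s ≤ poisson v (x + a * (2 * τ)) (2 * τ) + C0 := by
    rcases hs2.eq_or_lt with h | h
    · rw [h]
      linarith
    · have h4 := hQM a (2 * τ - s) (x + a * s) s ha (by linarith) (by linarith)
      have e1 : x + a * s + a * (2 * τ - s) = x + a * (2 * τ) := by ring
      have e2 : s + (2 * τ - s) = 2 * τ := by ring
      rw [e1, e2] at h4
      exact h4
  linarith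

lemma pt {U : ℝ → ℝ} (hv : Admissible (lg U)) {p lam' lam z0 y0 τ a C0 β t R K x : ℝ} {k : ℕ}
    (hp : 0 < p) (hτ : 0 < τ) (ha : |a| ≤ lam') (hlam : lam' ≤ lam) (hC0 : 0 ≤ C0)
    (hQM : QM lam' C0 (lg U)) (h1 : poisson (lg U) (x + a * τ) τ - lg U x ≤ 6)
    (h2 : ‖schw (lg U) (x + (2 * τ : ℝ) * (a + I)) - schw (lg U) (x + τ * (a + I)) + C0 -
      I * β‖ ≤ t)
    (h3 : |x - z0| ≤ R * y0) (hy0 : 0 < y0) (hR : 0 ≤ R) (hτy : 2 * τ * (1 + lam) ≤ y0)
    (hkτ : k * τ ≤ y0) (hβ : K / 2 ≤ |β|) (hK : t + C0 + p * (1 + lam) ≤ K / 4) :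
    Real.exp (-(lg U x + 6 + t) / p) * (1 / (R + 2)) ^ k * (K / (4 * p * (1 + lam))) ≤
      ∫ s in τ..(2 * τ), ‖deriv (oF U p z0 y0 k) (x + s * (a + I))‖ := by
  have ha' : |a| ≤ lam := ha.trans hlam
  have hlam0 : 0 ≤ lam := (abs_nonneg a).trans ha'
  have h1lam : 0 < 1 + lam := by linarith
  set g : ℝ := Real.exp (-(lg U x + 6 + t) / p) * (1 / (R + 2)) ^ k with hg
  have hg0 : 0 < g := by positivity
  set e : ℂ := (a : ℂ) + I with he
  have hτ2 : τ ≤ 2 * τ := by linarith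
  have him : ∀ s : ℝ, ((x : ℂ) + s * e).im = s := fun s => seg_im x a s
  have hreV : ∀ s : ℝ, 0 < s → (schw (lg U) (x + s * e)).re = poisson (lg U) (x + a * s) s := by
    intro s hs
    rw [he, seg_eq, schw_re hv hs]
  have hmaps : MapsTo (fun s : ℝ => (x : ℂ) + s * e) (Icc τ (2 * τ)) uhp := by
    intro s hs
    show 0 < ((x : ℂ) + s * e).im
    rw [him]
    exact hτ.trans_le hs.1
  have hcl : ContinuousOn (fun s : ℝ => (x : ℂ) + s * e) (Icc τ (2 * τ)) := by fun_prop
  have hcd : ContinuousOn (fun s : ℝ => dschw (lg U) (x + s * e)) (Icc τ (2 * τ)) :=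
    (Thr.Vert.continuousOn_dschw hv).comp hcl hmaps
  have hdo : DifferentiableOn ℂ (oF U p z0 y0 k) uhp := fun w hw =>
    (Tu.hasDerivAt_oF hv k hy0 hw).differentiableAt.differentiableWithinAt
  have hcF : ContinuousOn (fun s : ℝ => deriv (oF U p z0 y0 k) (x + s * e)) (Icc τ (2 * τ)) :=
    (hdo.deriv isOpen_uhp).continuousOn.comp hcl hmaps
  -- the pointwise bound
  have hV2 : poisson (lg U) (x + a * (2 * τ)) (2 * τ) - poisson (lg U) (x + a * τ) τ + C0 ≤ t := by
    have h4 := (Complex.re_le_norm _).trans h2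
    have h5 := hreV (2 * τ) (by linarith)
    have h6 := hreV τ hτ
    simp only [Complex.add_re, Complex.sub_re, h5, h6, Complex.ofReal_re, Complex.mul_re,
      Complex.I_re, Complex.I_im, Complex.ofReal_im] at h4
    linarith
  have hpt : ∀ s ∈ Icc τ (2 * τ), g * (‖dschw (lg U) (x + s * e)‖ / p - k / y0) ≤
      ‖deriv (oF U p z0 y0 k) (x + s * e)‖ := by
    intro s hs
    have hs0 : 0 < s := hτ.trans_le hs.1
    have hw : 0 < ((x : ℂ) + s * e).im := by rw [him]; exact hs0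
    rw [(Tu.hasDerivAt_oF hv k hy0 hw).deriv, norm_mul]
    have h4 : g ≤ ‖oF U p z0 y0 k (x + s * e)‖ := by
      unfold oF
      rw [norm_mul, hg]
      refine mul_le_mul ?_ (tF_low hy0 hR hs0 hs.2 ha' h3 hτy) (by positivity) (norm_nonneg _)
      rw [Complex.norm_exp]
      apply Real.exp_le_exp.2
      have e1 : (-(schw (lg U) (x + s * e)) / (p : ℂ)).re =
          -(schw (lg U) (x + s * e)).re / p := by
        rw [Complex.div_ofReal_re, Complex.neg_re]
      rw [e1, hreV s hs0]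
      refine div_le_div_of_nonneg_right ?_ hp.le
      have := V_seg (L := lg U x) ha hC0 hQM (by linarith) hV2 hs.1 hs.2
      linarith
    have h5 : ‖dschw (lg U) (x + s * e)‖ / p - k / y0 ≤
        ‖-(dschw (lg U) (x + s * e)) / (p : ℂ) + -(k : ℂ) / ((x : ℂ) + s * e - z0 + y0 * I)‖ := by
      have h6 : ‖-(dschw (lg U) (x + s * e)) / (p : ℂ)‖ = ‖dschw (lg U) (x + s * e)‖ / p := by
        rw [norm_div, norm_neg, Complex.norm_real, Real.norm_of_nonneg hp.le]
      have h7 : ‖-(k : ℂ) / ((x : ℂ) + s * e - z0 + y0 * I)‖ ≤ k / y0 := by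
        rw [norm_div, norm_neg, Complex.norm_natCast]
        exact div_le_div_of_nonneg_left (Nat.cast_nonneg k) hy0 (le_norm_den hy0 hw.le)
      have h8 := norm_sub_norm_le (-(dschw (lg U) (x + s * e)) / (p : ℂ))
        (-(-(k : ℂ) / ((x : ℂ) + s * e - z0 + y0 * I)))
      rw [norm_neg, sub_neg_eq_add] at h8
      linarith
    calc g * (‖dschw (lg U) (x + s * e)‖ / p - k / y0) ≤ g * _ :=
          mul_le_mul_of_nonneg_left h5 hg0.le
      _ ≤ _ := mul_le_mul_of_nonneg_right h4 (norm_nonneg _)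
  -- the integral of the gradient
  have hint1 : IntervalIntegrable (fun s : ℝ => ‖dschw (lg U) (x + s * e)‖) volume τ (2 * τ) := by
    apply ContinuousOn.intervalIntegrable
    rw [uIcc_of_le hτ2]
    exact hcd.norm
  have hgrad : (K / 4 + p * (1 + lam)) / (1 + lam) ≤
      ∫ s in τ..(2 * τ), ‖dschw (lg U) (x + s * e)‖ := by
    have h4 : ∫ s in τ..(2 * τ), dschw (lg U) (x + s * e) * e =
        schw (lg U) (x + (2 * τ : ℝ) * e) - schw (lg U) (x + τ * e) := by
      apply intervalIntegral.integral_eq_sub_of_hasDerivAt (f := fun s : ℝ => schw (lg U) (x + s * e))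
      · intro s hs
        rw [uIcc_of_le hτ2] at hs
        have hw : 0 < ((x : ℂ) + s * e).im := by rw [him]; exact hτ.trans_le hs.1
        have h5 : HasDerivAt (fun r : ℝ => (x : ℂ) + (r : ℂ) * e) e s := by
          have h6 : HasDerivAt (fun t : ℝ => (t : ℂ)) 1 s := Complex.ofRealCLM.hasDerivAt
          have h7 := (h6.mul_const e).const_add (x : ℂ)
          simpa using h7
        exact HasDerivAt.comp (h₂ := schw (lg U)) (h := fun r : ℝ => (x : ℂ) + (r : ℂ) * e) s
          (hasDerivAt_schw hv hw) h5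
      · apply ContinuousOn.intervalIntegrable
        rw [uIcc_of_le hτ2]
        exact hcd.mul continuousOn_const
    have h5 : ‖schw (lg U) (x + (2 * τ : ℝ) * e) - schw (lg U) (x + τ * e)‖ ≤
        (∫ s in τ..(2 * τ), ‖dschw (lg U) (x + s * e)‖) * ‖e‖ := by
      rw [← h4, ← intervalIntegral.integral_mul_const]
      refine (intervalIntegral.norm_integral_le_integral_norm hτ2).trans (le_of_eq ?_)
      simp only [norm_mul]
    have h6 : |β| - t - C0 ≤
        ‖schw (lg U) (x + (2 * τ : ℝ) * e) - schw (lg U) (x + τ * e)‖ := by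
      have e1 : I * (β : ℂ) = (schw (lg U) (x + (2 * τ : ℝ) * e) - schw (lg U) (x + τ * e)) -
        (schw (lg U) (x + (2 * τ : ℝ) * e) - schw (lg U) (x + τ * e) + C0 - I * β) + C0 := by
        ring
      have h7 : |β| = ‖I * (β : ℂ)‖ := by
        rw [norm_mul, Complex.norm_I, one_mul, Complex.norm_real, Real.norm_eq_abs]
      have h8 : ‖I * (β : ℂ)‖ ≤
          ‖schw (lg U) (x + (2 * τ : ℝ) * e) - schw (lg U) (x + τ * e)‖ + t + C0 := by
        rw [e1]
        refine (norm_add_le _ _).trans ?_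
        have h9 : ‖(C0 : ℂ)‖ = C0 := by rw [Complex.norm_real, Real.norm_of_nonneg hC0]
        rw [h9]
        have h10 := norm_sub_le
          (schw (lg U) (x + (2 * τ : ℝ) * e) - schw (lg U) (x + τ * e))
          (schw (lg U) (x + (2 * τ : ℝ) * e) - schw (lg U) (x + τ * e) + C0 - I * β)
        linarith
      linarith
    have hI0 : 0 ≤ ∫ s in τ..(2 * τ), ‖dschw (lg U) (x + s * e)‖ :=
      intervalIntegral.integral_nonneg hτ2 fun s _ => norm_nonneg _
    have h7 := mul_le_mul_of_nonneg_left (norm_e_le ha') hI0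
    rw [div_le_iff₀ h1lam]
    linarith
  -- the conclusion
  have hint2 : IntervalIntegrable
      (fun s : ℝ => g * (‖dschw (lg U) (x + s * e)‖ / p - k / y0)) volume τ (2 * τ) :=
    ((hint1.div_const p).sub intervalIntegrable_const).const_mul g
  have hint3 : IntervalIntegrable (fun s : ℝ => ‖deriv (oF U p z0 y0 k) (x + s * e)‖) volume
      τ (2 * τ) := by
    apply ContinuousOn.intervalIntegrable
    rw [uIcc_of_le hτ2]
    exact hcF.norm
  refine le_trans ?_ (intervalIntegral.integral_mono_on hτ2 hint2 hint3 hpt)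
  rw [intervalIntegral.integral_const_mul, intervalIntegral.integral_sub (hint1.div_const p)
    intervalIntegrable_const, intervalIntegral.integral_div, intervalIntegral.integral_const]
  refine mul_le_mul_of_nonneg_left ?_ hg0.le
  have h4 : (2 * τ - τ) • (k / y0 : ℝ) ≤ 1 := by
    rw [smul_eq_mul]
    have e1 : (2 * τ - τ) * (k / y0 : ℝ) = k * τ / y0 := by ring
    rw [e1, div_le_one hy0]
    exact hkτ
  have h5 : (K / 4 + p * (1 + lam)) / (1 + lam) / p ≤
      (∫ s in τ..(2 * τ), ‖dschw (lg U) (x + s * e)‖) / p :=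
    div_le_div_of_nonneg_right hgrad hp.le
  have h6 : (K / 4 + p * (1 + lam)) / (1 + lam) / p = K / (4 * p * (1 + lam)) + 1 := by
    field_simp
  linarith

/-- The lower bound. -/
noncomputable def LB (m K p t R : ℝ) (k : ℕ) : ℝ :=
  (m * K) ^ (p / 2) * Real.exp (-(6 + t)) * ((1 / (R + 2)) ^ k) ^ p

lemma area {U : ℝ → ℝ} {p lam lam' c7 t R K x W : ℝ} {k : ℕ} {A : ℝ≥0∞}
    (hp : 0 < p) (hlam : 0 < lam) (hc7 : 0 < c7) (hK : 0 < K) (hl : lam - lam' = 1 / (4 * K))
    (hUx : 0 < U x) (hR : 0 ≤ R)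
    (hW : W = Real.exp (-(lg U x + 6 + t) / p) * (1 / (R + 2)) ^ k * (K / (4 * p * (1 + lam))))
    (hA : ENNReal.ofReal (c7 * (lam - lam') * W ^ 2) ≤ A) :
    ENNReal.ofReal (LB (c7 / (64 * p ^ 2 * (1 + lam) ^ 2)) K p t R k) ≤
      A ^ (p / 2) * ENNReal.ofReal (U x) := by
  set m : ℝ := c7 / (64 * p ^ 2 * (1 + lam) ^ 2) with hm
  have hm0 : 0 < m := by positivity
  set g : ℝ := Real.exp (-(lg U x + 6 + t) / p) * (1 / (R + 2)) ^ k with hg
  have hg0 : 0 < g := by positivity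
  have e1 : c7 * (lam - lam') * W ^ 2 = (m * K) * g ^ 2 := by
    rw [hl, hW, hm]
    field_simp
    ring
  have e2 : ((m * K) * g ^ 2) ^ (p / 2) = (m * K) ^ (p / 2) * g ^ p := by
    rw [Real.mul_rpow (by positivity) (by positivity)]
    congr 1
    rw [← Real.rpow_natCast, ← Real.rpow_mul hg0.le]
    congr 1
    push_cast
    ring
  have e3 : g ^ p = Real.exp (-(lg U x + 6 + t)) * ((1 / (R + 2)) ^ k) ^ p := by
    rw [hg, Real.mul_rpow (by positivity) (by positivity), ← Real.exp_mul]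
    congr 2
    field_simp
  have e4 : U x = Real.exp (lg U x) := by
    unfold lg
    rw [Real.exp_log hUx]
  have h1 : ENNReal.ofReal (c7 * (lam - lam') * W ^ 2) ^ (p / 2) ≤ A ^ (p / 2) :=
    ENNReal.rpow_le_rpow hA (by positivity)
  refine le_trans (le_of_eq ?_) (mul_le_mul_left h1 _)
  rw [ENNReal.ofReal_rpow_of_nonneg (by rw [e1]; positivity) (by positivity), e1, e2, e3,
    ← ENNReal.ofReal_mul (by positivity)]
  congr 1
  unfold LB
  have e5 : Real.exp (-(6 + t)) = Real.exp (-(lg U x + 6 + t)) * U x := by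
    conv_rhs => rw [e4]
    rw [← Real.exp_add]
    congr 1
    ring
  rw [e5]
  ring

/-! ### The volume of the good set -/

lemma volLow {z1 y1 y0 z0 u t R : ℝ} {Y N U : ℝ → ℝ} (hy0 : 0 < y0) (hy1 : y0 / 2 ≤ y1)
    (hy1' : y1 ≤ y0) (hz1 : |z1 - z0| ≤ y0) (hu : 1 ≤ u) (hR : R = 16 * u + 2)
    (hUpos : ∀ᵐ x, 0 < U x)
    (h1 : ENNReal.ofReal (1 / (4 * u)) ≤ Pm z1 y1 {x : ℝ | Y x ≤ 6})
    (h2 : Pm z1 y1 {x : ℝ | t ≤ N x} ≤ ENNReal.ofReal (1 / (16 * u))) :
    ENNReal.ofReal (y0 / (8 * u)) ≤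
      volume {x : ℝ | Y x ≤ 6 ∧ N x < t ∧ |x - z0| ≤ R * y0 ∧ 0 < U x} := by
  set X : Set ℝ := {x : ℝ | Y x ≤ 6 ∧ N x < t ∧ |x - z0| ≤ R * y0 ∧ 0 < U x} with hX
  have hy1p : 0 < y1 := by linarith
  have hpi := Real.pi_gt_three
  have h3 : Pm z1 y1 {x : ℝ | R * y0 < |x - z0|} ≤ ENNReal.ofReal (1 / (16 * u)) := by
    refine (measure_mono ?_).trans (Pm_tail hy1p (show 0 < 16 * u by positivity))
    intro x hx
    rw [mem_ofPred_eq] at hx ⊢
    have h4 : |x - z0| ≤ |x - z1| + |z1 - z0| := by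
      have := abs_add_le (x - z1) (z1 - z0)
      simpa using this
    have h5 : 16 * u * y1 ≤ 16 * u * y0 := mul_le_mul_of_nonneg_left hy1' (by positivity)
    rw [hR] at hx
    linarith
  have h4 : Pm z1 y1 {x : ℝ | ¬ 0 < U x} = 0 := Pm_ac z1 y1 hUpos
  have h5 : {x : ℝ | Y x ≤ 6} ⊆ ((X ∪ {x : ℝ | t ≤ N x}) ∪ {x : ℝ | R * y0 < |x - z0|}) ∪
      {x : ℝ | ¬ 0 < U x} := by
    intro x hx
    by_cases hU : 0 < U x
    · by_cases hN : N x < t
      · by_cases hR' : |x - z0| ≤ R * y0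
        · exact Or.inl (Or.inl (Or.inl ⟨hx, hN, hR', hU⟩))
        · exact Or.inl (Or.inr (not_le.1 hR'))
      · exact Or.inl (Or.inl (Or.inr (not_lt.1 hN)))
    · exact Or.inr hU
  have h6 : ENNReal.ofReal (1 / (4 * u)) ≤ Pm z1 y1 X + ENNReal.ofReal (1 / (8 * u)) := by
    refine h1.trans ((measure_mono h5).trans ?_)
    refine (measure_union_le _ _).trans ?_
    rw [h4, add_zero]
    refine (measure_union_le _ _).trans ?_
    refine (add_le_add ((measure_union_le _ _).trans (add_le_add le_rfl h2)) h3).trans ?_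
    rw [add_assoc, ← ENNReal.ofReal_add (by positivity) (by positivity)]
    refine add_le_add le_rfl (ENNReal.ofReal_le_ofReal (le_of_eq ?_))
    field_simp
    norm_num
  have h7 : ENNReal.ofReal (1 / (8 * u)) ≤ Pm z1 y1 X := by
    have e1 : ENNReal.ofReal (1 / (4 * u)) =
        ENNReal.ofReal (1 / (8 * u)) + ENNReal.ofReal (1 / (8 * u)) := by
      rw [← ENNReal.ofReal_add (by positivity) (by positivity)]
      congr 1
      field_simp
      norm_num
    rw [e1] at h6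
    exact (ENNReal.add_le_add_iff_right ENNReal.ofReal_ne_top).1 h6
  have h8 : Pm z1 y1 X ≤ ENNReal.ofReal (1 / y0) * volume X := by
    refine (Pm_le hy1p X).trans (mul_le_mul_left (ENNReal.ofReal_le_ofReal ?_) _)
    apply one_div_le_one_div_of_le hy0
    nlinarith
  calc ENNReal.ofReal (y0 / (8 * u)) = ENNReal.ofReal y0 * ENNReal.ofReal (1 / (8 * u)) := by
        rw [← ENNReal.ofReal_mul hy0.le]
        congr 1
        ring
    _ ≤ ENNReal.ofReal y0 * (ENNReal.ofReal (1 / y0) * volume X) := by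
        gcongr
        exact h7.trans h8
    _ = volume X := by
        rw [← mul_assoc, ← ENNReal.ofReal_mul hy0.le]
        have : y0 * (1 / y0) = 1 := by field_simp
        rw [this, ENNReal.ofReal_one, one_mul]

/-! ### The final numerical contradiction -/

lemma fin {m K p t R u C5 C8 : ℝ} {k : ℕ} (hm : 0 < m) (hK : 1 ≤ K) (hp : 0 < p) (hu : 2 ≤ u)
    (hC8 : 0 ≤ C8) (ht : t = 512 * C5 ^ 2 * u ^ 3) (hR : R = 16 * u + 2)
    (hL : LB m K p t R k ≤ 8 * u * C8) :
    Real.log K ≤ 2 / p * (p / 2 * |Real.log m| + 6 + 512 * C5 ^ 2 + 20 * k * p +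
      Real.log (8 * (C8 + 1)) + 1) * u ^ 3 := by
  have hK0 : 0 < K := by linarith
  have hu0 : 0 < u := by linarith
  have hR2 : 0 < R + 2 := by rw [hR]; linarith
  have h1 : Real.log (LB m K p t R k) = p / 2 * (Real.log m + Real.log K) - (6 + t) -
      k * p * Real.log (R + 2) := by
    unfold LB
    rw [Real.log_mul (by positivity) (by positivity), Real.log_mul (by positivity) (by positivity),
      Real.log_rpow (by positivity), Real.log_mul hm.ne' hK0.ne', Real.log_exp,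
      Real.log_rpow (by positivity), Real.log_pow, one_div, Real.log_inv]
    ring
  have h2 : Real.log (LB m K p t R k) ≤ Real.log (8 * (C8 + 1)) + Real.log u := by
    rw [← Real.log_mul (by positivity) hu0.ne']
    apply Real.log_le_log
    · unfold LB
      positivity
    · nlinarith
  have hu3 : 1 ≤ u ^ 3 := one_le_pow₀ (by linarith)
  have hu3' : u ≤ u ^ 3 := by nlinarith [sq_nonneg (u - 1)]
  have h3 : Real.log u ≤ u ^ 3 := by
    have := Real.log_le_sub_one_of_pos hu0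
    linarith
  have h4 : Real.log (R + 2) ≤ 20 * u ^ 3 := by
    have := Real.log_le_sub_one_of_pos hR2
    rw [hR] at this ⊢
    linarith
  have h5 : k * p * Real.log (R + 2) ≤ k * p * (20 * u ^ 3) :=
    mul_le_mul_of_nonneg_left h4 (by positivity)
  have h6 : -(p / 2 * Real.log m) ≤ p / 2 * |Real.log m| * u ^ 3 := by
    have h7 := neg_abs_le (Real.log m)
    have h8 : p / 2 * |Real.log m| * 1 ≤ p / 2 * |Real.log m| * u ^ 3 :=
      mul_le_mul_of_nonneg_left hu3 (by positivity)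
    nlinarith
  have h7 : Real.log (8 * (C8 + 1)) ≤ Real.log (8 * (C8 + 1)) * u ^ 3 := by
    have : 0 ≤ Real.log (8 * (C8 + 1)) := Real.log_nonneg (by linarith)
    nlinarith
  have h8 : p / 2 * Real.log K ≤ (p / 2 * |Real.log m| + 6 + 512 * C5 ^ 2 + 20 * k * p +
      Real.log (8 * (C8 + 1)) + 1) * u ^ 3 := by
    rw [h1] at h2
    rw [ht] at h2
    nlinarith
  have h9 : Real.log K = 2 / p * (p / 2 * Real.log K) := by field_simp
  rw [h9, mul_assoc]
  exact mul_le_mul_of_nonneg_left h8 (by positivity)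

/-! ### The main step: one point -/

lemma onePoint {U : ℝ → ℝ} (hU : Wt U) {lam lam' p K C0 u t R C3 c3 C5 c7 C1 z0 y0 : ℝ}
    {C8 : ℝ≥0} {k : ℕ} (hlam : 0 < lam) (hp : 0 < p) (hK : 1 ≤ K) (hlam'0 : 0 < lam')
    (hl : lam - lam' = 1 / (4 * K))
    (hu : u = 1 + C0) (hC0 : 1 ≤ C0) (ht : t = 512 * C5 ^ 2 * u ^ 3) (hR : R = 16 * u + 2)
    (hC5 : 1 ≤ C5) (hQM : QM lam' C0 (lg U))
    (hQi : ∀ a τ z y : ℝ, |a| ≤ lam' → 0 < τ → τ ≤ y →
      ∫⁻ x, ENNReal.ofReal (y / ((z - x) ^ 2 + y ^ 2)) *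
        ENNReal.ofReal (U x * Real.exp (-poisson (lg U) (x + a * τ) τ)) ≤ ENNReal.ofReal C1)
    (hC1 : C1 ≤ Real.exp C0)
    (hKo : ∀ (Φ : ℂ → ℂ) (h z y B t : ℝ), 0 < h → 0 < y → 0 ≤ B →
      0 < t → DifferentiableOn ℂ Φ {w : ℂ | -h < w.im} → (∀ w : ℂ, 0 ≤ w.im → 0 ≤ (Φ w).re) →
      ‖Φ (z + y * I)‖ ≤ B →
      ∫⁻ x in {x : ℝ | t ≤ ‖Φ x‖}, ENNReal.ofReal (y / ((z - x) ^ 2 + y ^ 2)) ≤
        ENNReal.ofReal (C5 * Real.sqrt (B / t)))
    (hYb : StYb)
    (hc7 : 0 < c7)
    (hAr : ∀ (F : ℂ → ℂ) (x a lam' τ W : ℝ),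
      DifferentiableOn ℂ F {w : ℂ | 0 < w.im} → 0 < τ → 0 < lam' → lam' < lam → |a| ≤ lam' →
      0 ≤ W → W ≤ ∫ s in τ..(2 * τ), ‖deriv F (x + s * (a + I))‖ →
      ENNReal.ofReal (c7 * (lam - lam') * W ^ 2) ≤
        ∫⁻ q in cone lam x, ENNReal.ofReal (‖deriv F (q.1 + q.2 * I)‖ ^ 2))
    (hTu : ∀ z0 y0 : ℝ, 0 < y0 →
      ∫⁻ x, (∫⁻ q in cone lam x, ENNReal.ofReal (‖deriv (oF U p z0 y0 k) (q.1 + q.2 * I)‖ ^ 2)) ^
        (p / 2) * ENNReal.ofReal (U x) ≤ C8 * ENNReal.ofReal y0)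
    (hy0 : 0 < y0)
    (hC3 : 1 ≤ C3) (hc3 : 0 < c3) (hc3' : c3 ≤ 1 / 4)
    (hG : ∀ w ∈ ball ((z0 : ℂ) + y0 * I) (c3 * y0),
      ‖dschw (lg U) w‖ ≤ C3 * (‖dschw (lg U) (z0 + y0 * I)‖ + C0 / y0))
    (hS0 : 0 < y0 * ‖dschw (lg U) (z0 + y0 * I)‖)
    (hS1 : C0 ≤ y0 * ‖dschw (lg U) (z0 + y0 * I)‖)
    (hS2 : 8 * C3 * (1 + lam) ^ 2 * K ^ 2 / c3 ≤ y0 * ‖dschw (lg U) (z0 + y0 * I)‖)
    (hS3 : 4 * (1 + lam) * K / c3 ≤ y0 * ‖dschw (lg U) (z0 + y0 * I)‖)
    (hS4 : 2 * (1 + lam) * K ≤ y0 * ‖dschw (lg U) (z0 + y0 * I)‖)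
    (hS5 : k * K ≤ y0 * ‖dschw (lg U) (z0 + y0 * I)‖)
    (hK1 : 4 * u ≤ K) (hK2 : t + C0 + p * (1 + lam) ≤ K / 4)
    (hcon : -(dschw (lg U) (z0 + y0 * I)).im <
      (lam + 3 / (4 * K)) * |(dschw (lg U) (z0 + y0 * I)).re|) :
    LB (c7 / (64 * p ^ 2 * (1 + lam) ^ 2)) K p t R k ≤ 8 * u * C8 := by
  obtain ⟨hW, hUpos, hv⟩ := hU
  have hK0 : 0 < K := by linarith
  have hu2 : 2 ≤ u := by linarith
  have hu0 : 0 < u := by linarith
  have hC50 : 0 < C5 := by linarith
  have ht0 : 0 < t := by rw [ht]; positivity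
  have hR0 : 0 ≤ R := by rw [hR]; linarith
  have hlam' : lam' < lam := by
    have : 0 < 1 / (4 * K) := by positivity
    linarith
  set D : ℝ := ‖dschw (lg U) (z0 + y0 * I)‖ with hD
  have hD0 : 0 < D := by
    by_contra h
    have h1 : D = 0 := le_antisymm (not_lt.1 h) (norm_nonneg _)
    rw [h1] at hS0
    simp at hS0
  -- the direction
  obtain ⟨a, ha, haG⟩ : ∃ a : ℝ, |a| ≤ lam' ∧
      (((a : ℂ) + I) * dschw (lg U) (z0 + y0 * I)).re ≤ D / K := by
    have hre : |(dschw (lg U) (z0 + y0 * I)).re| ≤ D := Complex.abs_re_le_norm _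
    have key : -(dschw (lg U) (z0 + y0 * I)).im - lam' * |(dschw (lg U) (z0 + y0 * I)).re| ≤
        D / K := by
      have h1 : lam + 3 / (4 * K) - lam' = 1 / K := by
        have : lam + 3 / (4 * K) - lam' = 3 / (4 * K) + 1 / (4 * K) := by linarith
        rw [this]
        field_simp
        norm_num
      have h2 : -(dschw (lg U) (z0 + y0 * I)).im - lam' * |(dschw (lg U) (z0 + y0 * I)).re| ≤
          (lam + 3 / (4 * K) - lam') * |(dschw (lg U) (z0 + y0 * I)).re| := by linarith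
      refine h2.trans ?_
      rw [h1, div_eq_mul_one_div D K, mul_comm D]
      exact mul_le_mul_of_nonneg_left hre (by positivity)
    rcases le_total 0 (dschw (lg U) (z0 + y0 * I)).re with h | h
    · refine ⟨-lam', by rw [abs_neg, abs_of_pos hlam'0], ?_⟩
      rw [abs_of_nonneg h] at key
      refine le_trans (le_of_eq ?_) key
      rw [Complex.mul_re]
      simp
      ring
    · refine ⟨lam', by rw [abs_of_pos hlam'0], ?_⟩
      rw [abs_of_nonpos h] at key
      refine le_trans (le_of_eq ?_) key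
      rw [Complex.mul_re]
      simp
      ring
  set τ : ℝ := K / D with hτ
  have hτ0 : 0 < τ := by positivity
  have hτy : 2 * τ * (1 + lam) ≤ y0 := by
    have e1 : 2 * τ * (1 + lam) = 2 * (1 + lam) * K / D := by
      rw [hτ]
      ring
    rw [e1, div_le_iff₀ hD0]
    exact hS4
  have hτy2 : 2 * τ ≤ y0 := by
    have h1 : 0 < τ * lam := by positivity
    linarith only [h1, hτy]
  have hkτ : k * τ ≤ y0 := by
    rw [hτ, ← mul_div_assoc, div_le_iff₀ hD0]
    exact hS5
  have hKS : 2 * K ≤ y0 * D := by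
    have h1 : 0 < K * lam := by positivity
    linarith only [h1, hS4]
  obtain ⟨s1, s2, s3, s4⟩ := step1 hv hy0 hD hD0 hK hτ hC0 hQM ha hlam'.le hc3 hc3' hC3 hG haG
    hS1 hS2 hS3 hKS
  set e : ℂ := (a : ℂ) + I with he
  set β : ℝ := (schw (lg U) (z0 + y0 * I + τ * e) - schw (lg U) (z0 + y0 * I)).im with hβ
  set Φ : ℂ → ℂ := fun w => schw (lg U) (w + (2 * τ : ℝ) * e) - schw (lg U) (w + τ * e) + C0 -
    I * β with hΦ
  have hime : e.im = 1 := by simp [he]
  have himw : ∀ (w : ℂ) (s : ℝ), (w + s * e).im = w.im + s := by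
    intro w s
    rw [Complex.add_im, Complex.im_ofReal_mul, hime, mul_one]
  have hrew : ∀ (w : ℂ) (s : ℝ), (w + s * e).re = w.re + a * s := by
    intro w s
    rw [Complex.add_re, Complex.re_ofReal_mul, he]
    simp
    ring
  have hreP : ∀ w : ℂ, 0 < w.im → (schw (lg U) w).re = poisson (lg U) w.re w.im := by
    intro w hw
    rw [← schw_re hv hw, Complex.re_add_im]
  have hΦre : ∀ w : ℂ, (Φ w).re =
      (schw (lg U) (w + (2 * τ : ℝ) * e)).re - (schw (lg U) (w + τ * e)).re + C0 := by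
    intro w
    simp only [hΦ, Complex.add_re, Complex.sub_re, Complex.ofReal_re, Complex.mul_re,
      Complex.I_re, Complex.I_im, Complex.ofReal_im]
    ring
  have hΦd : DifferentiableOn ℂ Φ {w : ℂ | -τ < w.im} := by
    intro w hw
    rw [mem_ofPred_eq] at hw
    have h1 : 0 < (w + (2 * τ : ℝ) * e).im := by rw [himw]; linarith
    have h2 : 0 < (w + τ * e).im := by rw [himw]; linarith
    have h3 : DifferentiableAt ℂ (fun w : ℂ => schw (lg U) (w + (2 * τ : ℝ) * e)) w := by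
      have := (hasDerivAt_schw hv h1).differentiableAt
      exact DifferentiableAt.comp (g := schw (lg U)) w this (by fun_prop)
    have h4 : DifferentiableAt ℂ (fun w : ℂ => schw (lg U) (w + τ * e)) w := by
      have := (hasDerivAt_schw hv h2).differentiableAt
      exact DifferentiableAt.comp (g := schw (lg U)) w this (by fun_prop)
    exact (((h3.sub h4).add_const _).sub_const _).differentiableWithinAt
  have hΦ0 : ∀ w : ℂ, 0 ≤ w.im → 0 ≤ (Φ w).re := by
    intro w hw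
    have h1 : 0 < (w + (2 * τ : ℝ) * e).im := by rw [himw]; linarith
    have h2 : 0 < (w + τ * e).im := by rw [himw]; linarith
    rw [hΦre, hreP _ h1, hreP _ h2, himw, himw, hrew, hrew]
    have h3 := hQM a τ (w.re + a * τ) (w.im + τ) ha hτ0 (by linarith)
    have e1 : w.re + a * τ + a * τ = w.re + a * (2 * τ) := by ring
    have e2 : w.im + τ + τ = w.im + 2 * τ := by ring
    rw [e1, e2] at h3
    linarith
  set z1 : ℝ := z0 - a * τ with hz1
  set y1 : ℝ := y0 - τ with hy1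
  have hy1p : 0 < y1 := by linarith
  have hw1 : (z1 : ℂ) + y1 * I = z0 + y0 * I - τ * e := by
    rw [hz1, hy1, he]
    push_cast
    ring
  have hΦ1 : Φ (z1 + y1 * I) = (((schw (lg U) (z0 + y0 * I + τ * e) -
      schw (lg U) (z0 + y0 * I)).re + C0 : ℝ) : ℂ) := by
    have e1 : (z1 : ℂ) + y1 * I + (2 * τ : ℝ) * e = z0 + y0 * I + τ * e := by
      rw [hw1]
      push_cast
      ring
    have e2 : (z1 : ℂ) + y1 * I + τ * e = z0 + y0 * I := by
      rw [hw1]
      ring
    simp only [hΦ, e1, e2]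
    apply Complex.ext
    · simp
    · simp only [Complex.sub_im, Complex.add_im, Complex.ofReal_im, Complex.mul_im,
        Complex.I_re, Complex.I_im, Complex.ofReal_re, hβ]
      ring
  have hΦB : ‖Φ (z1 + y1 * I)‖ ≤ C0 + 2 := by
    rw [hΦ1, Complex.norm_real, Real.norm_of_nonneg (by linarith)]
    linarith
  -- Kolmogorov
  have hKo1 : Pm z1 y1 {x : ℝ | t ≤ ‖Φ x‖} ≤ ENNReal.ofReal (1 / (16 * u)) := by
    have h1 := hKo Φ τ z1 y1 (C0 + 2) t hτ0 hy1p (by linarith) ht0 hΦd hΦ0 hΦB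
    rw [Pm_apply]
    have h2 : ∫⁻ x in {x : ℝ | t ≤ ‖Φ x‖},
        ENNReal.ofReal (1 / Real.pi * (y1 / ((z1 - x) ^ 2 + y1 ^ 2))) ≤
        ∫⁻ x in {x : ℝ | t ≤ ‖Φ x‖}, ENNReal.ofReal (y1 / ((z1 - x) ^ 2 + y1 ^ 2)) := by
      refine lintegral_mono fun x => ENNReal.ofReal_le_ofReal ?_
      have hpi := Real.pi_gt_three
      have h3 : 1 / Real.pi ≤ 1 := by
        rw [div_le_one (by positivity)]
        linarith only [hpi]
      have h4 : 0 ≤ y1 / ((z1 - x) ^ 2 + y1 ^ 2) := by positivity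
      exact mul_le_of_le_one_left h4 h3
    refine (h2.trans h1).trans (ENNReal.ofReal_le_ofReal ?_)
    have h3 : (C0 + 2) / t ≤ (1 / (16 * C5 * u)) ^ 2 := by
      rw [ht, div_pow, one_pow, div_le_div_iff₀ (by positivity) (by positivity)]
      have h4 : C0 + 2 ≤ 2 * u := by linarith
      have h5 : (C0 + 2) * (16 * C5 * u) ^ 2 ≤ (2 * u) * (16 * C5 * u) ^ 2 :=
        mul_le_mul_of_nonneg_right h4 (by positivity)
      refine h5.trans (le_of_eq ?_)
      ring
    have h4 : Real.sqrt ((C0 + 2) / t) ≤ 1 / (16 * C5 * u) := Real.sqrt_le_iff.2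
      ⟨by positivity, h3⟩
    calc C5 * Real.sqrt ((C0 + 2) / t) ≤ C5 * (1 / (16 * C5 * u)) :=
          mul_le_mul_of_nonneg_left h4 hC50.le
      _ = 1 / (16 * u) := by field_simp
  -- the lower bound for the probability
  set Y : ℝ → ℝ := fun x => poisson (lg U) (x + a * τ) τ - lg U x with hY
  have hint1 : Integrable (fun x : ℝ => poisson (lg U) (x + a * τ) τ) (Pm z1 y1) :=
    Pm_integrable hy1p (semi_integrable hv hy1p hτ0)
  have hint2' : Integrable (fun x : ℝ => lg U x * (y1 / ((z1 - x) ^ 2 + y1 ^ 2))) volume :=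
    (Crit.TFUp.integrable_pois hv (z := z1) hy1p).congr
      (Eventually.of_forall fun x => by simp only; ring)
  have hint2 : Integrable (lg U) (Pm z1 y1) := Pm_integrable hy1p hint2'
  have hYint : Integrable Y (Pm z1 y1) := hint1.sub hint2
  have hpi0 := Real.pi_pos
  have hYle : ∫ x, Y x ∂(Pm z1 y1) ≤ 2 := by
    have h1 : ∫ x, Y x ∂(Pm z1 y1) = (∫ x, poisson (lg U) (x + a * τ) τ ∂(Pm z1 y1)) -
      ∫ x, lg U x ∂(Pm z1 y1) := integral_sub hint1 hint2
    have h2 : ∫ x, lg U x * (y1 / ((z1 - x) ^ 2 + y1 ^ 2)) =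
        ∫ x : ℝ, y1 * lg U x / ((z1 - x) ^ 2 + y1 ^ 2) :=
      integral_congr_ae (Eventually.of_forall fun x => by simp only; ring)
    rw [h1, Pm_integral hy1p, Pm_integral hy1p, semigroup hv hy1p hτ0, h2,
      ← poisson_eq_integral]
    have e1 : z1 + a * τ = z0 := by rw [hz1]; ring
    have e2 : y1 + τ = y0 := by rw [hy1]; ring
    rw [e1, e2]
    have e3 : 1 / Real.pi * (Real.pi * poisson (lg U) z0 y0) = poisson (lg U) z0 y0 := by
      field_simp
    rw [e3]
    exact s1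
  have hYexp : ∫⁻ x, ENNReal.ofReal (Real.exp (-Y x)) ∂(Pm z1 y1) ≤
      ENNReal.ofReal (Real.exp C0) := by
    rw [Pm_lintegral]
    refine le_trans ?_ ((hQi a τ z1 y1 ha hτ0 (by linarith)).trans
      (ENNReal.ofReal_le_ofReal hC1))
    refine lintegral_mono_ae ?_
    filter_upwards [hUpos] with x hx
    have e1 : Real.exp (-Y x) = U x * Real.exp (-poisson (lg U) (x + a * τ) τ) := by
      rw [hY]
      simp only
      rw [neg_sub, sub_eq_add_neg, Real.exp_add]
      congr 1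
      unfold lg
      exact Real.exp_log hx
    rw [e1]
    refine mul_le_mul_left (ENNReal.ofReal_le_ofReal ?_) _
    have hpi := Real.pi_gt_three
    have h3 : 1 / Real.pi ≤ 1 := by
      rw [div_le_one (by positivity)]
      linarith only [hpi]
    have h4 : 0 ≤ y1 / ((z1 - x) ^ 2 + y1 ^ 2) := by positivity
    exact mul_le_of_le_one_left h4 h3
  have hYb1 := hYb (Pm z1 y1) Y C0 (Pm_prob hy1p) (by linarith) hYint hYle hYexp
  rw [← hu] at hYb1
  have hz10 : |z1 - z0| ≤ y0 := by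
    have e1 : z1 - z0 = -(a * τ) := by rw [hz1]; ring
    rw [e1, abs_neg, abs_mul, abs_of_pos hτ0]
    have h1 : |a| * τ ≤ lam * τ := mul_le_mul_of_nonneg_right (ha.trans hlam'.le) hτ0.le
    have h2 : 0 < τ * lam := by positivity
    linarith only [h1, h2, hτy, hτ0]
  have hvol := volLow (z1 := z1) (y1 := y1) (N := fun x : ℝ => ‖Φ x‖) hy0 (by linarith)
    (by linarith) hz10 (by linarith) hR hUpos hYb1 hKo1
  -- the pointwise lower bound
  set m : ℝ := c7 / (64 * p ^ 2 * (1 + lam) ^ 2) with hm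
  have hm0 : 0 < m := by positivity
  set X : Set ℝ := {x : ℝ | Y x ≤ 6 ∧ ‖Φ x‖ < t ∧ |x - z0| ≤ R * y0 ∧ 0 < U x} with hX
  have hpw : ∀ x ∈ X, ENNReal.ofReal (LB m K p t R k) ≤
      (∫⁻ q in cone lam x, ENNReal.ofReal (‖deriv (oF U p z0 y0 k) (q.1 + q.2 * I)‖ ^ 2)) ^
        (p / 2) * ENNReal.ofReal (U x) := by
    rintro x ⟨hx1, hx2, hx3, hx4⟩
    have hβK : K / 2 ≤ |β| := by linarith
    have h1 := pt hv hp hτ0 ha hlam'.le (by linarith) hQM hx1 hx2.le hx3 hy0 hR0 hτy hkτ hβK hK2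
    have hdo : DifferentiableOn ℂ (oF U p z0 y0 k) {w : ℂ | 0 < w.im} := fun w hw =>
      (Tu.hasDerivAt_oF hv k hy0 hw).differentiableAt.differentiableWithinAt
    have h2 := hAr (oF U p z0 y0 k) x a lam' τ _ hdo hτ0 hlam'0 hlam' ha (by positivity) h1
    exact area hp hlam hc7 hK0 hl hx4 hR0 rfl h2
  -- measurability
  have hΦc : Continuous (fun x : ℝ => Φ x) := by
    rw [continuous_iff_continuousAt]
    intro x
    have h1 : (x : ℂ) ∈ {w : ℂ | -τ < w.im} := by
      show -τ < (x : ℂ).im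
      rw [Complex.ofReal_im]
      linarith
    have h2 : {w : ℂ | -τ < w.im} ∈ 𝓝 (x : ℂ) :=
      (isOpen_lt continuous_const Complex.continuous_im).mem_nhds h1
    exact ContinuousAt.comp (f := fun t : ℝ => (t : ℂ)) (g := Φ)
      ((hΦd _ h1).differentiableAt h2).continuousAt
      Complex.continuous_ofReal.continuousAt
  have hPc : Continuous (fun x : ℝ => poisson (lg U) (x + a * τ) τ) := by
    have h1 : ∀ x : ℝ, poisson (lg U) (x + a * τ) τ =
        (schw (lg U) (((x + a * τ : ℝ) : ℂ) + τ * I)).re := fun x => (schw_re hv hτ0).symm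
    rw [continuous_iff_continuousAt]
    intro x
    have h2 : 0 < (((x + a * τ : ℝ) : ℂ) + τ * I).im := by simpa using hτ0
    have h3 := (hasDerivAt_schw hv h2).continuousAt
    have h4 : ContinuousAt (fun x : ℝ => schw (lg U) (((x + a * τ : ℝ) : ℂ) + τ * I)) x :=
      ContinuousAt.comp (g := schw (lg U)) (f := fun x : ℝ => ((x + a * τ : ℝ) : ℂ) + τ * I) h3
        (by fun_prop)
    refine (Complex.continuous_re.continuousAt.comp h4).congr ?_
    exact Eventually.of_forall fun x => (h1 x).symm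
  have hUm := weight_aemeas hW
  have hlm : AEMeasurable (lg U) volume := (adm_measurable hv).aemeasurable
  have hXm : NullMeasurableSet X volume := by
    refine NullMeasurableSet.inter ?_ (NullMeasurableSet.inter ?_ (NullMeasurableSet.inter ?_ ?_))
    · exact nullMeasurableSet_le (hPc.measurable.aemeasurable.sub hlm) aemeasurable_const
    · exact (measurableSet_lt hΦc.norm.measurable measurable_const).nullMeasurableSet
    · exact (measurableSet_le (f := fun x : ℝ => |x - z0|) (g := fun _ : ℝ => R * y0)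
        (by fun_prop) (by fun_prop)).nullMeasurableSet
    · exact nullMeasurableSet_lt aemeasurable_const hUm
  -- the conclusion
  have hLB0 : 0 < LB m K p t R k := by
    unfold LB
    have : 0 < R + 2 := by linarith
    positivity
  have h1 : ENNReal.ofReal (LB m K p t R k) * volume X ≤ C8 * ENNReal.ofReal y0 := by
    rw [← setLIntegral_const]
    refine le_trans ?_ (hTu z0 y0 hy0)
    refine le_trans (lintegral_mono_ae ?_) (setLIntegral_le_lintegral X _)
    rw [ae_restrict_iff'₀ hXm]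
    exact Eventually.of_forall hpw
  have h2 : ENNReal.ofReal (LB m K p t R k) * ENNReal.ofReal (y0 / (8 * u)) ≤
      C8 * ENNReal.ofReal y0 := (mul_le_mul_right hvol _).trans h1
  have h3 : (C8 : ℝ≥0∞) = ENNReal.ofReal (C8 : ℝ) := (ENNReal.ofReal_coe_nnreal).symm
  rw [h3, ← ENNReal.ofReal_mul hLB0.le, ← ENNReal.ofReal_mul (NNReal.coe_nonneg C8),
    ENNReal.ofReal_le_ofReal_iff (by positivity)] at h2
  have h4 : LB m K p t R k * (y0 / (8 * u)) = (LB m K p t R k / (8 * u)) * y0 := by ring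
  rw [h4] at h2
  have h5 := le_of_mul_le_mul_right h2 hy0
  rw [div_le_iff₀ (by positivity)] at h5
  linarith

end Gain

/-- At points with large normalised gradient the vertical derivative dominates. -/
theorem stGain (hCCq : StCCq) (hQm : StQm) (hGh : StGh) (hKo : StKo) (hYb : StYb) (hAr : StAr)
    (hTu : StTu) : StGain := by
  intro lam b p U hb hbl hp hU hCC hS
  have hlam : 0 < lam := hb.trans hbl
  have hv : Admissible (lg U) := hU.2.2
  obtain ⟨C1, hC1, hCCK⟩ := hCCq lam b p U hb hbl hp hU hCC hS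
  obtain ⟨C2, hC2, hQm⟩ := hQm b lam hb hbl
  obtain ⟨C3, c3, hC3, hc3, hc3', hGh⟩ := hGh b hb
  obtain ⟨C5, hC5, hKo⟩ := hKo
  obtain ⟨c7, hc7, hAr⟩ := hAr lam hlam
  obtain ⟨C8, k, hTu⟩ := hTu lam b p U hb hbl hp hU hCC hS
  have hbl' : 0 < lam - b := by linarith
  set m : ℝ := c7 / (64 * p ^ 2 * (1 + lam) ^ 2) with hm
  have hm0 : 0 < m := by positivity
  set A1 : ℝ := 2 / p * (p / 2 * |Real.log m| + 6 + 512 * C5 ^ 2 + 20 * k * p +
      Real.log (8 * ((C8 : ℝ) + 1)) + 1) with hA1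
  set A2 : ℝ := 4 * (512 * C5 ^ 2 + 1 + p * (1 + lam)) + 4 with hA2
  have hC80 : 0 ≤ (C8 : ℝ) := C8.2
  have hl8 : 0 ≤ Real.log (8 * ((C8 : ℝ) + 1)) := Real.log_nonneg (by linarith)
  have hA10 : 0 ≤ A1 := by positivity
  have hA20 : 0 ≤ A2 := by positivity
  set c : ℝ := 2 + Real.log C1 + Real.log C2 with hc
  obtain ⟨K, hK0, hqK, hKlog⟩ := Gain.asym c p (8 * (lam - b)) (A1 + A2)
    (1 + 1 / (4 * (lam - b))) (by positivity)
  set u : ℝ := c + p * Real.log (1 + Real.log (8 * (lam - b) * K)) with hu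
  have hlC1 : 0 ≤ Real.log C1 := Real.log_nonneg hC1
  have hlC2 : 0 ≤ Real.log C2 := Real.log_nonneg hC2
  have hlq : 0 ≤ Real.log (8 * (lam - b) * K) := Real.log_nonneg hqK
  have hllq : 0 ≤ Real.log (1 + Real.log (8 * (lam - b) * K)) := Real.log_nonneg (by linarith)
  have hu2 : 2 ≤ u := by
    have : 0 ≤ p * Real.log (1 + Real.log (8 * (lam - b) * K)) := by positivity
    linarith
  have hK1 : 1 ≤ K := by
    have : 0 < 1 / (4 * (lam - b)) := by positivity
    linarith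
  have hKp : 0 < K := by linarith
  have hKb : 1 / (4 * K) ≤ lam - b := by
    have h1 : 1 / (4 * (lam - b)) ≤ K := by linarith
    rw [div_le_iff₀ (by positivity)] at h1 ⊢
    linarith
  have hu3 : 1 ≤ u ^ 3 := one_le_pow₀ (by linarith)
  have hu3' : u ≤ u ^ 3 := by
    calc u = u ^ 1 := (pow_one u).symm
      _ ≤ u ^ 3 := pow_le_pow_right₀ (by linarith only [hu2]) (by norm_num)
  have hKl : Real.log K ≤ K := by
    have := Real.log_le_sub_one_of_pos hKp
    linarith
  have hKA2 : A2 * u ^ 3 ≤ K := by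
    have h1 : A2 * u ^ 3 ≤ (A1 + A2) * u ^ 3 :=
      mul_le_mul_of_nonneg_right (by linarith) (by positivity)
    linarith
  have hKA1 : A1 * u ^ 3 < Real.log K := by
    have h1 : A1 * u ^ 3 ≤ (A1 + A2) * u ^ 3 :=
      mul_le_mul_of_nonneg_right (by linarith) (by positivity)
    linarith
  set lam' : ℝ := lam - 1 / (4 * K) with hlam'
  set lam2 : ℝ := lam - 1 / (8 * K) with hlam2
  have hbl1 : b ≤ lam' := by linarith
  have hl12 : lam' < lam2 := by
    have : 1 / (8 * K) < 1 / (4 * K) := by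
      apply one_div_lt_one_div_of_lt (by positivity)
      linarith
    linarith
  have hl2 : lam2 < lam := by
    have : 0 < 1 / (8 * K) := by positivity
    linarith
  have hlam'0 : 0 < lam' := hb.trans_le hbl1
  set K1 : ℝ := C1 * (1 + Real.log ((lam - b) / (lam - lam2))) ^ p with hK1d
  have hq1 : (lam - b) / (lam - lam2) = 8 * (lam - b) * K := by
    have : lam - lam2 = 1 / (8 * K) := by rw [hlam2]; ring
    rw [this]
    field_simp
  have hK11 : 1 ≤ K1 := by
    rw [hK1d, hq1]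
    have h1 : 1 ≤ (1 + Real.log (8 * (lam - b) * K)) ^ p := Real.one_le_rpow (by linarith) hp.le
    exact one_le_mul_of_one_le_of_one_le hC1 h1
  obtain ⟨hQM0, hQi⟩ := hQm U K1 lam2 lam' hU (by linarith) hl2.le hlam'0.le hl12 hK11
    (hCCK lam2 (by linarith) hl2)
  have hlogK : Real.log (C2 * K1) = u - 2 := by
    rw [Real.log_mul (by linarith) (by linarith), hK1d, hq1,
      Real.log_mul (by linarith) (by positivity), Real.log_rpow (by linarith), hu, hc]
    ring
  set C0 : ℝ := u - 1 with hC0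
  have hQM : QM lam' C0 (lg U) := by
    intro a τ z y ha hτ hy
    have := hQM0 a τ z y ha hτ hy
    rw [hlogK] at this
    linarith
  have hQMb : QM b C0 (lg U) := fun a τ z y ha hτ hy => hQM a τ z y (ha.trans hbl1) hτ hy
  have hCK : C2 * K1 ≤ Real.exp C0 := by
    have h1 : 0 < C2 * K1 := by positivity
    rw [← Real.log_le_iff_le_exp h1, hlogK]
    linarith
  set S0 : ℝ := C0 + 8 * C3 * (1 + lam) ^ 2 * K ^ 2 / c3 + 4 * (1 + lam) * K / c3 +
    2 * (1 + lam) * K + k * K with hS0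
  have hC01 : 1 ≤ C0 := by linarith
  have hs2 : 0 ≤ 8 * C3 * (1 + lam) ^ 2 * K ^ 2 / c3 := by positivity
  have hs3 : 0 ≤ 4 * (1 + lam) * K / c3 := by positivity
  have hs4 : 0 ≤ 2 * (1 + lam) * K := by positivity
  have hs5 : 0 ≤ (k : ℝ) * K := by positivity
  refine ⟨3 / (4 * K), S0, by positivity, by linarith, ?_⟩
  intro z0 y0 hy0 hSS
  by_contra hcon
  rw [not_le] at hcon
  have hG := hGh (lg U) C0 hv (by linarith) hQMb z0 y0 hy0
  have hKu : 4 * u ≤ K := by
    have h1 : 4 * u ≤ A2 * u ^ 3 := by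
      have h2 : 4 ≤ A2 := by
        have : 0 ≤ 4 * (512 * C5 ^ 2 + 1 + p * (1 + lam)) := by positivity
        linarith
      have h3 : 4 * u ^ 3 ≤ A2 * u ^ 3 := mul_le_mul_of_nonneg_right h2 (by positivity)
      linarith
    linarith
  have hKt : 512 * C5 ^ 2 * u ^ 3 + C0 + p * (1 + lam) ≤ K / 4 := by
    have h2 : p * (1 + lam) * 1 ≤ p * (1 + lam) * u ^ 3 :=
      mul_le_mul_of_nonneg_left hu3 (by positivity)
    have e1 : A2 * u ^ 3 = 4 * (512 * C5 ^ 2 * u ^ 3) + 4 * u ^ 3 + 4 * (p * (1 + lam) * u ^ 3) +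
        4 * u ^ 3 := by
      rw [hA2]
      ring
    have h3 : 0 ≤ u ^ 3 := by linarith only [hu3]
    linarith only [e1, h2, hu3', hKA2, hC0, h3]
  have hfin := Gain.onePoint hU (u := u) (t := 512 * C5 ^ 2 * u ^ 3) (R := 16 * u + 2) hlam hp hK1
    hlam'0 (by rw [hlam']; ring) (by rw [hC0]; ring) hC01 rfl rfl hC5 hQM hQi hCK hKo hYb hc7 hAr
    hTu hy0 hC3 hc3 hc3' hG (by linarith) (by linarith) (by linarith) (by linarith) (by linarith)
    (by linarith) hKu hKt hcon
  exact absurd (Gain.fin hm0 hK1 hp hu2 hC80 rfl rfl hfin) (not_le.2 hKA1)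

end Pool.Agent.Work.MP_055a27_an.Op
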