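import Pool.Agent.Work.MP_055a27_an.Cr3.Stmts

/-!
# Openness at the critical aperture: definitions and statements of the items

If `0 < b < lam`, `log U` is admissible, the Carleson condition `CC b U` and the inequality
`Star lam b p U` hold then `CC μ U` holds for some `μ > lam`.
Notation: `V = P[log U]`, `∇V` is `dschw (lg U) w = V_x - i V_y`.
-/

open MeasureTheory Set Filter Topology Complex Metric
open scoped ENNReal NNReal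

namespace Pool.Agent.Work.MP_055a27_an.Op

open Crit (lg cc CC NTc Nice NI)
open Cr3 (Wt Sh)

/-- The Carleson condition with a given constant. -/
def CCK (μ K : ℝ) (U : ℝ → ℝ) : Prop := ∀ a c : ℝ, a < c →
  ∫⁻ x in Icc a c, cc μ a c U x * ENNReal.ofReal (U x) ≤ ENNReal.ofReal (K * (c - a))

/-- Quasi monotonicity of the Poisson integral in the directions `(a, 1)`, `|a| ≤ a0`. -/
def QM (a0 C0 : ℝ) (v : ℝ → ℝ) : Prop := ∀ a τ z y : ℝ, |a| ≤ a0 → 0 < τ → τ ≤ y →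
  poisson v z y ≤ poisson v (z + a * τ) (y + τ) + C0

/-- The outer test function with a peak at `z0 + i y0`. -/
noncomputable def oF (U : ℝ → ℝ) (p z0 y0 : ℝ) (k : ℕ) (w : ℂ) : ℂ :=
  Complex.exp (-(schw (lg U) w) / p) * tF z0 y0 k w

/-- 1 NSq: change of aperture with a logarithmic constant. -/
def StNSq : Prop := ∀ lam b : ℝ, 0 < b → b < lam → ∃ C : ℝ, 0 ≤ C ∧ ∀ lam2 : ℝ, b < lam2 →
  lam2 < lam → ∀ f : ℝ → ℝ, Admissible f → ∀ x : ℝ, ntMax lam2 f x ≤ ntMax b f x +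
    ENNReal.ofReal (C * (1 + Real.log ((lam - b) / (lam - lam2)))) * areaFn lam f x

/-- 2 CCq: the Carleson condition with a logarithmic power. -/
def StCCq : Prop := ∀ (lam b p : ℝ) (U : ℝ → ℝ), 0 < b → b < lam → 0 < p → Wt U → CC b U →
  Star lam b p U → ∃ C : ℝ, 1 ≤ C ∧ ∀ μ : ℝ, b ≤ μ → μ < lam →
    CCK μ (C * (1 + Real.log ((lam - b) / (lam - μ))) ^ p) U

/-- 3 Qm: the Carleson condition implies quasi monotonicity. -/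
def StQm : Prop := ∀ b Λ : ℝ, 0 < b → b < Λ → ∃ C : ℝ, 1 ≤ C ∧ ∀ (U : ℝ → ℝ) (K μ a0 : ℝ),
  Wt U → b ≤ μ → μ ≤ Λ → 0 ≤ a0 → a0 < μ → 1 ≤ K → CCK μ K U →
  QM a0 (Real.log (C * K)) (lg U) ∧
  ∀ a τ z y : ℝ, |a| ≤ a0 → 0 < τ → τ ≤ y →
    ∫⁻ x, ENNReal.ofReal (y / ((z - x) ^ 2 + y ^ 2)) *
      ENNReal.ofReal (U x * Real.exp (-poisson (lg U) (x + a * τ) τ)) ≤ ENNReal.ofReal (C * K)

/-- 4 Gh: Harnack inequality for the gradient. -/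
def StGh : Prop := ∀ a0 : ℝ, 0 < a0 → ∃ C c : ℝ, 1 ≤ C ∧ 0 < c ∧ c ≤ 1 / 4 ∧
  ∀ (v : ℝ → ℝ) (C0 : ℝ), Admissible v → 0 ≤ C0 → QM a0 C0 v → ∀ z y : ℝ, 0 < y →
    ∀ w ∈ ball ((z : ℂ) + y * I) (c * y),
      ‖dschw v w‖ ≤ C * (‖dschw v (z + y * I)‖ + C0 / y)

/-- 5 Ko: Kolmogorov's weak type inequality for analytic functions with non-negative real
part. -/
def StKo : Prop := ∃ C : ℝ, 1 ≤ C ∧ ∀ (Φ : ℂ → ℂ) (h z y B t : ℝ), 0 < h → 0 < y → 0 ≤ B →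
  0 < t → DifferentiableOn ℂ Φ {w : ℂ | -h < w.im} → (∀ w : ℂ, 0 ≤ w.im → 0 ≤ (Φ w).re) →
  ‖Φ (z + y * I)‖ ≤ B →
  ∫⁻ x in {x : ℝ | t ≤ ‖Φ x‖}, ENNReal.ofReal (y / ((z - x) ^ 2 + y ^ 2)) ≤
    ENNReal.ofReal (C * Real.sqrt (B / t))

/-- 6 Yb: a lower bound for a probability. -/
def StYb : Prop := ∀ (P : Measure ℝ) (Y : ℝ → ℝ) (C0 : ℝ), IsProbabilityMeasure P → 0 ≤ C0 →
  Integrable Y P → ∫ x, Y x ∂P ≤ 2 → ∫⁻ x, ENNReal.ofReal (Real.exp (-Y x)) ∂P ≤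
    ENNReal.ofReal (Real.exp C0) →
  ENNReal.ofReal (1 / (4 * (1 + C0))) ≤ P {x : ℝ | Y x ≤ 6}

/-- 7 Ar: lower bound for the area integral by the variation on a segment. -/
def StAr : Prop := ∀ lam : ℝ, 0 < lam → ∃ c : ℝ, 0 < c ∧ ∀ (F : ℂ → ℂ) (x a lam' τ W : ℝ),
  DifferentiableOn ℂ F {w : ℂ | 0 < w.im} → 0 < τ → 0 < lam' → lam' < lam → |a| ≤ lam' →
  0 ≤ W → W ≤ ∫ s in τ..(2 * τ), ‖deriv F (x + s * (a + I))‖ →
  ENNReal.ofReal (c * (lam - lam') * W ^ 2) ≤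
    ∫⁻ q in cone lam x, ENNReal.ofReal (‖deriv F (q.1 + q.2 * I)‖ ^ 2)

/-- 8 Tu: the inequality for the outer test functions. -/
def StTu : Prop := ∀ (lam b p : ℝ) (U : ℝ → ℝ), 0 < b → b < lam → 0 < p → Wt U → CC b U →
  Star lam b p U → ∃ (C : ℝ≥0) (k : ℕ), ∀ z0 y0 : ℝ, 0 < y0 →
    ∫⁻ x, (∫⁻ q in cone lam x, ENNReal.ofReal (‖deriv (oF U p z0 y0 k) (q.1 + q.2 * I)‖ ^ 2)) ^
      (p / 2) * ENNReal.ofReal (U x) ≤ C * ENNReal.ofReal y0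

/-- 9 Gain: at points with large normalised gradient the vertical derivative dominates. -/
def StGain : Prop := ∀ (lam b p : ℝ) (U : ℝ → ℝ), 0 < b → b < lam → 0 < p → Wt U → CC b U →
  Star lam b p U → ∃ κ S0 : ℝ, 0 < κ ∧ 0 < S0 ∧ ∀ z y : ℝ, 0 < y →
    S0 ≤ y * ‖dschw (lg U) (z + y * I)‖ →
    (lam + κ) * |(dschw (lg U) (z + y * I)).re| ≤ -(dschw (lg U) (z + y * I)).im

/-- 10 Down: from the gain to the Carleson condition with larger aperture. -/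
def StDown : Prop := ∀ (lam κ S0 : ℝ) (U : ℝ → ℝ), 0 < lam → 0 < κ → 0 < S0 → Wt U →
  (∀ μ : ℝ, 0 < μ → μ < lam → CC μ U) →
  (∀ z y : ℝ, 0 < y → S0 ≤ y * ‖dschw (lg U) (z + y * I)‖ →
    (lam + κ) * |(dschw (lg U) (z + y * I)).re| ≤ -(dschw (lg U) (z + y * I)).im) →
  ∃ μ : ℝ, lam < μ ∧ CC μ U

/-- 11 Op: openness. -/
def StOp : Prop := ∀ (lam b p mu0 : ℝ) (U : ℝ → ℝ), 0 < b → b < lam → 0 < p → 0 < mu0 →
  Wt U → CC mu0 U → Star lam b p U → ∃ μ : ℝ, lam < μ ∧ CC μ U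

end Pool.Agent.Work.MP_055a27_an.Op
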